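import Mathlib
import Pool.Agent.Helper26.FD.Dich

/-!
# LD: the dichotomy with a period and a preperiod which depend only on the ring
-/

set_option autoImplicit false

namespace Pool.Agent.Helper87.LD

open MvPolynomial Pool.Agent.Helper86.DML Pool.Agent.Helper26.FD

noncomputable section

/-- a coincidence between powers gives an explicit idempotent power -/
theorem idem_factorial {M : Type*} [Monoid M] (f : M) {i j K : ℕ} (hij : i < j) (hj : j ≤ K)
    (h : f ^ i = f ^ j) : f ^ K.factorial * f ^ K.factorial = f ^ K.factorial := by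
  obtain ⟨ℓ, rfl⟩ := Nat.exists_eq_add_of_lt hij
  have hstep : ∀ a, i ≤ a → f ^ (a + (ℓ + 1)) = f ^ a := by
    intro a ha
    obtain ⟨b, rfl⟩ := Nat.exists_eq_add_of_le ha
    have h1 : i + b + (ℓ + 1) = i + ℓ + 1 + b := by ring
    rw [h1, pow_add, ← h, ← pow_add]
  have hmul : ∀ t a, i ≤ a → f ^ (a + (ℓ + 1) * t) = f ^ a := by
    intro t
    induction t with
    | zero => intro a _; simp
    | succ t ih =>
      intro a ha
      have h1 : a + (ℓ + 1) * (t + 1) = a + (ℓ + 1) * t + (ℓ + 1) := by ring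
      rw [h1, hstep _ (by omega), ih a ha]
  obtain ⟨t, ht⟩ : ℓ + 1 ∣ K.factorial := Nat.dvd_factorial (by omega) (by omega)
  have h2 : i ≤ K.factorial := by
    have := Nat.self_le_factorial K
    omega
  rw [← pow_add]
  conv_lhs => rw [show K.factorial + K.factorial = K.factorial + (ℓ + 1) * t by rw [← ht]]
  exact hmul t _ h2

/-- two terms of a sequence with values in a finite type coincide -/
theorem exists_coincidence {X : Type*} [Finite X] (f : ℕ → X) :
    ∃ i j, i < j ∧ j ≤ Nat.card X ∧ f i = f j := by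
  have := Fintype.ofFinite X
  obtain ⟨a, b, hab, h⟩ := Fintype.exists_ne_map_eq_of_card_lt
    (fun k : Fin (Nat.card X + 1) => f k) (by
      rw [Fintype.card_fin, Nat.card_eq_fintype_card]
      omega)
  have ha := a.2
  have hb := b.2
  have hne : (a : ℕ) ≠ b := fun h => hab (Fin.ext h)
  rcases lt_or_gt_of_ne hne with h1 | h1
  · exact ⟨a, b, h1, by omega, h⟩
  · exact ⟨b, a, h1, by omega, h.symm⟩

section idem

variable {ι : Type*} [Finite ι] {R : Type*} [CommRing R] [Finite R]

/-- the exponent -/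
def expo (ι R : Type*) [CommRing R] : ℕ := (Nat.card (ι → affSub ι R)).factorial

omit [Finite ι] [Finite R] in
theorem expo_pos : 1 ≤ expo ι R := Nat.factorial_pos _

theorem idem_bind₁ {ψ : ι → MvPolynomial ι R} (hψ : ∀ i, ψ i ∈ affSub ι R) :
    (bind₁ ψ) ^ expo ι R * (bind₁ ψ) ^ expo ι R = (bind₁ ψ) ^ expo ι R := by
  have := affSub_finite (ι := ι) R
  have hmem : ∀ n i, ((bind₁ ψ) ^ n) (X i) ∈ affSub ι R := by
    intro n
    induction n with
    | zero => intro i; exact Submodule.subset_span (Set.mem_insert_of_mem _ ⟨i, rfl⟩)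
    | succ n ih =>
      intro i
      rw [pow_succ', AlgHom.mul_apply]
      exact bind₁_mem_affSub hψ (ih i)
  obtain ⟨i, j, hij, hj, h⟩ := exists_coincidence
    (fun (n : ℕ) => (fun i => (⟨((bind₁ ψ) ^ n) (X i), hmem n i⟩ : affSub ι R)))
  have h' : (bind₁ ψ) ^ i = (bind₁ ψ) ^ j := by
    apply MvPolynomial.algHom_ext
    intro k
    exact congrArg Subtype.val (congrFun h k)
  exact idem_factorial _ hij hj h'

end idem

variable {n : ℕ} {O : Type*} [CommRing O]

theorem iter_one {p : ℕ} [Finite (O ⧸ Ideal.span {(p : O)})]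
    (S : MvPolynomial (Fin n) O →ₐ[O] MvPolynomial (Fin n) O)
    (hSaff : ∀ i, map (Ideal.Quotient.mk (Ideal.span {(p : O)})) (S (X i)) ∈
      affSub (Fin n) (O ⧸ Ideal.span {(p : O)}))
    (hinj : Function.Injective
      (bind₁ (fun i => map (Ideal.Quotient.mk (Ideal.span {(p : O)})) (S (X i))))) :
    ∀ i, ∃ u, (S ^ expo (Fin n) (O ⧸ Ideal.span {(p : O)})) (X i) = X i + C (p : O) * u := by
  set M := expo (Fin n) (O ⧸ Ideal.span {(p : O)}) with hM
  have hidem := idem_bind₁
    (ψ := fun i => map (Ideal.Quotient.mk (Ideal.span {(p : O)})) (S (X i))) hSaff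
  rw [← hM] at hidem
  have hinjM : ∀ k : ℕ, Function.Injective
      ((bind₁ (fun i => map (Ideal.Quotient.mk (Ideal.span {(p : O)})) (S (X i)))) ^ k) := by
    intro k
    induction k with
    | zero => exact fun a b hab => hab
    | succ k ih =>
      intro a b hab
      rw [pow_succ, AlgHom.mul_apply, AlgHom.mul_apply] at hab
      exact hinj (ih hab)
  have hone : ∀ i, ((bind₁ (fun i => map (Ideal.Quotient.mk (Ideal.span {(p : O)})) (S (X i)))) ^ M)
      (X i) = X i := by
    intro i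
    apply hinjM M
    rw [← AlgHom.mul_apply, hidem]
  have hSb : S = bind₁ (fun i => S (X i)) := by
    apply algHom_ext
    intro i
    rw [bind₁_X_right]
  intro i
  have h13 := map_bind₁_pow (Ideal.Quotient.mk (Ideal.span {(p : O)})) (fun i => S (X i)) M (X i)
  rw [← hSb, map_X, hone] at h13
  have h14 : C (p : O) ∣ (S ^ M) (X i) - X i := by
    rw [C_dvd_iff_map_hom_eq_zero (Ideal.Quotient.mk (Ideal.span {(p : O)})) (p : O)]
    · rw [map_sub, h13, map_X, sub_self]
    · intro r
      rw [Ideal.Quotient.eq_zero_iff_mem, Ideal.mem_span_singleton]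
  obtain ⟨u, hu⟩ := h14
  exact ⟨u, by rw [← hu]; ring⟩

theorem interp_unif {p : ℕ} [Finite (O ⧸ Ideal.span {(p : O)})]
    (Φ : Fin n → MvPolynomial (Fin n) O) (x : ℕ → Fin n → O)
    (hx : ∀ k, x (k + 1) = pmap Φ (x k)) {ℓ : ℕ}
    (hper : ∀ i, (p : O) ∣ x ℓ i - x 0 i)
    (hdet : ∀ k, IsUnit (Matrix.of fun i j => eval (x k) (pderiv j (Φ i))).det) :
    ∃ u : Fin n → MvPolynomial (Fin n) O, ∀ i,
      zoom (x 0) (p : O) (((bind₁ Φ) ^ (ℓ * expo (Fin n) (O ⧸ Ideal.span {(p : O)}))) (X i)) =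
        C (x 0 i) + C (p : O) * (X i + C (p : O) * u i) := by
  have hper' : ∃ c : Fin n → O, ∀ i, x ℓ i - x 0 i = (p : O) * c i :=
    ⟨fun i => (hper i).choose, fun i => (hper i).choose_spec⟩
  obtain ⟨c, hc⟩ := hper'
  obtain ⟨S, hS, hSaff, hinj⟩ := exists_interp1 Φ x hx hc hdet
  have hu := iter_one S hSaff hinj
  refine ⟨fun i => (hu i).choose, fun i => ?_⟩
  have h16 : zoom (x 0) (p : O) (X i) = C (x 0 i) + C (p : O) * X i := bind₁_X_right _ _
  rw [loc_pow Φ (x 0) ℓ S hS, h16, map_add, map_mul, algHom_C, algHom_C, (hu i).choose_spec,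
    algebraMap_eq]

variable {p : ℕ} [hp : Fact p.Prime] [Algebra ℤ_[p] O] [Module.Finite ℤ_[p] O]
  [Module.Free ℤ_[p] O]

/-- the number of residue classes of vectors -/
def nres (n p : ℕ) (O : Type*) [CommRing O] : ℕ := Nat.card (Fin n → O ⧸ Ideal.span {(p : O)})

/-- the period -/
def per (n p : ℕ) (O : Type*) [CommRing O] : ℕ :=
  (nres n p O).factorial * expo (Fin n) (O ⧸ Ideal.span {(p : O)})

theorem per_pos (n p : ℕ) (O : Type*) [CommRing O] : 1 ≤ per n p O :=
  Nat.mul_pos (Nat.factorial_pos _) expo_pos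

/-- the dichotomy, with a preperiod and a period which depend only on `n`, `p` and the ring -/
theorem dich_unif (hp3 : 3 ≤ p) (Φ : Fin n → MvPolynomial (Fin n) O) (x : ℕ → Fin n → O)
    (hx : ∀ k, x (k + 1) = pmap Φ (x k))
    (hdet : ∀ i ℓ, 1 ≤ ℓ → (∀ j, (p : O) ∣ x (i + ℓ) j - x i j) →
      IsUnit (Matrix.of fun a b => eval (x i) (pderiv b (Φ a))).det)
    {O' : Type*} [CommRing O'] [Algebra ℤ_[p] O'] [Module.Finite ℤ_[p] O'] [Module.Free ℤ_[p] O']
    (ρ : O →+* O') (G : MvPolynomial (Fin n) O') (r : ℕ) :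
    {k | eval (fun i => ρ (x (nres n p O + r + per n p O * k) i)) G = 0}.Finite ∨
      ∀ k, eval (fun i => ρ (x (nres n p O + r + per n p O * k) i)) G = 0 := by
  classical
  have hfinq := finite_quotient (p := p) (O := O)
  set M := expo (Fin n) (O ⧸ Ideal.span {(p : O)}) with hMdef
  -- preperiodicity modulo `p`
  obtain ⟨n₀, ℓ, hℓ, hle, hper⟩ : ∃ n₀ ℓ, 1 ≤ ℓ ∧ n₀ + ℓ ≤ nres n p O ∧
      ∀ i, (p : O) ∣ x (n₀ + ℓ) i - x n₀ i := by
    obtain ⟨i, j, hij, hj, h⟩ := exists_coincidence
      (fun (k : ℕ) => (fun i => Ideal.Quotient.mk (Ideal.span {(p : O)}) (x k i)))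
    obtain ⟨d, rfl⟩ := Nat.exists_eq_add_of_lt hij
    refine ⟨i, d + 1, by omega, hj, fun k => ?_⟩
    have h1 := congrFun h k
    rw [eq_comm, Ideal.Quotient.eq, Ideal.mem_span_singleton] at h1
    exact h1
  have hper1 : ∀ m i, (p : O) ∣ x (n₀ + m + ℓ) i - x (n₀ + m) i := by
    intro m
    induction m with
    | zero => exact hper
    | succ m ih =>
      intro i
      have h1 := eval_congr_mod ih (Φ i)
      have h2 : x (n₀ + (m + 1) + ℓ) i = eval (x (n₀ + m + ℓ)) (Φ i) := by
        have := congrFun (hx (n₀ + m + ℓ)) i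
        have h3 : n₀ + (m + 1) + ℓ = n₀ + m + ℓ + 1 := by ring
        rw [h3, this]
        rfl
      have h4 : x (n₀ + (m + 1)) i = eval (x (n₀ + m)) (Φ i) := congrFun (hx (n₀ + m)) i
      rw [h2, h4]
      exact h1
  -- the residue disc of the point `x (nres + r)`
  set s := nres n p O + r with hs
  obtain ⟨s', hs'⟩ : ∃ s', s = n₀ + s' := ⟨s - n₀, by omega⟩
  obtain ⟨u, hu⟩ := interp_unif (p := p) Φ (fun k => x (s + k)) (fun k => hx (s + k))
    (ℓ := ℓ) (fun i => by
      have := hper1 s' i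
      rwa [← hs'] at this) (fun k => hdet (s + k) ℓ hℓ (fun i => by
        have h1 := hper1 (s' + k) i
        have h3 : n₀ + (s' + k) = s + k := by omega
        rwa [h3] at h1))
  obtain ⟨m, hm⟩ : ℓ ∣ (nres n p O).factorial := Nat.dvd_factorial (by omega) (by omega)
  have hm1 : 1 ≤ m := by
    by_contra hcon
    have h0 : m = 0 := by omega
    rw [h0, mul_zero] at hm
    exact absurd hm (Nat.factorial_pos _).ne'
  have hAn := interp_An ρ hu (fun _ => 0) G
  have hseq : ∀ k, (pmap (fun i => map ρ (Φ i)))^[ℓ * M * k]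
      (fun i => ρ (x s i) + (p : O') * 0) = fun i => ρ (x (s + ℓ * M * k) i) := by
    intro k
    have h2 : ∀ (k : ℕ) (z : Fin n → O), (pmap (fun i => map ρ (Φ i)))^[k] (fun i => ρ (z i)) =
        fun i => ρ ((pmap Φ)^[k] z i) := by
      intro k
      induction k with
      | zero => intro z; rfl
      | succ k ih =>
        intro z
        rw [Function.iterate_succ_apply, Function.iterate_succ_apply, ← ih]
        congr 1
        funext i
        rw [pmap, pmap, eval_map, eval₂_comp]
        rfl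
    simp only [mul_zero, add_zero]
    rw [h2, seq_iter hx]
  have hAn' : An p (fun k => eval (fun i => ρ (x (s + ℓ * M * k) i)) G) := by
    have h1 : (fun k => eval ((pmap (fun i => map ρ (Φ i)))^[ℓ * M * k]
        (fun i => ρ (x s i) + (p : O') * 0)) G) =
        (fun k => eval (fun i => ρ (x (s + ℓ * M * k) i)) G) := funext fun k => by rw [hseq]
    rw [← h1]
    exact hAn
  have h5 : ∀ k, s + per n p O * k = s + ℓ * M * (m * k) := by
    intro k
    rw [per, hm, ← hMdef]
    ring
  simp only [h5]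
  by_cases hinf : {k | eval (fun i => ρ (x (s + ℓ * M * k) i)) G = 0}.Infinite
  · right
    intro k
    exact An_zeros hp3 hAn' hinf (m * k)
  · left
    rw [Set.not_infinite] at hinf
    refine (hinf.preimage (f := fun k => m * k) ?_).subset ?_
    · intro a _ b _ hab
      exact Nat.eq_of_mul_eq_mul_left hm1 hab
    · intro k hk
      exact hk

end

end Pool.Agent.Helper87.LD
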