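import Mathlib
import Pool.Agent.Helper87.LD.Unif

/-!
# LD: uniform bounds for the number of zeros
-/

set_option autoImplicit false

namespace Pool.Agent.Helper87.LD

open Finset fwdDiff Pool.Agent.Helper86.DML Pool.Agent.Helper26.FD

section zeros

open Polynomial

variable {p : ℕ} [hp : Fact p.Prime]

/-- the estimate of `Zeros.lean` with an explicit number of zeros -/
theorem zero_estimate' (hp3 : 3 ≤ p) {g : ℕ → ℤ_[p]} (hg : An p g) {n₀ M : ℕ}
    (hM : ¬ (p : ℤ_[p]) ^ M ∣ g n₀) :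
    ∃ s β : ℕ, s ≤ 2 * M ∧ ∀ (E δ : ℕ) (T : Finset ℕ), s < T.card →
      (∀ n ∈ T, (p : ℤ_[p]) ^ E ∣ g n) →
      (∀ n ∈ T, ∀ m ∈ T, n ≠ m → ¬ (p : ℤ_[p]) ^ (δ + 1) ∣ ((n : ℤ_[p]) - m)) →
      E ≤ β + s * δ := by
  classical
  choose c hc using fun k => hg k 0
  choose q hq hqM using fun k => exists_q hp3 k
  let P : ℕ → ℤ_[p][X] := fun K =>
    ∑ k ∈ range (K + 1), C (c k * q k) * (descPochhammer ℤ_[p] k)
  have hPdeg : ∀ K, (P K).natDegree ≤ K := by
    intro K
    refine Polynomial.natDegree_sum_le_of_forall_le _ _ fun k hk => ?_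
    refine (Polynomial.natDegree_C_mul_le _ _).trans ?_
    rw [descPochhammer_natDegree]
    have := Finset.mem_range.1 hk
    omega
  have hPeval : ∀ (K n : ℕ), (P K).eval (n : ℤ_[p]) =
      ∑ k ∈ range (K + 1), (n.choose k : ℤ_[p]) * (fwdDiff 1)^[k] g 0 := by
    intro K n
    simp only [P, Polynomial.eval_finsetSum, Polynomial.eval_mul, Polynomial.eval_C]
    refine Finset.sum_congr rfl fun k _ => ?_
    rw [descPochhammer_eval_eq_descFactorial, Nat.descFactorial_eq_factorial_mul_choose, hc]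
    push_cast
    rw [← hq k]
    ring
  have hgeval : ∀ (L n : ℕ), n ≤ L → g n = ∑ k ∈ range (L + 1), (n.choose k : ℤ_[p]) * (fwdDiff 1)^[k] g 0 := by
    intro L n hnL
    have h := shift_eq_sum_fwdDiff_iter (1 : ℕ) g n 0
    simp only [smul_eq_mul, mul_one, zero_add, nsmul_eq_mul] at h
    rw [h]
    apply Finset.sum_subset
    · intro k hk
      rw [Finset.mem_range] at hk ⊢
      omega
    · intro k _ hk
      rw [Finset.mem_range, not_lt] at hk
      rw [Nat.choose_eq_zero_of_lt (by omega)]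
      simp
  have hcong : ∀ (K n : ℕ), (p : ℤ_[p]) ^ (K + 1) ∣ g n - (P K).eval (n : ℤ_[p]) := by
    intro K n
    rw [hPeval, hgeval (max n K) n (le_max_left _ _)]
    have hsub : range (K + 1) ⊆ range (max n K + 1) := by
      intro k hk
      rw [Finset.mem_range] at hk ⊢
      have := le_max_right n K
      omega
    rw [← Finset.sum_sdiff hsub, add_sub_cancel_right]
    apply Finset.dvd_sum
    intro k hk
    rw [Finset.mem_sdiff, Finset.mem_range, Finset.mem_range] at hk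
    refine Dvd.dvd.mul_left ((pow_dvd_pow _ ?_).trans (hg k 0)) _
    omega
  -- the polynomials stabilise modulo p ^ M
  have hstab : ∀ K, 2 * M ≤ K → (C (p : ℤ_[p])) ^ M ∣ P K - P (2 * M) := by
    intro K hK
    have hsub : range (2 * M + 1) ⊆ range (K + 1) := by
      intro k hk
      rw [Finset.mem_range] at hk ⊢
      omega
    simp only [P]
    rw [← Finset.sum_sdiff hsub, add_sub_cancel_right]
    apply Finset.dvd_sum
    intro k hk
    rw [Finset.mem_sdiff, Finset.mem_range, Finset.mem_range] at hk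
    have h1 : (p : ℤ_[p]) ^ M ∣ q k := hqM k M (by omega)
    obtain ⟨w, hw⟩ := h1
    refine Dvd.dvd.mul_right ?_ _
    rw [hw]
    refine ⟨C (c k * w), ?_⟩
    simp only [← C_pow, ← C_mul]
    congr 1
    ring
  have hPne : ¬ (C (p : ℤ_[p])) ^ M ∣ P (2 * M) := by
    intro hd
    apply hM
    have h1 : (p : ℤ_[p]) ^ M ∣ (P (2 * M)).eval (n₀ : ℤ_[p]) := coeff_dvd_trans hd
    have h2 := hcong (2 * M) n₀
    have h3 : (p : ℤ_[p]) ^ M ∣ g n₀ - (P (2 * M)).eval (n₀ : ℤ_[p]) :=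
      (pow_dvd_pow _ (by omega)).trans h2
    have := dvd_add h3 h1
    simpa using this
  -- extract the content
  obtain ⟨β, hβ1, hβ2⟩ : ∃ β, (C (p : ℤ_[p])) ^ β ∣ P (2 * M) ∧
      ¬ (C (p : ℤ_[p])) ^ (β + 1) ∣ P (2 * M) := by
    by_contra hcon
    push Not at hcon
    have : ∀ m, (C (p : ℤ_[p])) ^ m ∣ P (2 * M) := by
      intro m
      induction m with
      | zero => simp
      | succ m ih => exact hcon m ih
    exact hPne (this M)
  have hβM : β < M := by
    by_contra hcon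
    push Not at hcon
    exact hPne ((pow_dvd_pow _ hcon).trans hβ1)
  obtain ⟨Q, hQ⟩ := hβ1
  have hQne : Q.map PadicInt.toZMod ≠ 0 := by
    intro h0
    apply hβ2
    have h1 : (C (p : ℤ_[p])) ∣ Q := by
      rw [Polynomial.C_dvd_iff_dvd_coeff]
      intro i
      rw [← toZMod_eq_zero_iff, ← Polynomial.coeff_map, h0, Polynomial.coeff_zero]
    obtain ⟨Q', rfl⟩ := h1
    refine ⟨Q', ?_⟩
    rw [hQ, pow_succ, mul_assoc]
  have hQdeg : (Q.map (PadicInt.toZMod (p := p))).natDegree ≤ 2 * M := by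
    refine Polynomial.natDegree_map_le.trans ?_
    have hp0 : (p : ℤ_[p]) ^ β ≠ 0 := pow_ne_zero _ (padic_prime (p := p)).ne_zero
    have h1 : (P (2 * M)).natDegree = Q.natDegree := by
      rw [hQ, ← C_pow, Polynomial.natDegree_C_mul hp0]
    rw [← h1]
    exact hPdeg _
  refine ⟨(Q.map PadicInt.toZMod).natDegree, β, hQdeg, ?_⟩
  intro E δ T hT hdiv hdist
  obtain ⟨W, hW⟩ := hstab (max (2 * M) E) (le_max_left _ _)
  set K := max (2 * M) E with hK
  have hPK : P K = (C (p : ℤ_[p])) ^ β * (Q + (C (p : ℤ_[p])) ^ (M - β) * W) := by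
    have h1 : P K = P (2 * M) + (C (p : ℤ_[p])) ^ M * W := by rw [← hW]; ring
    rw [h1, hQ, mul_add, ← mul_assoc, ← pow_add, Nat.add_sub_cancel' hβM.le]
  set Q' := Q + (C (p : ℤ_[p])) ^ (M - β) * W with hQ'
  have hmapQ' : Q'.map PadicInt.toZMod = Q.map PadicInt.toZMod := by
    have h0 : (C (p : ℤ_[p])).map PadicInt.toZMod = 0 := by
      rw [Polynomial.map_C, (toZMod_eq_zero_iff _).mpr dvd_rfl, C_0]
    rw [hQ', Polynomial.map_add, Polynomial.map_mul, Polynomial.map_pow, h0,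
      zero_pow (by omega), zero_mul, add_zero]
  have hdivQ : ∀ n ∈ T, (p : ℤ_[p]) ^ (E - β) ∣ Q'.eval (n : ℤ_[p]) := by
    intro n hn
    have h1 : (p : ℤ_[p]) ^ E ∣ (P K).eval (n : ℤ_[p]) := by
      have h2 := hdiv n hn
      have h3 : (p : ℤ_[p]) ^ E ∣ g n - (P K).eval (n : ℤ_[p]) := by
        refine (pow_dvd_pow _ ?_).trans (hcong K n)
        have := le_max_right (2 * M) E
        omega
      have := dvd_sub h2 h3
      simpa using this
    rw [hPK, Polynomial.eval_mul, Polynomial.eval_pow, Polynomial.eval_C] at h1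
    by_cases hEβ : E ≤ β
    · rw [Nat.sub_eq_zero_of_le hEβ]
      simp
    · push Not at hEβ
      have h4 : (p : ℤ_[p]) ^ E = (p : ℤ_[p]) ^ β * (p : ℤ_[p]) ^ (E - β) := by
        rw [← pow_add, Nat.add_sub_cancel' hEβ.le]
      rw [h4] at h1
      exact (mul_dvd_mul_iff_left (pow_ne_zero _ (padic_prime (p := p)).ne_zero)).mp h1
  have := poly_zeros (Q.map PadicInt.toZMod).natDegree Q' (E - β) δ T (by rw [hmapQ']; exact hQne)
    (by rw [hmapQ']) hT hdivQ hdist
  omega

/-- an analytic sequence with a value which is not divisible by `p ^ M` has at most `2 M` zeros -/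
theorem zero_bound (hp3 : 3 ≤ p) {g : ℕ → ℤ_[p]} (hg : An p g) {n₀ M : ℕ}
    (hM : ¬ (p : ℤ_[p]) ^ M ∣ g n₀) : {n | g n = 0}.encard ≤ (2 * M : ℕ) := by
  obtain ⟨s, β, hs, h⟩ := zero_estimate' hp3 hg hM
  by_contra hcon
  push Not at hcon
  obtain ⟨T', hT', hcard'⟩ : ∃ T' : Set ℕ, T' ⊆ {n | g n = 0} ∧ T'.encard = (2 * M + 1 : ℕ) := by
    refine Set.exists_subset_encard_eq ?_
    have := Order.add_one_le_of_lt hcon
    exact_mod_cast this
  have hfin : T'.Finite := Set.finite_of_encard_eq_coe hcard'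
  set T := hfin.toFinset with hTdef
  have hcard : T.card = 2 * M + 1 := by
    have h1 := hfin.encard_eq_coe_toFinset_card
    rw [hcard'] at h1
    exact_mod_cast h1.symm
  have hT : ∀ n ∈ T, g n = 0 := fun n hn => hT' (hfin.mem_toFinset.1 hn)
  obtain ⟨δ, hδ⟩ : ∃ δ, ∀ n ∈ T, n ≤ δ := ⟨T.sup id, fun n hn => Finset.le_sup (f := id) hn⟩
  have h1 := h (β + s * δ + 1) δ T (by omega) (fun n hn => by
    rw [hT n hn]
    exact dvd_zero _) (by
    intro k hk m hm hkm hd
    have h2 : ((p : ℤ) ^ (δ + 1)) ∣ ((k : ℤ) - m) := by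
      have := (PadicInt.pow_p_dvd_int_iff (p := p) (δ + 1) ((k : ℤ) - m)).mp
        (by push_cast; exact hd)
      exact_mod_cast this
    have h3 : (δ + 1 : ℤ) ≤ (p : ℤ) ^ (δ + 1) := by
      have h4 : δ + 1 < p ^ (δ + 1) := Nat.lt_pow_self hp.out.one_lt
      exact_mod_cast h4.le
    have h5 : |(k : ℤ) - m| < (p : ℤ) ^ (δ + 1) := by
      have e1 : (k : ℤ) ≤ δ := by exact_mod_cast hδ k hk
      have e2 : (m : ℤ) ≤ δ := by exact_mod_cast hδ m hm
      rw [abs_lt]
      constructor <;> omega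
    have h6 := Int.eq_zero_of_abs_lt_dvd h2 h5
    apply hkm
    omega)
  omega

theorem dvd_of_norm_le {x y : ℤ_[p]} (hy : y ≠ 0) (h : ‖x‖ ≤ ‖y‖) : y ∣ x := by
  have hy' : (y : ℚ_[p]) ≠ 0 := fun h0 => hy (Subtype.ext h0)
  have hpos : 0 < ‖(y : ℚ_[p])‖ := norm_pos_iff.2 hy'
  refine ⟨⟨(x : ℚ_[p]) / y, ?_⟩, ?_⟩
  · rw [norm_div, div_le_one hpos]
    exact h
  · exact Subtype.ext (mul_div_cancel₀ _ hy').symm

end zeros

section noeth

variable {p : ℕ} [hp : Fact p.Prime]

theorem map_fwdDiff {R S : Type*} [CommRing R] [CommRing S] (σ : R →+* S) (g : ℕ → R) (k n : ℕ) :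
    σ ((fwdDiff 1)^[k] g n) = (fwdDiff 1)^[k] (fun m => σ (g m)) n := by
  induction k generalizing n with
  | zero => rfl
  | succ k ih =>
    rw [Function.iterate_succ_apply', Function.iterate_succ_apply']
    simp only [fwdDiff]
    rw [map_sub, ih, ih]

/-- **Uniform bound for the number of zeros** of the specialisations of an analytic sequence with
values in a Noetherian ring. -/
theorem unif_zeros (hp3 : 3 ≤ p) {R : Type*} [CommRing R] [IsNoetherianRing R] (g : ℕ → R)
    (hg : An p g) : ∃ C : ℕ, ∀ σ : R →+* ℤ_[p],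
      {k | σ (g k) = 0}.encard ≤ C ∨ ∀ k, σ (g k) = 0 := by
  classical
  choose a ha using fun j => hg j 0
  -- Noetherianity
  obtain ⟨M, hM⟩ : ∃ M, ∀ j, a j ∈ Ideal.span (a '' {i | i ≤ M}) := by
    let f : ℕ →o Ideal R := ⟨fun M => Ideal.span (a '' {i | i ≤ M}), fun M M' h =>
      Ideal.span_mono (Set.image_mono fun i hi => le_trans hi h)⟩
    obtain ⟨M, hM⟩ := monotone_stabilizes_iff_noetherian.2 (inferInstance : IsNoetherian R R) f
    refine ⟨M, fun j => ?_⟩
    have h1 : f M = f (max M j) := hM _ (le_max_left _ _)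
    have h3 : j ∈ {i | i ≤ max M j} := le_max_right M j
    have h2 : a j ∈ f (max M j) := Ideal.subset_span ⟨j, h3, rfl⟩
    rw [← h1] at h2
    exact h2
  refine ⟨2 * (M + 1), fun σ => ?_⟩
  -- Newton
  have hnewton : ∀ (f : ℕ → ℤ_[p]) (n : ℕ),
      f n = ∑ j ∈ range (n + 1), (n.choose j : ℤ_[p]) * (fwdDiff 1)^[j] f 0 := by
    intro f n
    have h := shift_eq_sum_fwdDiff_iter (1 : ℕ) f n 0
    simp only [smul_eq_mul, mul_one, zero_add, nsmul_eq_mul] at h
    exact h
  have hσ : ∀ n, σ (g n) = ∑ j ∈ range (n + 1), (n.choose j : ℤ_[p]) *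
      ((p : ℤ_[p]) ^ j * σ (a j)) := by
    intro n
    rw [hnewton (fun m => σ (g m)) n]
    refine Finset.sum_congr rfl fun j _ => ?_
    rw [← map_fwdDiff, ha, map_mul, map_pow, map_natCast]
  by_cases hall : ∀ i ≤ M, σ (a i) = 0
  · right
    have h1 : ∀ j, σ (a j) = 0 := by
      intro j
      have h2 : Ideal.span (a '' {i | i ≤ M}) ≤ RingHom.ker σ := by
        rw [Ideal.span_le]
        rintro _ ⟨i, hi, rfl⟩
        exact hall i hi
      exact h2 (hM j)
    intro n
    rw [hσ]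
    refine Finset.sum_eq_zero fun j _ => ?_
    rw [h1, mul_zero, mul_zero]
  left
  push Not at hall
  obtain ⟨i₀, hi₀, hmax⟩ := Finset.exists_max_image (Finset.range (M + 1)) (fun i => ‖σ (a i)‖)
    ⟨0, Finset.mem_range.2 (Nat.succ_pos M)⟩
  rw [Finset.mem_range] at hi₀
  have hb : σ (a i₀) ≠ 0 := by
    obtain ⟨i, hi, hne⟩ := hall
    intro h0
    have h1 := hmax i (Finset.mem_range.2 (by omega))
    rw [h0, norm_zero] at h1
    exact hne (norm_le_zero_iff.1 h1)
  set b := σ (a i₀) with hbdef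
  have hdiv : ∀ j, b ∣ σ (a j) := by
    intro j
    have h2 : Ideal.span (a '' {i | i ≤ M}) ≤ (Ideal.span {b}).comap σ := by
      rw [Ideal.span_le]
      rintro _ ⟨i, hi, rfl⟩
      rw [SetLike.mem_coe, Ideal.mem_comap, Ideal.mem_span_singleton]
      have hi' : i ≤ M := hi
      exact dvd_of_norm_le hb (hmax i (Finset.mem_range.2 (by omega)))
    have h3 := h2 (hM j)
    rwa [Ideal.mem_comap, Ideal.mem_span_singleton] at h3
  choose a' ha' using hdiv
  have hg' : ∀ n, ∃ z, σ (g n) = b * z := by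
    intro n
    refine ⟨∑ j ∈ range (n + 1), (n.choose j : ℤ_[p]) * ((p : ℤ_[p]) ^ j * a' j), ?_⟩
    rw [hσ, Finset.mul_sum]
    refine Finset.sum_congr rfl fun j _ => ?_
    rw [ha']
    ring
  choose g' hg' using hg'
  have hfd : ∀ k n, (fwdDiff 1)^[k] (fun m => σ (g m)) n = b * (fwdDiff 1)^[k] g' n := by
    intro k
    induction k with
    | zero => exact hg'
    | succ k ih =>
      intro n
      rw [Function.iterate_succ_apply', Function.iterate_succ_apply']
      simp only [fwdDiff]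
      rw [ih, ih, mul_sub]
  have hcoef : ∀ j, (fwdDiff 1)^[j] g' 0 = (p : ℤ_[p]) ^ j * a' j := by
    intro j
    refine mul_left_cancel₀ hb ?_
    rw [← hfd, ← map_fwdDiff, ha, map_mul, map_pow, map_natCast, ha']
    ring
  have hAn : An p g' := by
    intro k n
    have h1 := hnewton ((fwdDiff 1)^[k] g') n
    rw [h1]
    refine Finset.dvd_sum fun j _ => Dvd.dvd.mul_left ?_ _
    rw [← Function.iterate_add_apply, hcoef]
    exact Dvd.dvd.mul_right (pow_dvd_pow _ (Nat.le_add_left k j)) _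
  have ha'1 : a' i₀ = 1 := by
    refine mul_left_cancel₀ hb ?_
    rw [← ha', mul_one]
  obtain ⟨n₀, hn₀⟩ : ∃ n₀, ¬ (p : ℤ_[p]) ^ (M + 1) ∣ g' n₀ := by
    by_contra hcon
    push Not at hcon
    have h1 : (p : ℤ_[p]) ^ (M + 1) ∣ (fwdDiff 1)^[i₀] g' 0 := by
      rw [fwdDiff_iter_eq_sum_shift]
      refine Finset.dvd_sum fun k _ => ?_
      rw [zsmul_eq_mul]
      exact Dvd.dvd.mul_left (hcon _) _
    rw [hcoef, ha'1, mul_one] at h1
    have h2 := (pow_dvd_pow_iff (padic_prime (p := p)).ne_zero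
      (padic_prime (p := p)).not_unit).1 h1
    omega
  have h5 := zero_bound hp3 hAn hn₀
  refine le_trans (Set.encard_le_encard ?_) h5
  intro k hk
  have h6 : σ (g k) = 0 := hk
  rw [hg'] at h6
  exact (mul_eq_zero.1 h6).resolve_left hb

end noeth

end Pool.Agent.Helper87.LD
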