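import Pool.Agent.Helper87.LD.Local
import Pool.Agent.Helper87.LD.Zer

/-!
# LD: the dichotomy with a uniform bound for the number of zeros
-/

set_option autoImplicit false

namespace Pool.Agent.Helper87.LD

open MvPolynomial Pool.Agent.Helper86.DML Pool.Agent.Helper26.FD

section

variable {p : ℕ} [hp : Fact p.Prime] {n : ℕ}

theorem eval_hom {R S : Type*} [CommRing R] [CommRing S] (σ : R →+* S)
    (P : MvPolynomial (Fin n) R) (z : Fin n → R) :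
    σ (eval z P) = eval (fun i => σ (z i)) (map σ P) := by
  rw [eval_map, eval₂_comp]
  rfl

/-- one residue disc -/
theorem unif_disc (hp3 : 3 ≤ p) {Φ : Fin n → MvPolynomial (Fin n) ℤ_[p]} {x₀ : Fin n → ℤ_[p]}
    {L : ℕ} {u : Fin n → MvPolynomial (Fin n) ℤ_[p]}
    (h : ∀ i, zoom x₀ (p : ℤ_[p]) (((bind₁ Φ) ^ L) (X i)) =
      C (x₀ i) + C (p : ℤ_[p]) * (X i + C (p : ℤ_[p]) * u i)) (S : Finset (Fin n →₀ ℕ)) :
    ∃ K : ℕ, ∀ (y : Fin n → ℤ_[p]) (G : MvPolynomial (Fin n) ℤ_[p]), G.support ⊆ S →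
      {k | eval ((pmap Φ)^[L * k] (fun i => x₀ i + p * y i)) G = 0}.encard ≤ K ∨
        ∀ k, eval ((pmap Φ)^[L * k] (fun i => x₀ i + p * y i)) G = 0 := by
  classical
  let R := MvPolynomial (Fin n ⊕ S) ℤ_[p]
  let gG : MvPolynomial (Fin n) R := ∑ s : S, monomial s.1 (X (Sum.inr s))
  have hAn := interp_An (C : ℤ_[p] →+* R) h (fun i => X (Sum.inl i)) gG
  obtain ⟨K, hK⟩ := unif_zeros hp3 _ hAn
  refine ⟨K, fun y G hG => ?_⟩
  let σ : R →+* ℤ_[p] := eval (Sum.elim y fun s => coeff s.1 G)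
  have e1 : ∀ z : ℤ_[p], σ ((C : ℤ_[p] →+* R) z) = z := fun z => eval_C z
  have e2 : ∀ t, σ (X t) = Sum.elim y (fun s : S => coeff s.1 G) t := fun t => eval_X t
  have hσC : σ.comp (C : ℤ_[p] →+* R) = RingHom.id ℤ_[p] := RingHom.ext fun z => e1 z
  have hσG : map σ gG = G := by
    simp only [gG, map_sum, map_monomial]
    have h1 : ∀ s : S, σ (X (Sum.inr s)) = coeff s.1 G := fun s => e2 (Sum.inr s)
    simp only [h1]
    rw [Finset.sum_coe_sort S (fun s => monomial s (coeff s G))]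
    conv_rhs => rw [G.as_sum]
    symm
    refine Finset.sum_subset hG fun s _ hs => ?_
    rw [notMem_support_iff.1 hs, map_zero]
  have hval : ∀ k, σ (eval ((pmap (fun i => map (C : ℤ_[p] →+* R) (Φ i)))^[L * k]
      (fun i => (C : ℤ_[p] →+* R) (x₀ i) + (p : R) * X (Sum.inl i))) gG) =
      eval ((pmap Φ)^[L * k] (fun i => x₀ i + p * y i)) G := by
    intro k
    rw [eval_hom, hσG]
    congr 2
    have h1 := pmap_map_iterate σ (fun i => map (C : ℤ_[p] →+* R) (Φ i)) (L * k)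
      (fun i => (C : ℤ_[p] →+* R) (x₀ i) + (p : R) * X (Sum.inl i))
    rw [← h1]
    have h2 : (fun i => map σ (map (C : ℤ_[p] →+* R) (Φ i))) = Φ := by
      funext i
      rw [map_map, hσC, map_id]
    have h3 : (fun i => σ ((C : ℤ_[p] →+* R) (x₀ i) + (p : R) * X (Sum.inl i))) =
        fun i => x₀ i + p * y i := by
      funext i
      rw [map_add, map_mul, map_natCast, e1, e2]
      rfl
    rw [h2, h3]
  have h4 := hK σ
  simp only [hval] at h4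
  exact h4

theorem encard_mul_le {Z : Set ℕ} {m : ℕ} (hm : 1 ≤ m) {K : ℕ∞} (h : Z.encard ≤ K) :
    {k | m * k ∈ Z}.encard ≤ K := by
  have hinj : Function.Injective (fun k => m * k) := fun a b hab =>
    Nat.eq_of_mul_eq_mul_left hm hab
  have h1 : ((fun k => m * k) '' {k | m * k ∈ Z}).encard = {k | m * k ∈ Z}.encard :=
    hinj.encard_image _
  rw [← h1]
  refine (Set.encard_le_encard ?_).trans h
  rintro _ ⟨k, hk, rfl⟩
  exact hk

/-- the dichotomy with a bound for the number of zeros which does not depend on the orbit -/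
theorem dich_count (hp3 : 3 ≤ p) (Φ : Fin n → MvPolynomial (Fin n) ℤ_[p])
    (S : Finset (Fin n →₀ ℕ)) :
    ∃ K : ℕ, ∀ x : ℕ → Fin n → ℤ_[p], (∀ k, x (k + 1) = pmap Φ (x k)) →
      (∀ i ℓ, 1 ≤ ℓ → (∀ j, (p : ℤ_[p]) ∣ x (i + ℓ) j - x i j) →
        IsUnit (Matrix.of fun a b => eval (x i) (pderiv b (Φ a))).det) →
      ∀ G : MvPolynomial (Fin n) ℤ_[p], G.support ⊆ S → ∀ r : ℕ,
      {k | eval (x (nres n p ℤ_[p] + r + per n p ℤ_[p] * k)) G = 0}.encard ≤ K ∨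
        ∀ k, eval (x (nres n p ℤ_[p] + r + per n p ℤ_[p] * k)) G = 0 := by
  classical
  have hfinq := finite_quotient (p := p) (O := ℤ_[p])
  set M := expo (Fin n) (ℤ_[p] ⧸ Ideal.span {(p : ℤ_[p])}) with hMdef
  let cls : (Fin n → ℤ_[p]) → (Fin n → ℤ_[p] ⧸ Ideal.span {(p : ℤ_[p])}) := fun z i =>
    Ideal.Quotient.mk _ (z i)
  -- the bound for one class
  have hcls : ∀ c : Fin n → ℤ_[p] ⧸ Ideal.span {(p : ℤ_[p])}, ∃ K : ℕ,
      (∃ (x₀ : Fin n → ℤ_[p]) (ℓ : ℕ) (u : Fin n → MvPolynomial (Fin n) ℤ_[p]), cls x₀ = c ∧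
        1 ≤ ℓ ∧ ℓ ∣ (nres n p ℤ_[p]).factorial ∧ ∀ i, zoom x₀ (p : ℤ_[p])
          (((bind₁ Φ) ^ (ℓ * M)) (X i)) =
            C (x₀ i) + C (p : ℤ_[p]) * (X i + C (p : ℤ_[p]) * u i)) →
      ∃ (x₀ : Fin n → ℤ_[p]) (ℓ : ℕ), cls x₀ = c ∧
        1 ≤ ℓ ∧ ℓ ∣ (nres n p ℤ_[p]).factorial ∧ ∀ (y : Fin n → ℤ_[p])
          (G : MvPolynomial (Fin n) ℤ_[p]), G.support ⊆ S →
          {k | eval ((pmap Φ)^[ℓ * M * k] (fun i => x₀ i + p * y i)) G = 0}.encard ≤ K ∨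
            ∀ k, eval ((pmap Φ)^[ℓ * M * k] (fun i => x₀ i + p * y i)) G = 0 := by
    intro c
    by_cases hex : ∃ (x₀ : Fin n → ℤ_[p]) (ℓ : ℕ) (u : Fin n → MvPolynomial (Fin n) ℤ_[p]),
        cls x₀ = c ∧ 1 ≤ ℓ ∧ ℓ ∣ (nres n p ℤ_[p]).factorial ∧ ∀ i, zoom x₀ (p : ℤ_[p])
          (((bind₁ Φ) ^ (ℓ * M)) (X i)) =
            C (x₀ i) + C (p : ℤ_[p]) * (X i + C (p : ℤ_[p]) * u i)
    · obtain ⟨x₀, ℓ, u, h1, h2, h3, h4⟩ := hex
      obtain ⟨K, hK⟩ := unif_disc hp3 h4 S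
      exact ⟨K, fun _ => ⟨x₀, ℓ, h1, h2, h3, hK⟩⟩
    · exact ⟨0, fun h => absurd h hex⟩
  choose K hK using hcls
  haveI := Fintype.ofFinite (Fin n → ℤ_[p] ⧸ Ideal.span {(p : ℤ_[p])})
  refine ⟨∑ c, K c, fun x hx hdet G hG r => ?_⟩
  -- preperiodicity modulo `p`
  obtain ⟨n₀, ℓ, hℓ, hle, hper⟩ : ∃ n₀ ℓ, 1 ≤ ℓ ∧ n₀ + ℓ ≤ nres n p ℤ_[p] ∧
      ∀ i, (p : ℤ_[p]) ∣ x (n₀ + ℓ) i - x n₀ i := by
    obtain ⟨i, j, hij, hj, h⟩ := exists_coincidence
      (fun (k : ℕ) => (fun i => Ideal.Quotient.mk (Ideal.span {(p : ℤ_[p])}) (x k i)))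
    obtain ⟨d, rfl⟩ := Nat.exists_eq_add_of_lt hij
    refine ⟨i, d + 1, by omega, hj, fun k => ?_⟩
    have h1 := congrFun h k
    rw [eq_comm, Ideal.Quotient.eq, Ideal.mem_span_singleton] at h1
    exact h1
  have hper1 : ∀ m i, (p : ℤ_[p]) ∣ x (n₀ + m + ℓ) i - x (n₀ + m) i := by
    intro m
    induction m with
    | zero => exact hper
    | succ m ih =>
      intro i
      have h1 := eval_congr_mod ih (Φ i)
      have h2 : x (n₀ + (m + 1) + ℓ) i = eval (x (n₀ + m + ℓ)) (Φ i) := by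
        have := congrFun (hx (n₀ + m + ℓ)) i
        have h3 : n₀ + (m + 1) + ℓ = n₀ + m + ℓ + 1 := by ring
        rw [h3, this]
        rfl
      have h4 : x (n₀ + (m + 1)) i = eval (x (n₀ + m)) (Φ i) := congrFun (hx (n₀ + m)) i
      rw [h2, h4]
      exact h1
  set s := nres n p ℤ_[p] + r with hs
  obtain ⟨s', hs'⟩ : ∃ s', s = n₀ + s' := ⟨s - n₀, by omega⟩
  obtain ⟨u, hu⟩ := interp_unif (p := p) Φ (fun k => x (s + k)) (fun k => hx (s + k))
    (ℓ := ℓ) (fun i => by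
      have := hper1 s' i
      rwa [← hs'] at this) (fun k => hdet (s + k) ℓ hℓ (fun i => by
        have h1 := hper1 (s' + k) i
        have h3 : n₀ + (s' + k) = s + k := by omega
        rwa [h3] at h1))
  obtain ⟨x₀, ℓ', hcl, hℓ', hdvd, hbd⟩ := hK (cls (x s)) ⟨x s, ℓ, u, rfl, hℓ,
    Nat.dvd_factorial (by omega) (by omega), hu⟩
  have hy : ∀ i, ∃ y, x s i = x₀ i + (p : ℤ_[p]) * y := by
    intro i
    have h1 := congrFun hcl i
    rw [eq_comm, Ideal.Quotient.eq, Ideal.mem_span_singleton] at h1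
    obtain ⟨y, hy⟩ := h1
    exact ⟨y, by rw [← hy]; ring⟩
  choose y hy using hy
  have hseq : ∀ k, (pmap Φ)^[ℓ' * M * k] (fun i => x₀ i + (p : ℤ_[p]) * y i) =
      x (s + ℓ' * M * k) := by
    intro k
    have h1 : (fun i => x₀ i + (p : ℤ_[p]) * y i) = x s := funext fun i => (hy i).symm
    rw [h1, seq_iter hx]
  have h2 := hbd y G hG
  simp only [hseq] at h2
  obtain ⟨m, hm⟩ := hdvd
  have hm1 : 1 ≤ m := by
    by_contra hcon
    have h0 : m = 0 := by omega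
    rw [h0, mul_zero] at hm
    exact absurd hm (Nat.factorial_pos _).ne'
  have h5 : ∀ k, s + per n p ℤ_[p] * k = s + ℓ' * M * (m * k) := by
    intro k
    rw [per, hm, ← hMdef]
    ring
  simp only [h5]
  rcases h2 with h2 | h2
  · left
    have h6 : ((K (cls (x s)) : ℕ) : ℕ∞) ≤ ((∑ c, K c : ℕ) : ℕ∞) := by
      exact_mod_cast Finset.single_le_sum (f := K) (fun _ _ => Nat.zero_le _)
        (Finset.mem_univ (cls (x s)))
    exact (encard_mul_le hm1 h2).trans h6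
  · right
    exact fun k => h2 (m * k)

end

end Pool.Agent.Helper87.LD
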