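import Mathlib
import Pool.Agent.Helper26.FD.Defs

/-!
# LD: almost all endomorphisms of the plane and of 3-space. Shared definitions
-/

set_option autoImplicit false

namespace Pool.Agent.Helper87.LD

open MvPolynomial

noncomputable section

/-- the exponents of degree `d` in `n` variables -/
def ex (n d : ℕ) : Finset (Fin n →₀ ℕ) :=
  (Finset.univ : Finset (Fin n)).finsuppAntidiag d

theorem mem_ex {n d : ℕ} {s : Fin n →₀ ℕ} : s ∈ ex n d ↔ ∑ i, s i = d := by
  simp [ex, Finset.mem_finsuppAntidiag]

/-- the coefficients of a tuple of `n` forms of degree `d` in `n` variables -/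
abbrev Idx (n d : ℕ) : Type := Fin n × {s : Fin n →₀ ℕ // s ∈ ex n d}

/-- the tuple of forms with the coefficients `c` -/
def form {n d : ℕ} {R : Type*} [CommRing R] (c : Idx n d → R) (i : Fin n) :
    MvPolynomial (Fin n) R :=
  ∑ s : {s : Fin n →₀ ℕ // s ∈ ex n d}, monomial s.1 (c (i, s))

theorem form_isHomogeneous {n d : ℕ} {R : Type*} [CommRing R] (c : Idx n d → R) (i : Fin n) :
    (form c i).IsHomogeneous d := by
  refine IsHomogeneous.sum _ _ _ fun s _ => ?_
  refine isHomogeneous_monomial _ ?_
  rw [Finsupp.degree_eq_sum]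
  exact mem_ex.1 s.2

theorem map_form {n d : ℕ} {R S : Type*} [CommRing R] [CommRing S] (φ : R →+* S)
    (c : Idx n d → R) (i : Fin n) : MvPolynomial.map φ (form c i) = form (fun j => φ (c j)) i := by
  simp only [form, map_sum, map_monomial]

section local_def

variable {n : ℕ} {k : Type*} [Field k]

/-- the self-map of `k ^ n` given by `F` -/
def ev (F : Fin n → MvPolynomial (Fin n) k) (x : Fin n → k) : Fin n → k := fun i => eval x (F i)

/-- the Jacobian matrix of `F` at `x` -/
def jac (F : Fin n → MvPolynomial (Fin n) k) (x : Fin n → k) : Matrix (Fin n) (Fin n) k :=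
  Matrix.of fun i j => eval x (pderiv j (F i))

/-- `W` induces an injection `k ^ n / x → k ^ n / v` -/
def Etale (x v : Fin n → k) (W : Matrix (Fin n) (Fin n) k) : Prop :=
  ∀ y : Fin n → k, (∃ t : k, W.mulVec y = t • v) → ∃ t : k, y = t • x

/-- the point `x` of projective space is periodic for `F` -/
def PPer (F : Fin n → MvPolynomial (Fin n) k) (x : Fin n → k) : Prop :=
  ∃ m : ℕ, 1 ≤ m ∧ ∃ t : k, t ≠ 0 ∧ (ev F)^[m] x = t • x

/-- `F` is defined at all `k`-rational points of projective space and unramified at the periodic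
ones -/
def Good (F : Fin n → MvPolynomial (Fin n) k) : Prop :=
  ∀ x : Fin n → k, x ≠ 0 → ev F x ≠ 0 ∧ (PPer F x → Etale x (ev F x) (jac F x))

end local_def

end

end Pool.Agent.Helper87.LD
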