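import Pool.Agent.Helper87.LD.Defs
import Pool.Agent.Helper87.LD.Unif
import Pool.Agent.Helper26.FD.Cpx

/-!
# LD, block P: dynamical Mordell-Lang at a good prime
-/

set_option autoImplicit false

namespace Pool.Agent.Helper87.LD

open MvPolynomial
open Pool.Agent.Helper26.FD (eval_smul_hom')
open Pool.Agent.Helper86.DML (pmap)

variable {n d p : ℕ}

/-- a form without zeros over `ZMod p` -/
theorem exists_aniso [Fact p.Prime] (hp : 3 ≤ p) (n : ℕ) :
    ∃ (e : ℕ) (g : MvPolynomial (Fin n) ℤ), ¬ p ∣ e ∧ g.IsHomogeneous e ∧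
      ∀ x : Fin n → ZMod p, x ≠ 0 → aeval x g ≠ 0 := by
  have hpp : p.Prime := Fact.out
  obtain ⟨r, hr⟩ := FiniteField.exists_nonsquare (F := ZMod p) (by
    rw [ZMod.ringChar_zmod_n]; omega)
  induction n with
  | zero =>
    refine ⟨1, 0, ?_, isHomogeneous_zero _ _ _, fun x hx => absurd (Subsingleton.elim x 0) hx⟩
    rw [Nat.dvd_one]; omega
  | succ n ih =>
    obtain ⟨e, g, he, hg, hgx⟩ := ih
    have he0 : e ≠ 0 := by rintro rfl; exact he (dvd_zero p)
    refine ⟨2 * e, (rename Fin.succ g) ^ 2 - C (r.val : ℤ) * (X 0 ^ e) ^ 2, ?_, ?_, ?_⟩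
    · intro h
      rcases hpp.dvd_mul.1 h with h1 | h1
      · have := Nat.le_of_dvd (by norm_num) h1; omega
      · exact he h1
    · refine IsHomogeneous.sub ?_ ?_
      · rw [mul_comm]; exact (hg.rename_isHomogeneous).pow 2
      · have h1 : (C (r.val : ℤ) * (X 0 ^ e) ^ 2 : MvPolynomial (Fin (n + 1)) ℤ).IsHomogeneous
            (0 + 1 * e * 2) :=
          (isHomogeneous_C _ _).mul (((isHomogeneous_X _ _).pow e).pow 2)
        have h2 : 0 + 1 * e * 2 = 2 * e := by ring
        rwa [h2] at h1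
    · intro x hx h0
      have h1 : aeval x ((rename Fin.succ g) ^ 2 - C (r.val : ℤ) * (X 0 ^ e) ^ 2) =
          (aeval (fun i => x (Fin.succ i)) g) ^ 2 - r * (x 0 ^ e) ^ 2 := by
        rw [map_sub, map_mul, map_pow, map_pow, map_pow, aeval_rename, aeval_C, aeval_X]
        simp [Function.comp_def]
      rw [h1, sub_eq_zero] at h0
      by_cases hx0 : x 0 = 0
      · rw [hx0, zero_pow he0] at h0
        have h2 : (fun i => x (Fin.succ i)) ≠ 0 := by
          intro h3
          apply hx
          funext i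
          refine Fin.cases hx0 (fun j => congrFun h3 j) i
        refine hgx _ h2 ?_
        have h3 : (aeval (fun i => x (Fin.succ i)) g) ^ 2 = 0 := by rw [h0]; ring
        exact pow_eq_zero_iff (two_ne_zero) |>.1 h3
      · apply hr
        have h3 : x 0 ^ e ≠ 0 := pow_ne_zero _ hx0
        refine ⟨aeval (fun i => x (Fin.succ i)) g / x 0 ^ e, ?_⟩
        field_simp
        rw [h0]

/-- a form without zeros over `ZMod p` which makes the degree prime to `p` -/
theorem exists_mult [Fact p.Prime] (hp : 3 ≤ p) (n d : ℕ) :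
    ∃ (e : ℕ) (g : MvPolynomial (Fin n) ℤ), ¬ p ∣ e + d ∧ g.IsHomogeneous e ∧
      ∀ x : Fin n → ZMod p, x ≠ 0 → aeval x g ≠ 0 := by
  by_cases h : p ∣ d
  · obtain ⟨e, g, he, hg, hx⟩ := exists_aniso hp n
    exact ⟨e, g, fun h1 => he ((Nat.dvd_add_left h).1 h1), hg, hx⟩
  · refine ⟨0, 1, by rwa [zero_add], isHomogeneous_one _ _, fun x _ => ?_⟩
    rw [map_one]; exact one_ne_zero

section generic

variable {R S : Type*} [CommRing R] [CommRing S]

theorem pmap_map (σ : R →+* S) (F : Fin n → MvPolynomial (Fin n) R) (x : Fin n → R) :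
    pmap (fun i => map σ (F i)) (fun i => σ (x i)) = fun i => σ (pmap F x i) := by
  funext i
  rw [pmap, pmap, eval_map, eval₂_comp]
  rfl

theorem pmap_map_iterate (σ : R →+* S) (F : Fin n → MvPolynomial (Fin n) R) (k : ℕ)
    (x : Fin n → R) :
    (pmap fun i => map σ (F i))^[k] (fun i => σ (x i)) = fun i => σ ((pmap F)^[k] x i) := by
  induction k generalizing x with
  | zero => rfl
  | succ k ih => rw [Function.iterate_succ_apply, pmap_map, ih, Function.iterate_succ_apply]

theorem pmap_smul {F : Fin n → MvPolynomial (Fin n) R} (hF : ∀ i, (F i).IsHomogeneous d) (t : R)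
    (x : Fin n → R) : pmap F (fun i => t * x i) = fun i => t ^ d * pmap F x i :=
  funext fun i => eval_smul_hom' (hF i) t x

theorem pmap_smul_iterate {F : Fin n → MvPolynomial (Fin n) R}
    (hF : ∀ i, (F i).IsHomogeneous d) (m : ℕ) (t : R) (x : Fin n → R) :
    (pmap F)^[m] (fun i => t * x i) = fun i => t ^ d ^ m * (pmap F)^[m] x i := by
  induction m generalizing t x with
  | zero => simp
  | succ m ih =>
    rw [Function.iterate_succ_apply, pmap_smul hF, ih, Function.iterate_succ_apply]
    funext i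
    rw [← pow_mul, pow_succ']

/-- Euler's identity for the Jacobian -/
theorem jac_euler {e : ℕ} {F : Fin n → MvPolynomial (Fin n) R}
    (hF : ∀ i, (F i).IsHomogeneous e) (x : Fin n → R) :
    (Matrix.of fun i j => eval x (pderiv j (F i))).mulVec x = (e : R) • pmap F x := by
  funext i
  have h := congrArg (eval x) ((hF i).sum_X_mul_pderiv)
  rw [map_sum] at h
  simp only [Matrix.mulVec, dotProduct, Matrix.of_apply, Pi.smul_apply, pmap, smul_eq_mul]
  simp only [map_mul, eval_X, nsmul_eq_mul, map_natCast] at h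
  rw [← h]
  exact Finset.sum_congr rfl fun j _ => mul_comm _ _

/-- the iterates of `g F` are multiples of the iterates of `F` -/
theorem iterate_mult {F : Fin n → MvPolynomial (Fin n) R}
    (hF : ∀ i, (F i).IsHomogeneous d) (g : MvPolynomial (Fin n) R) (x : Fin n → R) :
    ∀ m : ℕ, ∃ t : R, (pmap fun i => g * F i)^[m] x = (fun i => t * (pmap F)^[m] x i) ∧
      ((∀ k < m, IsUnit (eval ((pmap fun i => g * F i)^[k] x) g)) → IsUnit t) := by
  intro m
  induction m with
  | zero => exact ⟨1, by funext i; simp, fun _ => isUnit_one⟩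
  | succ m ih =>
    obtain ⟨t, ht, hu⟩ := ih
    refine ⟨eval ((pmap fun i => g * F i)^[m] x) g * t ^ d, ?_, ?_⟩
    · rw [Function.iterate_succ_apply']
      funext i
      have h1 := congrFun (pmap_smul hF t ((pmap F)^[m] x)) i
      rw [← ht] at h1
      have h2 : pmap (fun i => g * F i) ((pmap fun i => g * F i)^[m] x) i =
          eval ((pmap fun i => g * F i)^[m] x) g *
            pmap F ((pmap fun i => g * F i)^[m] x) i := by
        simp only [pmap, map_mul]
      rw [h2, h1, Function.iterate_succ_apply']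
      ring
    · intro h
      exact (h m (Nat.lt_succ_self m)).mul
        ((hu fun k hk => h k (hk.trans (Nat.lt_succ_self m))).pow d)

end generic

theorem det_ne_zero {k : Type*} [Field k] {e : ℕ} {F : Fin n → MvPolynomial (Fin n) k}
    {g : MvPolynomial (Fin n) k} (hF : ∀ i, (F i).IsHomogeneous d) (hg : g.IsHomogeneous e)
    (hpe : ((e + d : ℕ) : k) ≠ 0) (x : Fin n → k) (hgx : eval x g ≠ 0)
    (hFx : ev F x ≠ 0) (het : Etale x (ev F x) (jac F x)) :
    (Matrix.of fun i j => eval x (pderiv j (g * F i))).det ≠ 0 := by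
  intro hdet
  obtain ⟨y, hy0, hy⟩ := Matrix.exists_mulVec_eq_zero_iff.2 hdet
  -- `J_H y = g J_F y + (∇g · y) F`
  have h1 : (jac F x).mulVec y =
      (-(∑ j, eval x (pderiv j g) * y j) / eval x g) • ev F x := by
    funext i
    have h2 := congrFun hy i
    simp only [Matrix.mulVec, dotProduct, Matrix.of_apply, Pi.zero_apply] at h2
    simp only [jac, Matrix.mulVec, dotProduct, Matrix.of_apply, Pi.smul_apply, ev, smul_eq_mul]
    have h3 : ∀ j, eval x (pderiv j (g * F i)) * y j =
        eval x (F i) * (eval x (pderiv j g) * y j) +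
          eval x g * (eval x (pderiv j (F i)) * y j) := by
      intro j
      rw [Derivation.leibniz, map_add, smul_eq_mul, smul_eq_mul, map_mul, map_mul]
      ring
    rw [Finset.sum_congr rfl fun j _ => h3 j, Finset.sum_add_distrib, ← Finset.mul_sum,
      ← Finset.mul_sum] at h2
    field_simp
    linear_combination h2
  obtain ⟨t, ht⟩ := het y ⟨_, h1⟩
  have h4 := jac_euler (F := fun i => g * F i) (e := e + d)
    (fun i => hg.mul (hF i)) x
  have h5 : (Matrix.of fun i j => eval x (pderiv j (g * F i))).mulVec y =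
      (t * ((e + d : ℕ) : k)) • pmap (fun i => g * F i) x := by
    rw [ht, Matrix.mulVec_smul, h4, smul_smul]
  rw [hy] at h5
  have h6 : pmap (fun i => g * F i) x ≠ 0 := by
    intro h7
    apply hFx
    funext i
    have h8 := congrFun h7 i
    simp only [pmap, map_mul, Pi.zero_apply] at h8
    exact (mul_eq_zero.1 h8).resolve_left hgx
  have h7 : t * ((e + d : ℕ) : k) = 0 := by
    by_contra hne
    exact h6 ((smul_eq_zero.1 h5.symm).resolve_left hne)
  have h9 : t = 0 := (mul_eq_zero.1 h7).resolve_right hpe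
  apply hy0
  rw [ht, h9, zero_smul]

theorem good_seq [Fact p.Prime] (hp3 : 3 ≤ p) {O : Type*} [CommRing O] [Algebra ℤ_[p] O]
    [Module.Finite ℤ_[p] O] [Module.Free ℤ_[p] O] {k : Type*} [Field k]
    (hpk : (p : k) = 0) (hker : ∀ m : Ideal O, m.IsMaximal → ∃ π : O →+* k, RingHom.ker π = m)
    {e : ℕ} {F : Fin n → MvPolynomial (Fin n) O} {g : MvPolynomial (Fin n) O}
    (hF : ∀ i, (F i).IsHomogeneous d) (hg : g.IsHomogeneous e) (hpe : ((e + d : ℕ) : k) ≠ 0)
    (hgx : ∀ (π : O →+* k) (x : Fin n → k), x ≠ 0 → eval x (map π g) ≠ 0)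
    (hG : ∀ π : O →+* k, Good fun i => map π (F i))
    (β : Fin n → O) (hβ : ∀ π : O →+* k, (fun i => π (β i)) ≠ 0)
    {O' : Type*} [CommRing O'] [Algebra ℤ_[p] O'] [Module.Finite ℤ_[p] O']
    [Module.Free ℤ_[p] O'] (ρ : O →+* O') (G : MvPolynomial (Fin n) O') {e' : ℕ}
    (hGe : G.IsHomogeneous e') (r : ℕ) :
    {k | eval (fun i => ρ ((pmap F)^[nres n p O + r + per n p O * k] β i)) G = 0}.Finite ∨
      ∀ k, eval (fun i => ρ ((pmap F)^[nres n p O + r + per n p O * k] β i)) G = 0 := by
  classical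
  set H : Fin n → MvPolynomial (Fin n) O := fun i => g * F i with hH
  let x : ℕ → Fin n → O := fun k => (pmap H)^[k] β
  have hx : ∀ k, x (k + 1) = pmap H (x k) := fun k => Function.iterate_succ_apply' _ _ _
  have hunit : ∀ z : O, (∀ π : O →+* k, π z ≠ 0) → IsUnit z := by
    intro z hz
    by_contra hcon
    obtain ⟨m, hm, hzm⟩ := exists_max_ideal_of_mem_nonunits hcon
    obtain ⟨π, hπ⟩ := hker m hm
    exact hz π (by rwa [← RingHom.mem_ker, hπ])
  have hπ : ∀ (π : O →+* k) (j : ℕ), (pmap fun i => map π (H i))^[j] (fun i => π (β i)) =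
      fun i => π (x j i) := fun π j => pmap_map_iterate π H j β
  have hHapp : ∀ (π : O →+* k) (y : Fin n → k) (i : Fin n),
      pmap (fun i => map π (H i)) y i = eval y (map π g) * ev (fun i => map π (F i)) y i := by
    intro π y i
    simp only [pmap, hH, map_mul, ev]
  have hne : ∀ (π : O →+* k) (j : ℕ), (fun i => π (x j i)) ≠ 0 := by
    intro π j
    induction j with
    | zero => exact hβ π
    | succ j ih =>
      rw [← hπ, Function.iterate_succ_apply', hπ]
      intro h
      apply (hG π _ ih).1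
      funext i
      have h2 := congrFun h i
      rw [hHapp] at h2
      exact (mul_eq_zero.1 h2).resolve_left (hgx π _ ih)
  have hdet : ∀ i ℓ, 1 ≤ ℓ → (∀ j, (p : O) ∣ x (i + ℓ) j - x i j) →
      IsUnit (Matrix.of fun a b => eval (x i) (pderiv b (H a))).det := by
    intro i ℓ hℓ hper
    refine hunit _ fun π => ?_
    have hper' : (pmap fun i => map π (H i))^[ℓ] (fun j => π (x i j)) = fun j => π (x i j) := by
      have h4 := hπ π (i + ℓ)
      rw [add_comm, Function.iterate_add_apply, hπ] at h4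
      rw [h4]
      funext j
      obtain ⟨w, hw⟩ := hper j
      have h5 : x (ℓ + i) j = x i j + (p : O) * w := by
        rw [add_comm ℓ i, ← hw]; ring
      rw [h5, map_add, map_mul, map_natCast, hpk, zero_mul, add_zero]
    have hu : ∀ m, eval ((pmap fun i => map π (H i))^[m] (fun j => π (x i j))) (map π g) ≠ 0 := by
      intro m
      refine hgx π _ ?_
      rw [← hπ π i, ← Function.iterate_add_apply, hπ]
      exact hne π _
    have hH' : (fun i => map π (H i)) = fun i => map π g * map π (F i) := by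
      funext i
      rw [hH, map_mul]
    obtain ⟨t, ht, htu⟩ := iterate_mult (F := fun i => map π (F i)) (fun i => (hF i).map π)
      (map π g) (fun j => π (x i j)) ℓ
    rw [← hH'] at ht htu
    have ht0 : t ≠ 0 := (htu fun m _ => (isUnit_iff_ne_zero.2 (hu m))).ne_zero
    have hPP : PPer (fun i => map π (F i)) (fun j => π (x i j)) := by
      refine ⟨ℓ, hℓ, t⁻¹, inv_ne_zero ht0, ?_⟩
      have h6 : (fun j => t * (pmap fun i => map π (F i))^[ℓ] (fun j => π (x i j)) j) =
          fun j => π (x i j) := by rw [← ht]; exact hper'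
      funext j
      have h7 := congrFun h6 j
      rw [Pi.smul_apply, smul_eq_mul, ← h7, inv_mul_cancel_left₀ ht0]
      rfl
    have het := (hG π _ (hne π i)).2 hPP
    have hnz := (hG π _ (hne π i)).1
    have h8 := det_ne_zero (fun i => (hF i).map π) (hg.map π) hpe _ (hgx π _ (hne π i)) hnz het
    have h9 : (Matrix.of fun a b => eval (fun j => π (x i j)) (pderiv b (map π g * map π (F a)))) =
        π.mapMatrix (Matrix.of fun a b => eval (x i) (pderiv b (H a))) := by
      ext a b
      rw [RingHom.mapMatrix_apply, Matrix.map_apply, Matrix.of_apply, Matrix.of_apply]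
      rw [← map_mul, pderiv_map, eval_map, eval₂_comp]
      rfl
    rw [h9, ← RingHom.map_det] at h8
    exact h8
  have hgu : ∀ j, IsUnit (eval (x j) g) := by
    intro j
    refine hunit _ fun π => ?_
    have h1 : π (eval (x j) g) = eval (fun i => π (x j i)) (map π g) := by
      rw [eval_map, eval₂_comp]
      rfl
    rw [h1]
    exact hgx π _ (hne π j)
  have hiff : ∀ m, eval (fun i => ρ ((pmap F)^[m] β i)) G = 0 ↔
      eval (fun i => ρ (x m i)) G = 0 := by
    intro m
    obtain ⟨t, ht, htu⟩ := iterate_mult hF g β m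
    have htu' : IsUnit t := htu fun k _ => hgu k
    have h1 : (fun i => ρ (x m i)) = fun i => ρ t * ρ ((pmap F)^[m] β i) := by
      funext i
      rw [← map_mul]
      exact congrArg ρ (congrFun ht i)
    rw [h1, eval_smul_hom' hGe]
    exact (((htu'.map ρ).pow e').mul_right_eq_zero).symm
  have hfin := dich_unif hp3 H x hx hdet ρ G r
  simp only [← hiff] at hfin
  exact hfin

theorem form_map {R S : Type*} [CommRing R] [CommRing S] (σ : R →+* S) (c : Idx n d → R) :
    (fun i => map σ (form c i)) = form fun j => σ (c j) :=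
  funext fun i => map_form σ c i

/-- the homomorphisms from the `p`-adic integers to a field of characteristic `p` -/
theorem hom_padic_eq [Fact p.Prime] {k : Type*} [Field k] [CharP k p] (σ : ℤ_[p] →+* k)
    (z : ℤ_[p]) : σ z = ZMod.castHom (dvd_refl p) k (PadicInt.toZMod z) := by
  have h1 : z - ((PadicInt.toZMod z).val : ℤ_[p]) ∈ RingHom.ker (PadicInt.toZMod (p := p)) := by
    rw [RingHom.mem_ker, map_sub, map_natCast, ZMod.natCast_zmod_val, sub_self]
  rw [PadicInt.ker_toZMod, PadicInt.maximalIdeal_eq_span_p, Ideal.mem_span_singleton] at h1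
  obtain ⟨w, hw⟩ := h1
  have h2 : z = ((PadicInt.toZMod z).val : ℤ_[p]) + (p : ℤ_[p]) * w := by rw [← hw]; ring
  have h3 : σ z = ((PadicInt.toZMod z).val : k) := by
    conv_lhs => rw [h2]
    rw [map_add, map_mul, map_natCast, map_natCast, CharP.cast_eq_zero k p, zero_mul, add_zero]
  rw [h3, ZMod.castHom_apply, ZMod.cast_eq_val]

theorem exists_primitive [Fact p.Prime] {y : Fin n → ℚ_[p]} (hy : y ≠ 0) :
    ∃ (i₀ : Fin n) (t : ℚ_[p]) (β : Fin n → ℤ_[p]), t ≠ 0 ∧ (∀ i, (β i : ℚ_[p]) = t * y i) ∧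
      β i₀ = 1 := by
  have hne : (Finset.univ : Finset (Fin n)).Nonempty := by
    obtain ⟨i, -⟩ := Function.ne_iff.1 hy
    exact ⟨i, Finset.mem_univ i⟩
  obtain ⟨i₀, -, hmax⟩ := Finset.exists_max_image Finset.univ (fun i => ‖y i‖) hne
  have h0 : y i₀ ≠ 0 := by
    intro h
    apply hy
    funext i
    have := hmax i (Finset.mem_univ i)
    rw [h, norm_zero] at this
    exact norm_le_zero_iff.1 this
  refine ⟨i₀, (y i₀)⁻¹, fun i => ⟨(y i₀)⁻¹ * y i, ?_⟩, inv_ne_zero h0, fun i => rfl, ?_⟩
  · rw [norm_mul, norm_inv, inv_mul_le_iff₀ (norm_pos_iff.2 h0), mul_one]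
    exact hmax i (Finset.mem_univ i)
  · exact Subtype.ext (inv_mul_cancel₀ h0)

theorem good_dml {n d p : ℕ} [Fact p.Prime] (hp : 3 ≤ p) (c : Idx n d → ℤ_[p])
    (hG : Good (form fun i => PadicInt.toZMod (c i))) {L : Type*} [Field L] (φ : L →+* ℚ_[p])
    (b : Idx n d → L) (hb : ∀ i, φ (b i) = c i)
    (α : Fin n → L) (hα : α ≠ 0) (e : ℕ) (G : MvPolynomial (Fin n) L) (hGe : G.IsHomogeneous e)
    (r : ℕ) :
    {k : ℕ | eval ((pmap (form b))^[nres n p ℤ_[p] + r + per n p ℤ_[p] * k] α) G = 0}.Finite ∨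
      ∀ k : ℕ, eval ((pmap (form b))^[nres n p ℤ_[p] + r + per n p ℤ_[p] * k] α) G = 0 := by
  classical
  obtain ⟨e₁, g, hpe, hg, hgx⟩ := exists_mult hp n d
  -- the start
  have hy : (fun i => φ (α i)) ≠ 0 := by
    intro h
    apply hα
    funext i
    exact (map_eq_zero φ).1 (congrFun h i)
  obtain ⟨i₀, t₀, β, ht₀, hβ, hβ1⟩ := exists_primitive hy
  have hcast : ∀ σ : ℤ_[p] →+* ZMod p, σ = PadicInt.toZMod := by
    intro σ
    refine RingHom.ext fun z => ?_
    rw [hom_padic_eq σ z, ← hom_padic_eq PadicInt.toZMod z]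
  by_cases hG0 : G = 0
  · right
    intro k
    rw [hG0, map_zero]
  -- scaling of `G`
  have hφG0 : map φ G ≠ 0 := fun h => hG0 (map_injective φ φ.injective (by rw [h, map_zero]))
  obtain ⟨s₀, hs₀, hmax⟩ := Finset.exists_max_image (map φ G).support
    (fun s => ‖coeff s (map φ G)‖) (support_nonempty.2 hφG0)
  have hc0 : coeff s₀ (map φ G) ≠ 0 := mem_support_iff.1 hs₀
  set c' := (coeff s₀ (map φ G))⁻¹ with hc'
  have hcne : c' ≠ 0 := inv_ne_zero hc0
  have hcoef : ∀ s, ‖coeff s (C c' * map φ G)‖ ≤ 1 := by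
    intro s
    rw [coeff_C_mul, norm_mul, hc', norm_inv]
    have hpos : 0 < ‖coeff s₀ (map φ G)‖ := norm_pos_iff.2 hc0
    rw [inv_mul_le_iff₀ hpos, mul_one]
    by_cases hs : s ∈ (map φ G).support
    · exact hmax s hs
    · rw [notMem_support_iff.1 hs, norm_zero]
      exact hpos.le
  obtain ⟨G', hG'⟩ : ∃ G' : MvPolynomial (Fin n) ℤ_[p],
      map (PadicInt.Coe.ringHom : ℤ_[p] →+* ℚ_[p]) G' = C c' * map φ G := by
    have h7 : (C c' * map φ G) ∈ Set.range (MvPolynomial.map (σ := Fin n)
        (PadicInt.Coe.ringHom : ℤ_[p] →+* ℚ_[p])) := by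
      rw [mem_range_map_iff_coeffs_subset]
      intro a ha
      rw [Finset.mem_coe, mem_coeffs_iff] at ha
      obtain ⟨s, hs, rfl⟩ := ha
      exact ⟨⟨_, hcoef s⟩, rfl⟩
    exact h7
  have hG'e : G'.IsHomogeneous e := by
    have h1 : (C c' * map φ G).IsHomogeneous (0 + e) :=
      (isHomogeneous_C _ _).mul (hGe.map φ)
    rw [zero_add, ← hG'] at h1
    intro s hs
    refine h1 ?_
    rw [coeff_map]
    intro h0
    exact hs (Subtype.val_injective (by rw [PadicInt.coe_zero]; exact h0))
  have hiff : ∀ m, eval ((pmap (form b))^[m] α) G = 0 ↔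
      eval (fun i => (RingHom.id ℤ_[p]) ((pmap (form c))^[m] β i)) G' = 0 := by
    intro m
    have h1 : ∀ i, (((pmap (form c))^[m] β i : ℤ_[p]) : ℚ_[p]) =
        t₀ ^ d ^ m * φ ((pmap (form b))^[m] α i) := by
      intro i
      have h3 := congrFun (pmap_map_iterate (PadicInt.Coe.ringHom : ℤ_[p] →+* ℚ_[p])
        (form c) m β) i
      have h4 : (fun i => (PadicInt.Coe.ringHom : ℤ_[p] →+* ℚ_[p]) (β i)) =
          fun i => t₀ * φ (α i) := funext fun i => hβ i
      rw [h4, pmap_smul_iterate (fun i => (form_isHomogeneous c i).map _)] at h3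
      have h5 := congrFun (pmap_map_iterate φ (form b) m α) i
      have h6 : (fun i => map φ (form b i)) =
          fun i => map (PadicInt.Coe.ringHom : ℤ_[p] →+* ℚ_[p]) (form c i) := by
        rw [form_map, form_map]
        congr 1
        funext j
        exact hb j
      rw [← h6] at h3
      have h7 : (((pmap (form c))^[m] β i : ℤ_[p]) : ℚ_[p]) =
          (PadicInt.Coe.ringHom : ℤ_[p] →+* ℚ_[p]) ((pmap (form c))^[m] β i) := rfl
      rw [h7, ← h3, ← h5]
    have h8 : (PadicInt.Coe.ringHom : ℤ_[p] →+* ℚ_[p])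
        (eval (fun i => (RingHom.id ℤ_[p]) ((pmap (form c))^[m] β i)) G') =
        c' * ((t₀ ^ d ^ m) ^ e * φ (eval ((pmap (form b))^[m] α) G)) := by
      have h9 : (PadicInt.Coe.ringHom : ℤ_[p] →+* ℚ_[p])
          (eval (fun i => (RingHom.id ℤ_[p]) ((pmap (form c))^[m] β i)) G') =
          eval (fun i => (((pmap (form c))^[m] β i : ℤ_[p]) : ℚ_[p])) (C c' * map φ G) := by
        rw [← hG', eval_map, eval₂_comp]
        rfl
      rw [h9, map_mul, eval_C]
      congr 1
      have h11 : (fun i => (((pmap (form c))^[m] β i : ℤ_[p]) : ℚ_[p])) =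
          fun i => t₀ ^ d ^ m * φ ((pmap (form b))^[m] α i) := funext h1
      rw [h11, eval_smul_hom' (hGe.map φ)]
      congr 1
      rw [eval_map]
      have h12 := eval₂_comp φ ((pmap (form b))^[m] α) G
      exact h12.symm
    have hs0 : (t₀ ^ d ^ m) ^ e ≠ 0 := pow_ne_zero _ (pow_ne_zero _ ht₀)
    constructor
    · intro h0
      rw [h0, map_zero, mul_zero, mul_zero] at h8
      exact (map_eq_zero_iff _ Subtype.val_injective).1 h8
    · intro h0
      rw [h0, map_zero] at h8
      exact (map_eq_zero φ).1 ((mul_eq_zero.1 ((mul_eq_zero.1 h8.symm).resolve_left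
        hcne)).resolve_left hs0)
  have hfin := good_seq (n := n) (d := d) (k := ZMod p) hp (O := ℤ_[p])
    (CharP.cast_eq_zero (ZMod p) p) (fun m hm => ⟨PadicInt.toZMod, by
      rw [PadicInt.ker_toZMod, IsLocalRing.eq_maximalIdeal hm]⟩)
    (F := form c) (g := map (Int.castRingHom ℤ_[p]) g)
    (fun i => form_isHomogeneous c i) (hg.map _) (by
      rw [Ne, ZMod.natCast_eq_zero_iff]
      exact hpe) (fun π x hx => by
        have h1 : π.comp (Int.castRingHom ℤ_[p]) = algebraMap ℤ (ZMod p) := RingHom.ext_int _ _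
        rw [map_map, h1, eval_map, ← aeval_def]
        exact hgx x hx) (fun π => by
        rw [hcast π, form_map]
        exact hG) β (fun π h => by
        have h1 := congrFun h i₀
        simp only [hβ1, map_one, Pi.zero_apply] at h1
        exact one_ne_zero h1) (RingHom.id ℤ_[p]) G' hG'e r
  simp only [← hiff] at hfin
  exact hfin

end Pool.Agent.Helper87.LD
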