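import Pool.Agent.Helper87.LD.Univ

/-!
# LD: the dichotomy in the family of all tuples of forms
-/

set_option autoImplicit false

namespace Pool.Agent.Helper87.LD

open MvPolynomial Pool.Agent.Helper86.DML Pool.Agent.Helper26.FD

section

variable {p : ℕ} [hp : Fact p.Prime] {n : ℕ}

theorem hom_eval {R S : Type*} [CommRing R] [CommRing S] (σ : R →+* S)
    (P : MvPolynomial (Fin n) R) (z : Fin n → R) :
    σ (eval z P) = eval (fun i => σ (z i)) (map σ P) := eval_hom σ P z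

/-- one residue disc, in a family -/
theorem univ_disc {ι : Type} [Finite ι] (hp3 : 3 ≤ p)
    {Φ : Fin n → MvPolynomial (Fin n) (MvPolynomial ι ℤ_[p])}
    {x₀ : Fin n → MvPolynomial ι ℤ_[p]}
    {L : ℕ} {u : Fin n → MvPolynomial (Fin n) (MvPolynomial ι ℤ_[p])}
    (h : ∀ i, zoom x₀ (p : MvPolynomial ι ℤ_[p]) (((bind₁ Φ) ^ L) (X i)) =
      C (x₀ i) + C (p : MvPolynomial ι ℤ_[p]) * (X i + C (p : MvPolynomial ι ℤ_[p]) * u i))
    (S : Finset (Fin n →₀ ℕ)) :
    ∃ K : ℕ, ∀ (c : ι → ℤ_[p]) (y : Fin n → ℤ_[p]) (G : MvPolynomial (Fin n) ℤ_[p]),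
      G.support ⊆ S →
      {k | eval ((pmap fun i => map (eval c) (Φ i))^[L * k]
        (fun i => eval c (x₀ i) + p * y i)) G = 0}.encard ≤ K ∨
      ∀ k, eval ((pmap fun i => map (eval c) (Φ i))^[L * k]
        (fun i => eval c (x₀ i) + p * y i)) G = 0 := by
  classical
  let O := MvPolynomial ι ℤ_[p]
  let R := MvPolynomial (Fin n ⊕ S) O
  let gG : MvPolynomial (Fin n) R := ∑ s : S, monomial s.1 (X (Sum.inr s))
  have hAn := interp_An (C : O →+* R) h (fun i => X (Sum.inl i)) gG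
  obtain ⟨K, hK⟩ := unif_zeros hp3 _ hAn
  refine ⟨K, fun c y G hG => ?_⟩
  let σ : R →+* ℤ_[p] := eval₂Hom (eval c) (Sum.elim y fun s => coeff s.1 G)
  have e1 : ∀ z : O, σ ((C : O →+* R) z) = eval c z := fun z => eval₂Hom_C _ _ z
  have e2 : ∀ t, σ (X t) = Sum.elim y (fun s : S => coeff s.1 G) t := fun t => eval₂Hom_X' _ _ t
  have hσC : σ.comp (C : O →+* R) = eval c := RingHom.ext fun z => e1 z
  have hσG : map σ gG = G := by
    simp only [gG, map_sum, map_monomial]
    have h1 : ∀ s : S, σ (X (Sum.inr s)) = coeff s.1 G := fun s => e2 (Sum.inr s)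
    simp only [h1]
    rw [Finset.sum_coe_sort S (fun s => monomial s (coeff s G))]
    conv_rhs => rw [G.as_sum]
    symm
    refine Finset.sum_subset hG fun s _ hs => ?_
    rw [notMem_support_iff.1 hs, map_zero]
  have hval : ∀ k, σ (eval ((pmap (fun i => map (C : O →+* R) (Φ i)))^[L * k]
      (fun i => (C : O →+* R) (x₀ i) + (p : R) * X (Sum.inl i))) gG) =
      eval ((pmap fun i => map (eval c) (Φ i))^[L * k] (fun i => eval c (x₀ i) + p * y i)) G := by
    intro k
    rw [eval_hom, hσG]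
    congr 2
    have h1 := pmap_map_iterate σ (fun i => map (C : O →+* R) (Φ i)) (L * k)
      (fun i => (C : O →+* R) (x₀ i) + (p : R) * X (Sum.inl i))
    rw [← h1]
    have h2 : (fun i => map σ (map (C : O →+* R) (Φ i))) = fun i => map (eval c) (Φ i) := by
      funext i
      rw [map_map, hσC]
    have h3 : (fun i => σ ((C : O →+* R) (x₀ i) + (p : R) * X (Sum.inl i))) =
        fun i => eval c (x₀ i) + p * y i := by
      funext i
      rw [map_add, map_mul, map_natCast, e1, e2]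
      rfl
    rw [h2, h3]
  have h4 := hK σ
  simp only [hval] at h4
  exact h4

/-- the period -/
noncomputable def perF (n p : ℕ) : ℕ := (p ^ n).factorial * expoF n p

theorem perF_pos (n : ℕ) {p : ℕ} (hp : 0 < p) : 1 ≤ perF n p :=
  Nat.mul_pos (Nat.factorial_pos _) (expoF_pos n hp)

theorem padic_lift (z : ℤ_[p]) :
    ∃ w : ℤ_[p], z = ((PadicInt.toZMod z).val : ℤ_[p]) + (p : ℤ_[p]) * w := by
  have h1 : (p : ℤ_[p]) ∣ z - ((PadicInt.toZMod z).val : ℤ_[p]) := by
    rw [← toZMod_eq_zero_iff, map_sub, map_natCast, ZMod.natCast_zmod_val, sub_self]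
  obtain ⟨w, hw⟩ := h1
  exact ⟨w, by rw [← hw]; ring⟩

/-- the dichotomy with a bound for the number of zeros which does not depend on the orbit and on
the coefficients of the map -/
theorem dich_univ (hp3 : 3 ≤ p) (n d : ℕ) (g : MvPolynomial (Fin n) ℤ)
    (S : Finset (Fin n →₀ ℕ)) :
    ∃ K : ℕ, ∀ (c : Idx n d → ℤ_[p]) (x : ℕ → Fin n → ℤ_[p]),
      (∀ k, x (k + 1) = pmap (fun i => map (Int.castRingHom ℤ_[p]) g * form c i) (x k)) →
      (∀ i ℓ, 1 ≤ ℓ → (∀ j, (p : ℤ_[p]) ∣ x (i + ℓ) j - x i j) →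
        IsUnit (Matrix.of fun a b => eval (x i)
          (pderiv b (map (Int.castRingHom ℤ_[p]) g * form c a))).det) →
      ∀ G : MvPolynomial (Fin n) ℤ_[p], G.support ⊆ S → ∀ r : ℕ,
      {k | eval (x (p ^ n + r + perF n p * k)) G = 0}.encard ≤ K ∨
        ∀ k, eval (x (p ^ n + r + perF n p * k)) G = 0 := by
  classical
  set O := MvPolynomial (Idx n d) ℤ_[p] with hO
  -- the universal family
  let Φu : (Idx n d → ZMod p) → Fin n → MvPolynomial (Fin n) (MvPolynomial (Idx n d) ℤ_[p]) :=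
    fun cb i => map (Int.castRingHom (MvPolynomial (Idx n d) ℤ_[p])) g *
      form (fun j => C ((cb j).val : ℤ_[p]) + (p : MvPolynomial (Idx n d) ℤ_[p]) * X j) i
  let xu : (Fin n → ZMod p) → Fin n → MvPolynomial (Idx n d) ℤ_[p] := fun γ i =>
    C ((γ i).val : ℤ_[p])
  let Φb : (Idx n d → ZMod p) → Fin n → MvPolynomial (Fin n) (ZMod p) := fun cb i =>
    map (Int.castRingHom (ZMod p)) g * form cb i
  let Ok : (Idx n d → ZMod p) → (Fin n → ZMod p) → ℕ → Prop := fun cb γ ℓ =>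
    1 ≤ ℓ ∧ ℓ ∣ (p ^ n).factorial ∧ (pmap (Φb cb))^[ℓ] γ = γ ∧
      ∀ k, (Matrix.of fun a b => eval ((pmap (Φb cb))^[k] γ) (pderiv b (Φb cb a))).det ≠ 0
  let π : MvPolynomial (Idx n d) ℤ_[p] →+* MvPolynomial (Idx n d) (ZMod p) :=
    map PadicInt.toZMod
  have hπ : ∀ z, π z = 0 ↔ (p : MvPolynomial (Idx n d) ℤ_[p]) ∣ z := by
    intro z
    have h1 : (p : MvPolynomial (Idx n d) ℤ_[p]) = C (p : ℤ_[p]) := (map_natCast C p).symm
    rw [h1, C_dvd_iff_map_hom_eq_zero PadicInt.toZMod (p : ℤ_[p])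
      (fun r => toZMod_eq_zero_iff r)]
  have hval : ∀ a : ZMod p, PadicInt.toZMod ((a.val : ℤ_[p])) = a := by
    intro a
    rw [map_natCast, ZMod.natCast_zmod_val]
  have hΦ : ∀ cb i, map π (Φu cb i) = map (C : ZMod p →+* MvPolynomial (Idx n d) (ZMod p))
      (Φb cb i) := by
    intro cb i
    have h1 : π.comp (Int.castRingHom (MvPolynomial (Idx n d) ℤ_[p])) =
        (C : ZMod p →+* MvPolynomial (Idx n d) (ZMod p)).comp (Int.castRingHom (ZMod p)) :=
      RingHom.ext_int _ _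
    simp only [Φu, Φb]
    rw [map_mul, map_mul, map_map, map_map, h1, map_form, map_form]
    congr 2
    funext j
    have hp0 : π (p : MvPolynomial (Idx n d) ℤ_[p]) = 0 := (hπ _).2 dvd_rfl
    rw [map_add, map_mul, hp0, zero_mul, add_zero]
    show map PadicInt.toZMod (C ((cb j).val : ℤ_[p])) = C (cb j)
    rw [map_C, hval]
  -- the bound for one class
  have hcls : ∀ (cb : Idx n d → ZMod p) (γ : Fin n → ZMod p), ∃ K : ℕ,
      (∃ ℓ, Ok cb γ ℓ) → ∃ ℓ, Ok cb γ ℓ ∧ ∀ (c : Idx n d → ℤ_[p]) (y : Fin n → ℤ_[p])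
        (G : MvPolynomial (Fin n) ℤ_[p]), G.support ⊆ S →
        {k | eval ((pmap fun i => map (eval c) (Φu cb i))^[ℓ * expoF n p * k]
          (fun i => eval c (xu γ i) + p * y i)) G = 0}.encard ≤ K ∨
        ∀ k, eval ((pmap fun i => map (eval c) (Φu cb i))^[ℓ * expoF n p * k]
          (fun i => eval c (xu γ i) + p * y i)) G = 0 := by
    intro cb γ
    by_cases hex : ∃ ℓ, Ok cb γ ℓ
    · obtain ⟨ℓ, hℓ⟩ := hex
      obtain ⟨-, -, hℓ3, hℓ4⟩ := id hℓ
      obtain ⟨u, hu⟩ := interp_univ π hπ (C : ZMod p →+* MvPolynomial (Idx n d) (ZMod p))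
        (Φu cb) (Φb cb) (hΦ cb) (fun k => (pmap (Φu cb))^[k] (xu γ))
        (fun k => Function.iterate_succ_apply' _ _ _) γ (fun i => by
          show map PadicInt.toZMod (C ((γ i).val : ℤ_[p])) = C (γ i)
          rw [map_C, hval]) hℓ3 hℓ4
      obtain ⟨K, hK⟩ := univ_disc hp3 hu S
      exact ⟨K, fun _ => ⟨ℓ, hℓ, hK⟩⟩
    · exact ⟨0, fun h => absurd h hex⟩
  choose K hK using hcls
  refine ⟨∑ cb, ∑ γ, K cb γ, fun c x hx hdet G hG r => ?_⟩
  -- preperiodicity modulo `p`
  have hcardp : Nat.card (Fin n → ZMod p) = p ^ n := by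
    rw [Nat.card_eq_fintype_card, Fintype.card_fun, ZMod.card, Fintype.card_fin]
  obtain ⟨n₀, ℓ, hℓ, hle, hper⟩ : ∃ n₀ ℓ, 1 ≤ ℓ ∧ n₀ + ℓ ≤ p ^ n ∧
      ∀ i, (p : ℤ_[p]) ∣ x (n₀ + ℓ) i - x n₀ i := by
    obtain ⟨i, j, hij, hj, h⟩ := exists_coincidence
      (fun (k : ℕ) => (fun i => PadicInt.toZMod (x k i)))
    rw [hcardp] at hj
    obtain ⟨d, rfl⟩ := Nat.exists_eq_add_of_lt hij
    refine ⟨i, d + 1, by omega, hj, fun k => ?_⟩
    have h1 := congrFun h k
    rw [← toZMod_eq_zero_iff, map_sub, sub_eq_zero]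
    exact h1.symm
  set H : Fin n → MvPolynomial (Fin n) ℤ_[p] := fun i =>
    map (Int.castRingHom ℤ_[p]) g * form c i with hH
  have hper1 : ∀ m i, (p : ℤ_[p]) ∣ x (n₀ + m + ℓ) i - x (n₀ + m) i := by
    intro m
    induction m with
    | zero => exact hper
    | succ m ih =>
      intro i
      have h1 := eval_congr_mod ih (H i)
      have h2 : x (n₀ + (m + 1) + ℓ) i = eval (x (n₀ + m + ℓ)) (H i) := by
        have := congrFun (hx (n₀ + m + ℓ)) i
        have h3 : n₀ + (m + 1) + ℓ = n₀ + m + ℓ + 1 := by ring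
        rw [h3, this]
        rfl
      have h4 : x (n₀ + (m + 1)) i = eval (x (n₀ + m)) (H i) := congrFun (hx (n₀ + m)) i
      rw [h2, h4]
      exact h1
  set s := p ^ n + r with hs
  obtain ⟨s', hs'⟩ : ∃ s', s = n₀ + s' := ⟨s - n₀, by omega⟩
  let cb : Idx n d → ZMod p := fun j => PadicInt.toZMod (c j)
  let γ : Fin n → ZMod p := fun i => PadicInt.toZMod (x s i)
  have hHb : (fun i => map (PadicInt.toZMod (p := p)) (H i)) = Φb cb := by
    funext i
    have h1 : (PadicInt.toZMod (p := p)).comp (Int.castRingHom ℤ_[p]) =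
        Int.castRingHom (ZMod p) := RingHom.ext_int _ _
    simp only [hH, Φb]
    rw [map_mul, map_map, h1, map_form]
  have hγ : ∀ k, (pmap (Φb cb))^[k] γ = fun i => PadicInt.toZMod (x (s + k) i) := by
    intro k
    have h1 := pmap_map_iterate (PadicInt.toZMod (p := p)) H k (x s)
    rw [hHb, seq_iter hx] at h1
    exact h1
  have hOk : Ok cb γ ℓ := by
    refine ⟨hℓ, Nat.dvd_factorial (by omega) (by omega), ?_, fun k => ?_⟩
    · rw [hγ]
      funext i
      have h1 := hper1 s' i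
      rw [← hs', ← toZMod_eq_zero_iff, map_sub, sub_eq_zero] at h1
      exact h1
    · have h1 := hdet (s + k) ℓ hℓ (fun i => by
        have h1 := hper1 (s' + k) i
        have h3 : n₀ + (s' + k) = s + k := by omega
        rwa [h3] at h1)
      have h2 := (h1.map (PadicInt.toZMod (p := p))).ne_zero
      rw [RingHom.map_det] at h2
      have h3 : (PadicInt.toZMod (p := p)).mapMatrix (Matrix.of fun a b =>
          eval (x (s + k)) (pderiv b (H a))) =
          Matrix.of fun a b => eval ((pmap (Φb cb))^[k] γ) (pderiv b (Φb cb a)) := by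
        ext a b
        rw [RingHom.mapMatrix_apply, Matrix.map_apply, Matrix.of_apply, Matrix.of_apply, eval_hom,
          ← pderiv_map, hγ k]
        have h4 := congrFun hHb a
        rw [← h4]
      rw [← h3]
      exact h2
  obtain ⟨ℓ', hOk', hbd⟩ := hK cb γ ⟨ℓ, hOk⟩
  choose c' hc' using fun j => padic_lift (c j)
  choose y hy using fun i => padic_lift (x s i)
  have hΦc : (fun i => map (eval c') (Φu cb i)) = H := by
    funext i
    have h1 : (eval c').comp (Int.castRingHom (MvPolynomial (Idx n d) ℤ_[p])) =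
        Int.castRingHom ℤ_[p] := RingHom.ext_int _ _
    simp only [hH, Φu]
    rw [map_mul, map_map, h1, map_form]
    congr 2
    funext j
    rw [map_add, map_mul, eval_C, eval_X, map_natCast]
    exact (hc' j).symm
  have hxc : (fun i => eval c' (xu γ i) + (p : ℤ_[p]) * y i) = x s := by
    funext i
    have h1 : eval c' (xu γ i) = ((PadicInt.toZMod (x s i)).val : ℤ_[p]) := eval_C _
    rw [h1]
    exact (hy i).symm
  have h2 := hbd c' y G hG
  have hseq : ∀ k, (pmap fun i => map (eval c') (Φu cb i))^[ℓ' * expoF n p * k]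
      (fun i => eval c' (xu γ i) + (p : ℤ_[p]) * y i) = x (s + ℓ' * expoF n p * k) := by
    intro k
    rw [hΦc, hxc, seq_iter hx]
  simp only [hseq] at h2
  obtain ⟨-, ⟨m, hm⟩, -, -⟩ := hOk'
  have hm1 : 1 ≤ m := by
    by_contra hcon
    have h0 : m = 0 := by omega
    rw [h0, mul_zero] at hm
    exact absurd hm (Nat.factorial_pos _).ne'
  have h5 : ∀ k, s + perF n p * k = s + ℓ' * expoF n p * (m * k) := by
    intro k
    rw [perF, hm]
    ring
  simp only [h5]
  rcases h2 with h2 | h2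
  · left
    have h6 : ((K cb γ : ℕ) : ℕ∞) ≤ ((∑ cb, ∑ γ, K cb γ : ℕ) : ℕ∞) := by
      have h7 : K cb γ ≤ ∑ γ, K cb γ :=
        Finset.single_le_sum (f := K cb) (fun _ _ => Nat.zero_le _) (Finset.mem_univ γ)
      have h8 : ∑ γ, K cb γ ≤ ∑ cb, ∑ γ, K cb γ :=
        Finset.single_le_sum (f := fun cb => ∑ γ, K cb γ) (fun _ _ => Nat.zero_le _)
          (Finset.mem_univ cb)
      exact_mod_cast h7.trans h8
    exact (encard_mul_le hm1 h2).trans h6
  · right
    exact fun k => h2 (m * k)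

end

end Pool.Agent.Helper87.LD
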