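import Pool.Agent.Helper87.LD.Core
import Pool.Agent.Helper87.LD.UnivB

/-!
# LD: dynamical Mordell-Lang at a good prime, with a number of sporadic returns which is uniform in
the family of all good tuples of forms
-/

set_option autoImplicit false

namespace Pool.Agent.Helper87.LD

open MvPolynomial
open Pool.Agent.Helper26.FD (eval_smul_hom')
open Pool.Agent.Helper86.DML (pmap)

theorem good_dml_univ {p : ℕ} [Fact p.Prime] (hp : 3 ≤ p) (n d δ : ℕ) :
    ∃ K : ℕ, ∀ c : Idx n d → ℤ_[p], Good (form fun i => PadicInt.toZMod (c i)) →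
      ∀ {L : Type} [Field L] (φ : L →+* ℚ_[p])
      (b : Idx n d → L), (∀ i, φ (b i) = c i) → ∀ α : Fin n → L, α ≠ 0 →
      ∀ (e : ℕ) (G : MvPolynomial (Fin n) L), G.IsHomogeneous e → e ≤ δ → ∀ r : ℕ,
      {k : ℕ | eval ((pmap (form b))^[p ^ n + r + perF n p * k] α) G = 0}.encard ≤ K ∨
      ∀ k : ℕ, eval ((pmap (form b))^[p ^ n + r + perF n p * k] α) G = 0 := by
  classical
  obtain ⟨e₁, g, hpe, hg, hgx⟩ := exists_mult hp n d
  obtain ⟨K, hK⟩ := dich_univ hp n d g (exLe n δ)
  refine ⟨K, ?_⟩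
  intro c hG L _ φ b hb α hα e G hGe he r
  -- the start
  have hy : (fun i => φ (α i)) ≠ 0 := by
    intro h
    apply hα
    funext i
    exact (map_eq_zero φ).1 (congrFun h i)
  obtain ⟨i₀, t₀, β, ht₀, hβ, hβ1⟩ := exists_primitive hy
  have hcast : ∀ σ : ℤ_[p] →+* ZMod p, σ = PadicInt.toZMod := by
    intro σ
    refine RingHom.ext fun z => ?_
    rw [hom_padic_eq σ z, ← hom_padic_eq PadicInt.toZMod z]
  by_cases hG0 : G = 0
  · right
    intro k
    rw [hG0, map_zero]
  -- scaling of `G`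
  have hφG0 : map φ G ≠ 0 := fun h => hG0 (map_injective φ φ.injective (by rw [h, map_zero]))
  obtain ⟨s₀, hs₀, hmax⟩ := Finset.exists_max_image (map φ G).support
    (fun s => ‖coeff s (map φ G)‖) (support_nonempty.2 hφG0)
  have hc0 : coeff s₀ (map φ G) ≠ 0 := mem_support_iff.1 hs₀
  set c' := (coeff s₀ (map φ G))⁻¹ with hc'
  have hcne : c' ≠ 0 := inv_ne_zero hc0
  have hcoef : ∀ s, ‖coeff s (C c' * map φ G)‖ ≤ 1 := by
    intro s
    rw [coeff_C_mul, norm_mul, hc', norm_inv]
    have hpos : 0 < ‖coeff s₀ (map φ G)‖ := norm_pos_iff.2 hc0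
    rw [inv_mul_le_iff₀ hpos, mul_one]
    by_cases hs : s ∈ (map φ G).support
    · exact hmax s hs
    · rw [notMem_support_iff.1 hs, norm_zero]
      exact hpos.le
  obtain ⟨G', hG'⟩ : ∃ G' : MvPolynomial (Fin n) ℤ_[p],
      map (PadicInt.Coe.ringHom : ℤ_[p] →+* ℚ_[p]) G' = C c' * map φ G := by
    have h7 : (C c' * map φ G) ∈ Set.range (MvPolynomial.map (σ := Fin n)
        (PadicInt.Coe.ringHom : ℤ_[p] →+* ℚ_[p])) := by
      rw [mem_range_map_iff_coeffs_subset]
      intro a ha
      rw [Finset.mem_coe, mem_coeffs_iff] at ha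
      obtain ⟨s, hs, rfl⟩ := ha
      exact ⟨⟨_, hcoef s⟩, rfl⟩
    exact h7
  have hG'e : G'.IsHomogeneous e := by
    have h1 : (C c' * map φ G).IsHomogeneous (0 + e) :=
      (isHomogeneous_C _ _).mul (hGe.map φ)
    rw [zero_add, ← hG'] at h1
    intro s hs
    refine h1 ?_
    rw [coeff_map]
    intro h0
    exact hs (Subtype.val_injective (by rw [PadicInt.coe_zero]; exact h0))
  have hiff : ∀ m, eval ((pmap (form b))^[m] α) G = 0 ↔
      eval (fun i => (RingHom.id ℤ_[p]) ((pmap (form c))^[m] β i)) G' = 0 := by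
    intro m
    have h1 : ∀ i, (((pmap (form c))^[m] β i : ℤ_[p]) : ℚ_[p]) =
        t₀ ^ d ^ m * φ ((pmap (form b))^[m] α i) := by
      intro i
      have h3 := congrFun (pmap_map_iterate (PadicInt.Coe.ringHom : ℤ_[p] →+* ℚ_[p])
        (form c) m β) i
      have h4 : (fun i => (PadicInt.Coe.ringHom : ℤ_[p] →+* ℚ_[p]) (β i)) =
          fun i => t₀ * φ (α i) := funext fun i => hβ i
      rw [h4, pmap_smul_iterate (fun i => (form_isHomogeneous c i).map _)] at h3
      have h5 := congrFun (pmap_map_iterate φ (form b) m α) i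
      have h6 : (fun i => map φ (form b i)) =
          fun i => map (PadicInt.Coe.ringHom : ℤ_[p] →+* ℚ_[p]) (form c i) := by
        rw [form_map, form_map]
        congr 1
        funext j
        exact hb j
      rw [← h6] at h3
      have h7 : (((pmap (form c))^[m] β i : ℤ_[p]) : ℚ_[p]) =
          (PadicInt.Coe.ringHom : ℤ_[p] →+* ℚ_[p]) ((pmap (form c))^[m] β i) := rfl
      rw [h7, ← h3, ← h5]
    have h8 : (PadicInt.Coe.ringHom : ℤ_[p] →+* ℚ_[p])
        (eval (fun i => (RingHom.id ℤ_[p]) ((pmap (form c))^[m] β i)) G') =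
        c' * ((t₀ ^ d ^ m) ^ e * φ (eval ((pmap (form b))^[m] α) G)) := by
      have h9 : (PadicInt.Coe.ringHom : ℤ_[p] →+* ℚ_[p])
          (eval (fun i => (RingHom.id ℤ_[p]) ((pmap (form c))^[m] β i)) G') =
          eval (fun i => (((pmap (form c))^[m] β i : ℤ_[p]) : ℚ_[p])) (C c' * map φ G) := by
        rw [← hG', eval_map, eval₂_comp]
        rfl
      rw [h9, map_mul, eval_C]
      congr 1
      have h11 : (fun i => (((pmap (form c))^[m] β i : ℤ_[p]) : ℚ_[p])) =
          fun i => t₀ ^ d ^ m * φ ((pmap (form b))^[m] α i) := funext h1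
      rw [h11, eval_smul_hom' (hGe.map φ)]
      congr 1
      rw [eval_map]
      have h12 := eval₂_comp φ ((pmap (form b))^[m] α) G
      exact h12.symm
    have hs0 : (t₀ ^ d ^ m) ^ e ≠ 0 := pow_ne_zero _ (pow_ne_zero _ ht₀)
    constructor
    · intro h0
      rw [h0, map_zero, mul_zero, mul_zero] at h8
      exact (map_eq_zero_iff _ Subtype.val_injective).1 h8
    · intro h0
      rw [h0, map_zero] at h8
      exact (map_eq_zero φ).1 ((mul_eq_zero.1 ((mul_eq_zero.1 h8.symm).resolve_left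
        hcne)).resolve_left hs0)
  obtain ⟨hdet, hcore⟩ := good_core (n := n) (d := d) (p := p) (k := ZMod p) (O := ℤ_[p])
    (CharP.cast_eq_zero (ZMod p) p) (fun m hm => ⟨PadicInt.toZMod, by
      rw [PadicInt.ker_toZMod, IsLocalRing.eq_maximalIdeal hm]⟩)
    (F := form c) (g := map (Int.castRingHom ℤ_[p]) g)
    (fun i => form_isHomogeneous c i) (hg.map _) (by
      rw [Ne, ZMod.natCast_eq_zero_iff]
      exact hpe) (fun π x hx => by
        have h1 : π.comp (Int.castRingHom ℤ_[p]) = algebraMap ℤ (ZMod p) := RingHom.ext_int _ _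
        rw [map_map, h1, eval_map, ← aeval_def]
        exact hgx x hx) (fun π => by
        rw [hcast π, form_map]
        exact hG) β (fun π h => by
        have h1 := congrFun h i₀
        simp only [hβ1, map_one, Pi.zero_apply] at h1
        exact one_ne_zero h1)
  have hfin := hK c (fun k => (pmap fun i => map (Int.castRingHom ℤ_[p]) g * form c i)^[k] β)
    (fun k => Function.iterate_succ_apply' _ _ _) hdet G' (support_subset_exLe hG'e he) r
  have hiff' : ∀ m, eval ((pmap (form b))^[m] α) G = 0 ↔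
      eval ((pmap fun i => map (Int.castRingHom ℤ_[p]) g * form c i)^[m] β) G' = 0 := fun m =>
    (hiff m).trans (hcore (RingHom.id ℤ_[p]) G' hG'e m)
  simp only [← hiff'] at hfin
  exact hfin


end Pool.Agent.Helper87.LD
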