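import Pool.Agent.Helper87.LD.MainU
import Pool.Agent.Helper87.LD.CoreV

/-!
# LD: almost all endomorphisms of the plane and of 3-space, with a number of sporadic returns which
is uniform in the family. Assembly
-/

set_option autoImplicit false

namespace Pool.Agent.Helper87.LD

open MvPolynomial
open Pool.Agent.Helper86.DML (pmap)
open Pool.Agent.Helper87.DMLP (primesFor not_summable_primesFor prime_of_mem_primesFor)
open Pool.Agent.Helper87.MQ (exists_field_emb_compat)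
open Pool.Agent.Helper26.LT (exists_ext_complex countable_closure)

noncomputable section

/-! ### One good prime -/

theorem dich_of_goodV {p : ℕ} [Fact p.Prime] (hp : 3 ≤ p) (n d δ : ℕ) :
    ∃ K₁ : ℕ, ∀ c : Idx n d → ℤ_[p], Good (form fun i => PadicInt.toZMod (c i)) →
      ∀ {L : Type} [Field L] {K : Type} [Field K] [Algebra L K] (φ : L →+* ℚ_[p])
      (b : Idx n d → L), (∀ i, φ (b i) = c i) → ∀ α : Fin n → L, α ≠ 0 →
      ∀ V : Set (MvPolynomial (Fin n) K), (∀ G ∈ V, ∃ e ≤ δ, G.IsHomogeneous e) → ∀ r : ℕ,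
      {k | p ^ n + r + perF n p * k ∈
        {k : ℕ | ∀ G ∈ V, eval ((pmap (form fun i => algebraMap L K (b i)))^[k]
          fun i => algebraMap L K (α i)) G = 0}}.encard ≤ K₁ ∨
      ∀ k, p ^ n + r + perF n p * k ∈
        {k : ℕ | ∀ G ∈ V, eval ((pmap (form fun i => algebraMap L K (b i)))^[k]
          fun i => algebraMap L K (α i)) G = 0} := by
  obtain ⟨K₁, hK⟩ := good_dml_univ hp n d δ
  refine ⟨K₁, ?_⟩
  intro c hG L _ K _ _ φ b hb α hα V hV r
  have h := hK c hG φ b hb α hα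
  have key : ∀ (k : ℕ) (G : MvPolynomial (Fin n) K),
      eval ((pmap (form fun i => algebraMap L K (b i)))^[k] fun i => algebraMap L K (α i)) G = 0 ↔
      ∀ u : K →ₗ[L] L, eval ((pmap (form b))^[k] α) (low u G) = 0 := by
    intro k G
    have h1 := pmap_map_iterate (algebraMap L K) (form b) k α
    rw [form_map] at h1
    rw [h1]
    exact eval_eq_zero_iff_low G _
  by_cases hall : ∀ G ∈ V, ∀ k, eval ((pmap (form fun i => algebraMap L K (b i)))^[p ^ n +
      r + perF n p * k] fun i => algebraMap L K (α i)) G = 0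
  · right
    intro k G hGV
    exact hall G hGV k
  · push Not at hall
    obtain ⟨G, hGV, k, hk⟩ := hall
    obtain ⟨e, heδ, he⟩ := hV G hGV
    have hk' : ∃ u : K →ₗ[L] L, eval ((pmap (form b))^[p ^ n + r +
        perF n p * k] α) (low u G) ≠ 0 := by
      by_contra hcon
      push Not at hcon
      exact hk ((key _ G).2 hcon)
    obtain ⟨u, hu⟩ := hk'
    rcases h e (low u G) (low_isHomogeneous u he) heδ r with h1 | h1
    · left
      refine le_trans (Set.encard_le_encard ?_) h1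
      intro k' hk'
      exact (key _ G).1 (hk' G hGV) u
    · exact absurd (h1 k) hu

/-- the residue classes of the generators at a prime for which the field embeds -/
theorem exists_residuesV (m : ℕ) (e : Fin m → ℂ) (he : e ≠ 0) (A : Finset ℂ)
    (heA : ∀ j, e j ∈ Subfield.closure (A : Set ℂ)) :
    ∃ A' : Finset ℂ, ∀ q ∈ primesFor A', 3 ≤ q → ∃ E : Fin m → ZMod q, E ≠ 0 ∧
      ∃ _ : Fact q.Prime, ∀ n d δ : ℕ, ∃ K : ℕ, ∀ c : Fin m × Idx n d → ℤ,
        Good (form (lc E fun j => (c j : ZMod q))) →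
        ∀ (s : ℕ) (t : Fin s → ℂ), AlgebraicIndependent (Subfield.closure (A : Set ℂ)) t →
        ∀ α : Fin n → ℂ, α ≠ 0 →
        (∀ i, α i ∈ Subfield.closure ((A : Set ℂ) ∪ Set.range t)) →
        ∀ V : Set (MvPolynomial (Fin n) ℂ), (∀ G ∈ V, ∃ e ≤ δ, G.IsHomogeneous e) → ∀ r : ℕ,
        {k | q ^ n + r + perF n q * k ∈
          {k : ℕ | ∀ G ∈ V, eval ((pmap (form (lc e fun j => (c j : ℂ))))^[k] α) G = 0}}.encard
            ≤ K ∨
        ∀ k, q ^ n + r + perF n q * k ∈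
          {k : ℕ | ∀ G ∈ V, eval ((pmap (form (lc e fun j => (c j : ℂ))))^[k] α) G = 0} := by
  classical
  obtain ⟨j₀, hj₀⟩ := Function.ne_iff.1 he
  set A' : Finset ℂ := A ∪ (Finset.univ.image e ∪ {(e j₀)⁻¹}) with hA'
  refine ⟨A', fun q hq hq3 => ?_⟩
  obtain ⟨hF, ι, φ, hφ⟩ := exists_field_emb_compat A' q hq
  have hej : ∀ j, e j ∈ Subring.closure (A' : Set ℂ) := fun j =>
    Subring.subset_closure (Finset.mem_coe.2 (Finset.mem_union_right _
      (Finset.mem_union_left _ (Finset.mem_image_of_mem _ (Finset.mem_univ j)))))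
  have hinv : (e j₀)⁻¹ ∈ Subring.closure (A' : Set ℂ) :=
    Subring.subset_closure (Finset.mem_coe.2 (Finset.mem_union_right _
      (Finset.mem_union_right _ (Finset.mem_singleton_self _))))
  have hle : Subring.closure (A' : Set ℂ) ≤ (Subfield.closure (A' : Set ℂ)).toSubring :=
    Subfield.subring_closure_le _
  have hAsub : (A : Set ℂ) ⊆ (A' : Set ℂ) := by
    rw [hA', Finset.coe_union]
    exact Set.subset_union_left
  have hAA' : Subfield.closure (A' : Set ℂ) = Subfield.closure (A : Set ℂ) := by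
    refine le_antisymm ?_ (Subfield.closure_mono hAsub)
    rw [Subfield.closure_le]
    intro z hz
    rw [Finset.mem_coe, hA', Finset.mem_union, Finset.mem_union, Finset.mem_image,
      Finset.mem_singleton] at hz
    rcases hz with hz | ⟨j, -, rfl⟩ | rfl
    · exact Subfield.subset_closure hz
    · exact heA j
    · exact inv_mem (heA j₀)
  refine ⟨fun j => PadicInt.toZMod (ι ⟨e j, hej j⟩), ?_, hF, ?_⟩
  · intro h0
    have h1 : (⟨e j₀, hej j₀⟩ : Subring.closure (A' : Set ℂ)) * ⟨(e j₀)⁻¹, hinv⟩ = 1 :=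
      Subtype.ext (mul_inv_cancel₀ hj₀)
    have h2 := congrArg (fun z => PadicInt.toZMod (ι z)) h1
    simp only [map_mul, map_one] at h2
    have h3 := congrFun h0 j₀
    simp only [Pi.zero_apply] at h3
    rw [h3, zero_mul] at h2
    exact zero_ne_one h2
  intro n d δ
  have hcL : ∀ j, e j ∈ Subfield.closure (A' : Set ℂ) := fun j => hle (hej j)
  obtain ⟨K₁, hK⟩ := dich_of_goodV hq3 n d δ
  refine ⟨K₁, ?_⟩
  intro c hG s t ht α hα hαL V hV r
  set cp : Idx n d → ℤ_[q] := lc (fun j => ι ⟨e j, hej j⟩) fun j => (c j : ℤ_[q]) with hcp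
  have h1 : (form fun i => PadicInt.toZMod (cp i)) =
      form (lc (fun j => PadicInt.toZMod (ι ⟨e j, hej j⟩)) fun j => (c j : ZMod q)) := by
    congr 1
    funext i
    rw [hcp, lc, lc, map_sum]
    refine Finset.sum_congr rfl fun j _ => ?_
    rw [map_mul, map_intCast]
  -- the transcendental extension
  obtain ⟨ψ, hψ⟩ := exists_ext_complex (Subfield.closure (A' : Set ℂ)) (countable_closure A') φ
    (t := t) (by rw [hAA']; exact ht)
  have hle' : Subfield.closure ((A : Set ℂ) ∪ Set.range t) ≤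
      Subfield.closure ((Subfield.closure (A' : Set ℂ) : Set ℂ) ∪ Set.range t) :=
    Subfield.closure_mono (Set.union_subset_union_left _
      (hAsub.trans Subfield.subset_closure))
  have hcM : ∀ j, e j ∈ Subfield.closure ((Subfield.closure (A' : Set ℂ) : Set ℂ) ∪ Set.range t) :=
    fun j => Subfield.subset_closure (Or.inl (hcL j))
  set b : Idx n d → Subfield.closure ((Subfield.closure (A' : Set ℂ) : Set ℂ) ∪ Set.range t) :=
    lc (fun j => (⟨e j, hcM j⟩ : Subfield.closure ((Subfield.closure (A' : Set ℂ) : Set ℂ) ∪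
      Set.range t))) fun j => (c j : Subfield.closure ((Subfield.closure (A' : Set ℂ) : Set ℂ) ∪
        Set.range t)) with hb
  have h2 : ∀ i, ψ (b i) = cp i := by
    intro i
    have h3 : ((cp i : ℤ_[q]) : ℚ_[q]) = (PadicInt.Coe.ringHom : ℤ_[q] →+* ℚ_[q]) (cp i) := rfl
    rw [h3, hb, hcp, lc, lc, map_sum, map_sum]
    refine Finset.sum_congr rfl fun j _ => ?_
    rw [map_mul, map_mul, map_intCast, map_intCast, hψ (e j) (hcL j) (hcM j),
      hφ (e j) (hej j) (hcL j)]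
    rfl
  have h3 : (form fun i => algebraMap (Subfield.closure ((Subfield.closure (A' : Set ℂ) : Set ℂ) ∪
      Set.range t)) ℂ (b i)) = form (lc e fun j => (c j : ℂ)) := by
    congr 1
    funext i
    rw [hb, lc, lc, map_sum]
    refine Finset.sum_congr rfl fun j _ => ?_
    rw [map_mul, map_intCast]
    rfl
  have h4 := hK cp (by rw [h1]; exact hG) (K := ℂ) ψ b h2
    (fun i => ⟨α i, hle' (hαL i)⟩) (fun h0 => hα (funext fun i =>
      congrArg Subtype.val (congrFun h0 i))) V hV r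
  rw [h3] at h4
  exact h4

/-- **Main theorem.** -/
theorem ldv_main (n : ℕ) (hn : n = 3 ∨ n = 4) (m : ℕ) (e : Fin m → ℂ) (he : e ≠ 0) (A : Finset ℂ)
    (heA : ∀ j, e j ∈ Subfield.closure (A : Set ℂ)) (ε : ℝ) (hε : 0 < ε) :
    ∃ d₀ n₀ Q : ℕ, 1 ≤ Q ∧ ∀ d : ℕ, d₀ ≤ d → ∃ (K : ℕ → ℕ) (B₀ : ℕ), ∀ B : ℕ, B₀ ≤ B →
      (1 - ε) * (2 * (B : ℝ) + 1) ^ Fintype.card (Fin m × Idx n d) ≤
        ({c : Fin m × Idx n d → ℤ | (∀ i, |c i| ≤ (B : ℤ)) ∧
          (∀ z : Fin n → ℂ, (∀ i, eval z (form (lc e fun j => (c j : ℂ)) i) = 0) → z = 0) ∧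
          ∀ (s : ℕ) (t : Fin s → ℂ),
            AlgebraicIndependent (Subfield.closure (A : Set ℂ)) t →
            ∀ α : Fin n → ℂ, α ≠ 0 →
            (∀ i, α i ∈ Subfield.closure ((A : Set ℂ) ∪ Set.range t)) →
            ∀ (δ : ℕ) (V : Set (MvPolynomial (Fin n) ℂ)), (∀ G ∈ V, ∃ e ≤ δ, G.IsHomogeneous e) →
              IsAPU n₀ Q (K δ) {k : ℕ | ∀ G ∈ V,
                eval ((pmap (form (lc e fun j => (c j : ℂ))))^[k] α) G = 0}}.ncard : ℝ) := by
  classical
  obtain ⟨A', hA'⟩ := exists_residuesV m e he A heA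
  obtain ⟨P, hP, hprod⟩ := exists_primes_prod (primesFor A') (not_summable_primesFor A')
    (prime_of_mem_primesFor A') (ε / 3) (by linarith)
  have hPprime : ∀ q ∈ P, q.Prime := fun q hq => prime_of_mem_primesFor A' q (hP q hq).1
  have hbd : ∀ q : ℕ, ∃ m n₁ Q₁ : ℕ, 1 ≤ Q₁ ∧ ∀ _ : Fact q.Prime,
      2 * Nat.card (Projectivization (ZMod q) (Fin n → ZMod q)) ≤ m ∧
        n₁ = q ^ n ∧ Q₁ = perF n q := by
    intro q
    by_cases hq : q.Prime
    · haveI := Fact.mk hq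
      exact ⟨2 * Nat.card (Projectivization (ZMod q) (Fin n → ZMod q)), q ^ n,
        perF n q, perF_pos n hq.pos, fun _ => ⟨le_refl _, rfl, rfl⟩⟩
    · exact ⟨0, 0, 1, le_refl _, fun h => absurd h.out hq⟩
  choose mq nq Tq hTq hmq using hbd
  have hEex : ∀ q : ℕ, ∃ E : Fin m → ZMod q, q ∈ P → (E ≠ 0 ∧
      ∃ _ : Fact q.Prime, ∀ n d δ : ℕ, ∃ K : ℕ, ∀ c : Fin m × Idx n d → ℤ,
        Good (form (lc E fun j => (c j : ZMod q))) →
        ∀ (s : ℕ) (t : Fin s → ℂ), AlgebraicIndependent (Subfield.closure (A : Set ℂ)) t →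
        ∀ α : Fin n → ℂ, α ≠ 0 →
        (∀ i, α i ∈ Subfield.closure ((A : Set ℂ) ∪ Set.range t)) →
        ∀ V : Set (MvPolynomial (Fin n) ℂ), (∀ G ∈ V, ∃ e ≤ δ, G.IsHomogeneous e) → ∀ r : ℕ,
        {k | q ^ n + r + perF n q * k ∈
          {k : ℕ | ∀ G ∈ V, eval ((pmap (form (lc e fun j => (c j : ℂ))))^[k] α) G = 0}}.encard
            ≤ K ∨
        ∀ k, q ^ n + r + perF n q * k ∈
          {k : ℕ | ∀ G ∈ V, eval ((pmap (form (lc e fun j => (c j : ℂ))))^[k] α) G = 0}) := by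
    intro q
    by_cases hq : q ∈ P
    · obtain ⟨E, hE⟩ := hA' q (hP q hq).1 (by have := (hP q hq).2; omega)
      exact ⟨E, fun _ => hE⟩
    · exact ⟨0, fun h => absurd h hq⟩
  choose E hE using hEex
  have hQpos : 1 ≤ ∏ q ∈ P, Tq q := Nat.succ_le_of_lt (Finset.prod_pos fun q _ => hTq q)
  refine ⟨(∑ q ∈ P, mq q) + 1, ∑ q ∈ P, nq q, ∏ q ∈ P, Tq q, hQpos, fun d hd => ?_⟩
  have hKex : ∀ q δ : ℕ, ∃ K : ℕ, q ∈ P → ∃ _ : Fact q.Prime, ∀ c : Fin m × Idx n d → ℤ,
        Good (form (lc (E q) fun j => (c j : ZMod q))) →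
        ∀ (s : ℕ) (t : Fin s → ℂ), AlgebraicIndependent (Subfield.closure (A : Set ℂ)) t →
        ∀ α : Fin n → ℂ, α ≠ 0 →
        (∀ i, α i ∈ Subfield.closure ((A : Set ℂ) ∪ Set.range t)) →
        ∀ V : Set (MvPolynomial (Fin n) ℂ), (∀ G ∈ V, ∃ e ≤ δ, G.IsHomogeneous e) → ∀ r : ℕ,
        {k | q ^ n + r + perF n q * k ∈
          {k : ℕ | ∀ G ∈ V, eval ((pmap (form (lc e fun j => (c j : ℂ))))^[k] α) G = 0}}.encard
            ≤ K ∨
        ∀ k, q ^ n + r + perF n q * k ∈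
          {k : ℕ | ∀ G ∈ V, eval ((pmap (form (lc e fun j => (c j : ℂ))))^[k] α) G = 0} := by
    intro q δ
    by_cases hq : q ∈ P
    · obtain ⟨hF, hfinal⟩ := (hE q hq).2
      obtain ⟨K, hK⟩ := hfinal n d δ
      exact ⟨K, fun _ => ⟨hF, hK⟩⟩
    · exact ⟨0, fun h => absurd h hq⟩
  choose Kq hKq using hKex
  refine ⟨fun δ => (∑ q ∈ P, nq q) + (∏ q ∈ P, Tq q) * ∑ q ∈ P, Kq q δ, ?_⟩
  have hdq : ∀ q ∈ P, mq q ≤ d := fun q hq =>
    (Finset.single_le_sum (fun _ _ => Nat.zero_le _) hq).trans (by omega)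
  obtain ⟨B₁, hB₁⟩ := sieve_box (ι := Fin m × Idx n d) P hPprime
    (fun q => BadE n d m q (E q)) (fun q => 1 / (4096 * (q : ℝ)))
    (fun q hq => by
      haveI := Fact.mk (hPprime q hq)
      exact badE_ncard hn (hP q hq).2 d m ((hmq q inferInstance).1.trans (hdq q hq)) (E q)
        (hE q hq).1)
    (ε / 3) (by linarith)
  obtain ⟨B₂, hB₂⟩ := endo_boxC n d m e he (ε / 3) (by linarith)
  refine ⟨max B₁ B₂, fun B hB => ?_⟩
  have h1 := hB₁ B ((le_max_left _ _).trans hB)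
  have h2 := hB₂ B ((le_max_right _ _).trans hB)
  set X : Set (Fin m × Idx n d → ℤ) := {c | (∀ i, |c i| ≤ (B : ℤ)) ∧
    ∀ p ∈ P, (fun i => (c i : ZMod p)) ∈ BadE n d m p (E p)} with hX
  set Y : Set (Fin m × Idx n d → ℤ) := {c | (∀ i, |c i| ≤ (B : ℤ)) ∧
    ¬ ∀ z : Fin n → ℂ, (∀ i, eval z (form (lc e fun j => (c j : ℂ)) i) = 0) → z = 0} with hY
  set Z : Set (Fin m × Idx n d → ℤ) := {c : Fin m × Idx n d → ℤ | (∀ i, |c i| ≤ (B : ℤ)) ∧
    (∀ z : Fin n → ℂ, (∀ i, eval z (form (lc e fun j => (c j : ℂ)) i) = 0) → z = 0) ∧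
      ∀ (s : ℕ) (t : Fin s → ℂ),
        AlgebraicIndependent (Subfield.closure (A : Set ℂ)) t →
        ∀ α : Fin n → ℂ, α ≠ 0 →
        (∀ i, α i ∈ Subfield.closure ((A : Set ℂ) ∪ Set.range t)) →
        ∀ (δ : ℕ) (V : Set (MvPolynomial (Fin n) ℂ)), (∀ G ∈ V, ∃ e ≤ δ, G.IsHomogeneous e) →
          IsAPU (∑ q ∈ P, nq q) (∏ q ∈ P, Tq q)
            ((∑ q ∈ P, nq q) + (∏ q ∈ P, Tq q) * ∑ q ∈ P, Kq q δ) {k : ℕ | ∀ G ∈ V,
            eval ((pmap (form (lc e fun j => (c j : ℂ))))^[k] α) G = 0}} with hZ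
  have hfin := box_finite (ι := Fin m × Idx n d) B
  have hsub : {c : Fin m × Idx n d → ℤ | ∀ i, |c i| ≤ (B : ℤ)} ⊆ Z ∪ (X ∪ Y) := by
    intro c hc
    by_cases hcY : c ∈ Y
    · exact Or.inr (Or.inr hcY)
    by_cases hcX : c ∈ X
    · exact Or.inr (Or.inl hcX)
    left
    refine ⟨hc, ?_, ?_⟩
    · by_contra hcon
      exact hcY ⟨hc, hcon⟩
    · have h3 : ∃ q ∈ P, ∃ _ : Fact q.Prime,
          Good (form (lc (E q) fun j => (c j : ZMod q))) := by
        by_contra hcon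
        refine hcX ⟨hc, fun q hq h => ?_⟩
        exact hcon ⟨q, hq, h⟩
      obtain ⟨q, hq, _, hgood⟩ := h3
      intro s t ht α hα hαL δ V hV
      obtain ⟨-, hnq, hTq2⟩ := hmq q inferInstance
      obtain ⟨_, hK⟩ := hKq q δ hq
      refine isAPU_of_dich _ hQpos fun r => ?_
      refine dich_monoU (n₁ := nq q) (Q₁ := Tq q)
        (Finset.single_le_sum (fun _ _ => Nat.zero_le _) hq)
        hQpos (Finset.dvd_prod_of_mem _ hq) (fun r => ?_) r
      rw [hnq, hTq2]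
      rcases hK c hgood s t ht α hα hαL V hV r with h4 | h4
      · left
        have h5 : Kq q δ ≤ ∑ q ∈ P, Kq q δ :=
          Finset.single_le_sum (f := fun q => Kq q δ) (fun _ _ => Nat.zero_le _) hq
        have h6 : ((Kq q δ : ℕ) : ℕ∞) ≤ ((∑ q ∈ P, Kq q δ : ℕ) : ℕ∞) := by exact_mod_cast h5
        exact h4.trans h6
      · exact Or.inr h4
  have h3 : ({c : Fin m × Idx n d → ℤ | ∀ i, |c i| ≤ (B : ℤ)}.ncard : ℝ) ≤
      (Z.ncard : ℝ) + ((X.ncard : ℝ) + (Y.ncard : ℝ)) := by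
    have hfin' : (Z ∪ (X ∪ Y)).Finite := by
      refine hfin.subset ?_
      rintro c (hc | hc | hc)
      · exact hc.1
      · exact hc.1
      · exact hc.1
    have h4 := (Set.ncard_le_ncard hsub hfin').trans ((Set.ncard_union_le _ _).trans
      (Nat.add_le_add_left (Set.ncard_union_le _ _) _))
    exact_mod_cast h4
  rw [box_ncard] at h3
  have h5 : 0 ≤ (2 * (B : ℝ) + 1) ^ Fintype.card (Fin m × Idx n d) := by positivity
  have h6 := mul_le_mul_of_nonneg_right hprod h5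
  rw [add_mul] at h1
  linarith

end

end Pool.Agent.Helper87.LD
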