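import Pool.Agent.Helper87.LD.Defs

/-!
# LD: good reduction at all points of degree at most `D`
-/

set_option autoImplicit false

namespace Pool.Agent.Helper87.LD

open MvPolynomial

/-- `F` is good over all fields with at most `p ^ D` elements -/
def GoodD (D : ℕ) {n p : ℕ} [Fact p.Prime] (F : Fin n → MvPolynomial (Fin n) (ZMod p)) : Prop :=
  ∀ (k : Type) [Field k] [Finite k] (φ : ZMod p →+* k), Nat.card k ≤ p ^ D →
    Good (fun i => map φ (F i))

end Pool.Agent.Helper87.LD
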