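import Pool.Agent.Helper87.LD.Defs

/-!
# LD, block L: counting the matrices which are ramified
-/

set_option autoImplicit false

namespace Pool.Agent.Helper87.LD

open MvPolynomial

variable {n p : ℕ} [Fact p.Prime]

/-- the matrices with prescribed values at linearly independent vectors -/
private theorem card_lin85 {ι : Type} [Fintype ι] (v : ι → Fin n → ZMod p) (hv : LinearIndependent (ZMod p) v)
    (w : ι → Fin n → ZMod p) :
    Nat.card {W : Matrix (Fin n) (Fin n) (ZMod p) // ∀ i, W.mulVec (v i) = w i} * (p ^ n) ^ Fintype.card ι = p ^ (n * n) := by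
  classical
  let T : Matrix (Fin n) (Fin n) (ZMod p) →+ (ι → Fin n → ZMod p) :=
    { toFun := fun W i => W.mulVec (v i)
      map_zero' := by
        funext i
        simp
      map_add' := fun A B => by
        funext i
        simp [Matrix.add_mulVec] }
  have hT : Function.Surjective T := by
    intro w
    let f : Submodule.span (ZMod p) (Set.range v) →ₗ[ZMod p] (Fin n → ZMod p) :=
      (Module.Basis.span hv).constr (ZMod p) w
    obtain ⟨g, hg⟩ := LinearMap.exists_extend f
    refine ⟨LinearMap.toMatrix' g, ?_⟩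
    funext i
    show (LinearMap.toMatrix' g).mulVec (v i) = w i
    rw [LinearMap.toMatrix'_mulVec]
    have h1 : g (v i) = f ⟨v i, Submodule.subset_span ⟨i, rfl⟩⟩ := by
      rw [← hg]; rfl
    rw [h1]
    have h2 : (⟨v i, Submodule.subset_span ⟨i, rfl⟩⟩ : Submodule.span (ZMod p) (Set.range v)) =
        Module.Basis.span hv i := by
      apply Subtype.ext
      rw [Module.Basis.span_apply]
    rw [h2]
    exact Module.Basis.constr_basis _ _ _ _
  obtain ⟨W0, hW0⟩ := hT w
  have e1 : Nat.card {W : Matrix (Fin n) (Fin n) (ZMod p) // ∀ i, W.mulVec (v i) = w i} = Nat.card T.ker := by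
    refine Nat.card_congr
      { toFun := fun W => ⟨W.1 - W0, ?_⟩
        invFun := fun K => ⟨K.1 + W0, ?_⟩
        left_inv := fun W => Subtype.ext (by simp)
        right_inv := fun K => Subtype.ext (by simp) }
    · rw [AddMonoidHom.mem_ker, map_sub, hW0, sub_eq_zero]
      funext i
      exact W.2 i
    · intro i
      have h1 : T (K.1 + W0) = w := by
        rw [map_add, AddMonoidHom.mem_ker.1 K.2, zero_add, hW0]
      exact congrFun h1 i
  have e2 : Nat.card T.ker * Nat.card (ι → Fin n → ZMod p) = Nat.card (Matrix (Fin n) (Fin n) (ZMod p)) := by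
    have h1 := AddSubgroup.card_mul_index T.ker
    rw [← h1]
    congr 1
    rw [AddSubgroup.index_ker, AddMonoidHom.range_eq_top_of_surjective T hT]
    exact (Nat.card_congr AddSubgroup.topEquiv.toEquiv).symm
  rw [e1]
  have e3 : Nat.card (ι → Fin n → ZMod p) = (p ^ n) ^ Fintype.card ι := by
    rw [Nat.card_eq_fintype_card, Fintype.card_fun, Fintype.card_fun, ZMod.card, Fintype.card_fin]
  have e4 : Nat.card (Matrix (Fin n) (Fin n) (ZMod p)) = p ^ (n * n) := by
    show Nat.card (Fin n → Fin n → ZMod p) = _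
    rw [Nat.card_eq_fintype_card, Fintype.card_fun, Fintype.card_fun, ZMod.card, Fintype.card_fin, ← pow_mul]
  rw [← e3, e2, e4]

private theorem n_pos85 {x : Fin n → ZMod p} (hx : x ≠ 0) : 1 ≤ n := by
  rcases Nat.eq_zero_or_pos n with rfl | h
  · exact absurd (Subsingleton.elim x 0) hx
  · exact h

/-- the matrices with `W x = a` -/
theorem card_mulVec_eq (x a : Fin n → ZMod p) (hx : x ≠ 0) :
    Nat.card {W : Matrix (Fin n) (Fin n) (ZMod p) // W.mulVec x = a} = p ^ (n * (n - 1)) := by
  have hp : 0 < p := (Fact.out : p.Prime).pos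
  have h1 := card_lin85 (ι := Unit) (fun _ => x) (by
    rw [linearIndependent_unique_iff]
    exact hx) (fun _ => a)
  have e : Nat.card {W : Matrix (Fin n) (Fin n) (ZMod p) // ∀ _ : Unit, W.mulVec x = a} =
      Nat.card {W : Matrix (Fin n) (Fin n) (ZMod p) // W.mulVec x = a} :=
    Nat.card_congr (Equiv.subtypeEquivRight fun W => ⟨fun h => h (), fun h _ => h⟩)
  rw [e, Fintype.card_unit, pow_one] at h1
  have hn := n_pos85 hx
  have h2 : p ^ (n * (n - 1)) * p ^ n = p ^ (n * n) := by
    rw [← pow_add]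
    congr 1
    obtain ⟨m, rfl⟩ : ∃ m, n = m + 1 := ⟨n - 1, by omega⟩
    simp only [Nat.add_sub_cancel]
    ring
  exact Nat.eq_of_mul_eq_mul_right (pow_pos hp n) (h1.trans h2.symm)

/-- the matrices with `W x = a`, `W y = b` -/
private theorem card_two85 (x y a b : Fin n → ZMod p) (hx : x ≠ 0) (hy : ∀ t : ZMod p, y ≠ t • x) :
    Nat.card {W : Matrix (Fin n) (Fin n) (ZMod p) // W.mulVec x = a ∧ W.mulVec y = b} * (p ^ n * p ^ n) = p ^ (n * n) := by
  have h1 := card_lin85 (ι := Fin 2) ![x, y] (by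
    rw [LinearIndependent.pair_iff' hx]
    intro t h
    exact hy t h.symm) ![a, b]
  have e : Nat.card {W : Matrix (Fin n) (Fin n) (ZMod p) // ∀ i : Fin 2, W.mulVec (![x, y] i) = ![a, b] i} =
      Nat.card {W : Matrix (Fin n) (Fin n) (ZMod p) // W.mulVec x = a ∧ W.mulVec y = b} :=
    Nat.card_congr (Equiv.subtypeEquivRight fun W => by
      rw [Fin.forall_fin_two]
      rfl)
  rw [e, Fintype.card_fin, pow_two] at h1
  exact h1

open Classical in
/-- at least `(p - 2) / (p - 1)` of the matrices with `W x = a v` are unramified -/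
theorem card_etale (x v : Fin n → ZMod p) (hx : x ≠ 0) (hv : v ≠ 0) (a : ZMod p) :
    (p - 2) * p ^ (n * (n - 1)) ≤ (p - 1) *
      Nat.card {W : Matrix (Fin n) (Fin n) (ZMod p) // W.mulVec x = a • v ∧ Etale x v W} := by
  have hp := (Fact.out : p.Prime)
  have hp0 : 0 < p := hp.pos
  have hp2 : 2 ≤ p := hp.two_le
  have hn := n_pos85 hx
  set A : Finset (Matrix (Fin n) (Fin n) (ZMod p)) := Finset.univ.filter (fun W => W.mulVec x = a • v) with hA
  have hAc : A.card = p ^ (n * (n - 1)) := by
    rw [← card_mulVec_eq x (a • v) hx, Nat.card_eq_fintype_card, Fintype.card_subtype]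
  set N := A.filter (fun W => ¬ Etale x v W) with hN
  have hEt : Nat.card {W : Matrix (Fin n) (Fin n) (ZMod p) // W.mulVec x = a • v ∧ Etale x v W} + N.card =
      p ^ (n * (n - 1)) := by
    rw [← hAc, Nat.card_eq_fintype_card, Fintype.card_subtype, hN, hA]
    rw [← Finset.card_filter_add_card_filter_not (s := Finset.univ.filter (fun W => W.mulVec x = a • v))
      (fun W => Etale x v W), Finset.filter_filter, Finset.filter_filter]
  -- the pairs
  set Y : Finset (Fin n → ZMod p) := Finset.univ.filter (fun y => ∀ t : ZMod p, y ≠ t • x) with hY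
  have hYc : Y.card ≤ p ^ n := by
    refine (Finset.card_filter_le _ _).trans (le_of_eq ?_)
    rw [Finset.card_univ, Fintype.card_fun, ZMod.card, Fintype.card_fin]
  let r : Matrix (Fin n) (Fin n) (ZMod p) → (Fin n → ZMod p) → Prop := fun W y => ∃ t : ZMod p, W.mulVec y = t • v
  have hlow : ∀ W ∈ N, (p - 1) * p ≤ (Y.filter (fun y => r W y)).card := by
    intro W hW
    obtain ⟨hWA, hWe⟩ := Finset.mem_filter.1 hW
    have hWx : W.mulVec x = a • v := (Finset.mem_filter.1 hWA).2
    unfold Etale at hWe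
    push Not at hWe
    obtain ⟨y0, ⟨t0, ht0⟩, hy0⟩ := hWe
    have hcard : ((Finset.univ : Finset ((ZMod p)ˣ × ZMod p))).card = (p - 1) * p := by
      rw [Finset.card_univ, Fintype.card_prod, ZMod.card_units_eq_totient, Nat.totient_prime hp, ZMod.card]
    rw [← hcard]
    refine Finset.card_le_card_of_injOn (fun q => (q.1 : ZMod p) • y0 + q.2 • x) ?_ ?_
    · intro q _
      refine Finset.mem_coe.2 (Finset.mem_filter.2 ⟨Finset.mem_filter.2 ⟨Finset.mem_univ _, fun s hs => ?_⟩, ?_⟩)
      · apply hy0 ((q.1⁻¹ : (ZMod p)ˣ) * (s - q.2))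
        have hs' : (q.1 : ZMod p) • y0 + q.2 • x = s • x := hs
        have h1 : (q.1 : ZMod p) • y0 = (s - q.2) • x := by
          rw [sub_smul, ← hs']
          abel
        calc y0 = ((q.1⁻¹ : (ZMod p)ˣ) : ZMod p) • ((q.1 : ZMod p) • y0) := by
              rw [smul_smul, Units.inv_mul, one_smul]
          _ = _ := by rw [h1, smul_smul]
      · refine ⟨(q.1 : ZMod p) * t0 + q.2 * a, ?_⟩
        rw [Matrix.mulVec_add, Matrix.mulVec_smul, Matrix.mulVec_smul, ht0, hWx, smul_smul, smul_smul, add_smul]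
    · intro q _ q' _ h
      have h' : (q.1 : ZMod p) • y0 + q.2 • x = (q'.1 : ZMod p) • y0 + q'.2 • x := h
      have h1 : ((q.1 : ZMod p) - q'.1) • y0 = (q'.2 - q.2) • x := by
        rw [sub_smul, sub_smul, sub_eq_sub_iff_add_eq_add]
        rw [h']
        abel
      have h2 : (q.1 : ZMod p) = q'.1 := by
        by_contra hne
        have hne' : (q.1 : ZMod p) - q'.1 ≠ 0 := sub_ne_zero.2 hne
        apply hy0 (((q.1 : ZMod p) - q'.1)⁻¹ * (q'.2 - q.2))
        calc y0 = ((q.1 : ZMod p) - q'.1)⁻¹ • (((q.1 : ZMod p) - q'.1) • y0) := by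
              rw [smul_smul, inv_mul_cancel₀ hne', one_smul]
          _ = _ := by rw [h1, smul_smul]
      rw [h2, sub_self, zero_smul] at h1
      have h3 : q'.2 - q.2 = 0 := by
        rcases smul_eq_zero.1 h1.symm with h4 | h4
        · exact h4
        · exact absurd h4 hx
      exact Prod.ext (Units.ext h2) (sub_eq_zero.1 h3).symm
  have hupp : ∀ y ∈ Y, (A.filter (fun W => r W y)).card * (p ^ n * p ^ n) ≤ p * p ^ (n * n) := by
    intro y hy
    have hy' : ∀ t : ZMod p, y ≠ t • x := (Finset.mem_filter.1 hy).2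
    have h1 : (A.filter (fun W => r W y)).card ≤ ∑ t : ZMod p,
        (Finset.univ.filter (fun W : Matrix (Fin n) (Fin n) (ZMod p) => W.mulVec x = a • v ∧ W.mulVec y = t • v)).card := by
      refine le_trans (Finset.card_le_card ?_) Finset.card_biUnion_le
      intro W hW
      obtain ⟨hWA, t, ht⟩ := Finset.mem_filter.1 hW
      exact Finset.mem_biUnion.2 ⟨t, Finset.mem_univ _, Finset.mem_filter.2
        ⟨Finset.mem_univ _, (Finset.mem_filter.1 hWA).2, ht⟩⟩
    refine (Nat.mul_le_mul_right _ h1).trans (le_of_eq ?_)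
    rw [Finset.sum_mul]
    have h2 : ∀ t ∈ (Finset.univ : Finset (ZMod p)), (Finset.univ.filter (fun W : Matrix (Fin n) (Fin n) (ZMod p) =>
        W.mulVec x = a • v ∧ W.mulVec y = t • v)).card * (p ^ n * p ^ n) = p ^ (n * n) := by
      intro t _
      rw [← card_two85 x y (a • v) (t • v) hx hy', Nat.card_eq_fintype_card, Fintype.card_subtype]
    rw [Finset.sum_congr rfl h2, Finset.sum_const, Finset.card_univ, ZMod.card, smul_eq_mul]
  have hdc : N.card * ((p - 1) * p) * (p ^ n * p ^ n) ≤ p ^ n * (p * p ^ (n * n)) := by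
    have h1 : N.card * ((p - 1) * p) ≤ ∑ W ∈ N, (Y.filter (fun y => r W y)).card := by
      rw [← smul_eq_mul, ← Finset.sum_const]
      exact Finset.sum_le_sum hlow
    have h2 : ∑ W ∈ N, (Y.filter (fun y => r W y)).card ≤ ∑ y ∈ Y, (A.filter (fun W => r W y)).card := by
      refine le_trans (Finset.sum_le_sum_of_subset (Finset.filter_subset _ _)) (le_of_eq ?_)
      exact Finset.sum_card_bipartiteAbove_eq_sum_card_bipartiteBelow r
    calc N.card * ((p - 1) * p) * (p ^ n * p ^ n) ≤ (∑ y ∈ Y, (A.filter (fun W => r W y)).card) * (p ^ n * p ^ n) :=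
          Nat.mul_le_mul_right _ (h1.trans h2)
      _ = ∑ y ∈ Y, (A.filter (fun W => r W y)).card * (p ^ n * p ^ n) := by rw [Finset.sum_mul]
      _ ≤ ∑ y ∈ Y, p * p ^ (n * n) := Finset.sum_le_sum hupp
      _ = Y.card * (p * p ^ (n * n)) := by rw [Finset.sum_const, smul_eq_mul]
      _ ≤ p ^ n * (p * p ^ (n * n)) := Nat.mul_le_mul_right _ hYc
  have hNb : (p - 1) * N.card ≤ p ^ (n * (n - 1)) := by
    have hq : p ^ (n * n) = p ^ (n * (n - 1)) * p ^ n := by
      rw [← pow_add]
      congr 1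
      obtain ⟨m, rfl⟩ : ∃ m, n = m + 1 := ⟨n - 1, by omega⟩
      simp only [Nat.add_sub_cancel]
      ring
    have hpos : 0 < p * (p ^ n * p ^ n) := by positivity
    refine Nat.le_of_mul_le_mul_right ?_ hpos
    calc (p - 1) * N.card * (p * (p ^ n * p ^ n)) = N.card * ((p - 1) * p) * (p ^ n * p ^ n) := by ring
      _ ≤ p ^ n * (p * p ^ (n * n)) := hdc
      _ = p ^ (n * (n - 1)) * (p * (p ^ n * p ^ n)) := by rw [hq]; ring
  have h5 : (p - 2) * p ^ (n * (n - 1)) + p ^ (n * (n - 1)) = (p - 1) * p ^ (n * (n - 1)) := by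
    obtain ⟨m, rfl⟩ : ∃ m, p = m + 2 := ⟨p - 2, by omega⟩
    simp only [Nat.add_sub_cancel]
    have : m + 2 - 1 = m + 1 := by omega
    rw [this]
    ring
  have h6 : (p - 1) * p ^ (n * (n - 1)) = (p - 1) * Nat.card {W : Matrix (Fin n) (Fin n) (ZMod p) //
      W.mulVec x = a • v ∧ Etale x v W} + (p - 1) * N.card := by
    rw [← mul_add, hEt]
  omega

end Pool.Agent.Helper87.LD
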