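import Pool.Agent.Helper87.LD.Defs

/-!
# LD, block E: almost all integral tuples of forms define an endomorphism
-/

set_option autoImplicit false

namespace Pool.Agent.Helper87.LD

open MvPolynomial

/-- the number of zeros of a polynomial in a box -/
theorem zeros_box {ι : Type} [Fintype ι] {p : MvPolynomial ι ℤ} (hp : p ≠ 0) :
    ∃ D : ℕ, ∀ B : ℕ, ({c : ι → ℤ | (∀ i, |c i| ≤ (B : ℤ)) ∧ eval c p = 0}.ncard : ℝ) *
      (2 * (B : ℝ) + 1) ≤ D * (2 * (B : ℝ) + 1) ^ Fintype.card ι := by
  classical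
  set e := Fintype.equivFin ι
  have hp' : rename e p ≠ 0 := by
    intro h
    exact hp (rename_injective e e.injective (by rw [h, map_zero]))
  refine ⟨(rename e p).totalDegree, fun B => ?_⟩
  have h1 := schwartz_zippel_totalDegree hp' (Finset.Icc (-(B : ℤ)) B)
  have h2 : (Finset.Icc (-(B : ℤ)) B).card = 2 * B + 1 := by
    rw [Int.card_Icc]
    omega
  rw [h2] at h1
  set F := Finset.filter (fun f => eval f (rename e p) = 0)
    (Fintype.piFinset fun _ : Fin (Fintype.card ι) => Finset.Icc (-(B : ℤ)) B) with hF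
  have h3 : {c : ι → ℤ | (∀ i, |c i| ≤ (B : ℤ)) ∧ eval c p = 0}.ncard ≤ F.card := by
    rw [← Set.ncard_coe_finset]
    refine Set.ncard_le_ncard_of_injOn (fun c => c ∘ e.symm) ?_ ?_ (Finset.finite_toSet _)
    · rintro c ⟨h4, h5⟩
      rw [Finset.mem_coe, hF, Finset.mem_filter, Fintype.mem_piFinset]
      refine ⟨fun a => ?_, ?_⟩
      · rw [Finset.mem_Icc]
        exact abs_le.1 (h4 _)
      · rw [eval_rename]
        have : (c ∘ e.symm) ∘ e = c := by
          funext i
          simp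
        rw [this]
        exact h5
    · intro c _ c' _ h
      funext i
      have := congrFun h (e i)
      simpa using this
  have h4 : (F.card : ℝ) / (2 * (B : ℝ) + 1) ^ Fintype.card ι ≤
      ((rename e p).totalDegree : ℝ) / (2 * (B : ℝ) + 1) := by
    have h5 : (((F.card : ℚ≥0) / ((2 * B + 1 : ℕ) : ℚ≥0) ^ Fintype.card ι : ℚ≥0) : ℝ) ≤
        ((((rename e p).totalDegree : ℚ≥0) / ((2 * B + 1 : ℕ) : ℚ≥0) : ℚ≥0) : ℝ) := by
      exact_mod_cast h1
    push_cast at h5
    exact h5
  have hB : (0 : ℝ) < 2 * (B : ℝ) + 1 := by positivity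
  rw [div_le_div_iff₀ (by positivity) hB] at h4
  calc ({c : ι → ℤ | (∀ i, |c i| ≤ (B : ℤ)) ∧ eval c p = 0}.ncard : ℝ) * (2 * (B : ℝ) + 1)
      ≤ F.card * (2 * (B : ℝ) + 1) := by
        have : ({c : ι → ℤ | (∀ i, |c i| ≤ (B : ℤ)) ∧ eval c p = 0}.ncard : ℝ) ≤ F.card := by
          exact_mod_cast h3
        exact mul_le_mul_of_nonneg_right this hB.le
    _ ≤ _ := h4

section

variable {n d : ℕ}

/-- the degree of the square Macaulay matrix -/
abbrev top (n d : ℕ) : ℕ := n * (d - 1) + 1

/-- the monomials of this degree -/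
abbrev Mon (n d : ℕ) : Type := {s : Fin n →₀ ℕ // s ∈ ex n (top n d)}

theorem exists_ge (m : Mon n d) : ∃ i, d ≤ m.1 i := by
  by_contra h
  push Not at h
  have h1 := mem_ex.1 m.2
  have h2 : ∑ i, m.1 i ≤ ∑ _i : Fin n, (d - 1) :=
    Finset.sum_le_sum fun i _ => by
      have := h i
      omega
  rw [Finset.sum_const, Finset.card_univ, Fintype.card_fin, smul_eq_mul] at h2
  simp only [top] at h1
  omega

/-- a variable whose `d`-th power divides the monomial -/
noncomputable def pick (m : Mon n d) : Fin n := (exists_ge m).choose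

theorem le_pick (m : Mon n d) : d ≤ m.1 (pick m) := (exists_ge m).choose_spec

theorem sub_add_pick (m : Mon n d) :
    m.1 - Finsupp.single (pick m) d + Finsupp.single (pick m) d = m.1 := by
  ext i
  have h1 := le_pick m
  by_cases h : i = pick m
  · subst h
    simp only [Finsupp.add_apply, Finsupp.tsub_apply, Finsupp.single_eq_same]
    omega
  · simp only [Finsupp.add_apply, Finsupp.tsub_apply, Finsupp.single_apply]
    rw [if_neg (fun h' => h h'.symm)]
    omega

/-- the columns of the Macaulay matrix -/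
noncomputable def col {R : Type*} [CommRing R] (c : Idx n d → R) (m : Mon n d) :
    MvPolynomial (Fin n) R :=
  monomial (m.1 - Finsupp.single (pick m) d) 1 * form c (pick m)

/-- the square Macaulay matrix -/
noncomputable def mac {R : Type*} [CommRing R] (c : Idx n d → R) :
    Matrix (Mon n d) (Mon n d) R :=
  Matrix.of fun m m' => coeff m.1 (col c m')

theorem mac_map {R S : Type*} [CommRing R] [CommRing S] (φ : R →+* S) (c : Idx n d → R) :
    (mac c).map φ = mac fun j => φ (c j) := by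
  ext m m'
  simp only [mac, Matrix.map_apply, Matrix.of_apply, ← coeff_map, col, map_mul, map_monomial,
    map_one, map_form]

/-- the coefficients of the powers of the variables -/
noncomputable def pw : Idx n d → ℤ := fun j => if j.2.1 = Finsupp.single j.1 d then 1 else 0

theorem single_mem (i : Fin n) (e : ℕ) : Finsupp.single i e ∈ ex n e := by
  rw [mem_ex]
  simp [Finsupp.single_apply]

theorem form_pw (i : Fin n) : form (pw (n := n) (d := d)) i = monomial (Finsupp.single i d) 1 := by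
  rw [form, Finset.sum_eq_single ⟨Finsupp.single i d, single_mem i d⟩]
  · simp [pw]
  · rintro ⟨s, hs⟩ _ h
    have : s ≠ Finsupp.single i d := fun h' => h (Subtype.ext h')
    simp [pw, this]
  · intro h
    exact absurd (Finset.mem_univ _) h

theorem mac_pw : mac (pw (n := n) (d := d)) = 1 := by
  ext m m'
  rw [mac, Matrix.of_apply, col, form_pw, monomial_mul, one_mul, sub_add_pick, coeff_monomial,
    Matrix.one_apply]
  by_cases h : m = m'
  · rw [if_pos h, if_pos (by rw [h])]
  · rw [if_neg h, if_neg (fun h' => h (Subtype.ext h'.symm))]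

/-- the resultant -/
noncomputable def res (n d : ℕ) : MvPolynomial (Idx n d) ℤ := (mac fun j => X j).det

theorem eval_res (c : Idx n d → ℤ) : eval c (res n d) = (mac c).det := by
  rw [res, RingHom.map_det]
  congr 1
  rw [RingHom.mapMatrix_apply, mac_map]
  simp only [eval_X]

theorem res_ne : res n d ≠ 0 := by
  intro h
  have h1 := eval_res (pw (n := n) (d := d))
  rw [h, map_zero, mac_pw, Matrix.det_one] at h1
  exact zero_ne_one h1

theorem col_isHomogeneous {R : Type*} [CommRing R] (c : Idx n d → R) (m : Mon n d) :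
    (col c m).IsHomogeneous (top n d) := by
  have h1 : (monomial (m.1 - Finsupp.single (pick m) d) (1 : R)).IsHomogeneous (top n d - d) := by
    refine isHomogeneous_monomial _ ?_
    rw [Finsupp.degree_eq_sum]
    have h2 := congrArg (fun s : Fin n →₀ ℕ => ∑ i, s i) (sub_add_pick m)
    simp only [Finsupp.add_apply, Finset.sum_add_distrib] at h2
    rw [mem_ex.1 m.2, mem_ex.1 (single_mem (pick m) d)] at h2
    omega
  have h2 : top n d - d + d = top n d := by
    have h3 : m.1 (pick m) ≤ ∑ i, m.1 i :=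
      Finset.single_le_sum (f := fun i => m.1 i) (fun i _ => Nat.zero_le _) (Finset.mem_univ _)
    have h4 := le_pick m
    rw [mem_ex.1 m.2] at h3
    omega
  rw [← h2]
  exact h1.mul (form_isHomogeneous c (pick m))

theorem eval_of_homogeneous {e : ℕ} {P : MvPolynomial (Fin n) ℂ} (hP : P.IsHomogeneous e)
    (z : Fin n → ℂ) :
    ∑ s : {s : Fin n →₀ ℕ // s ∈ ex n e}, (∏ i, z i ^ s.1 i) * coeff s.1 P = eval z P := by
  rw [eval_eq', Finset.sum_coe_sort (ex n e) (fun s => (∏ i, z i ^ s i) * coeff s P)]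
  symm
  have h1 : P.support ⊆ ex n e := by
    intro s hs
    rw [mem_support_iff] at hs
    rw [mem_ex, ← Finsupp.degree_eq_sum, Finsupp.degree_eq_weight_one]
    exact hP hs
  rw [Finset.sum_subset h1 (fun s _ hs => by rw [notMem_support_iff.1 hs, zero_mul])]
  exact Finset.sum_congr rfl fun s _ => mul_comm _ _

theorem no_zero (c : Idx n d → ℤ) (hc : eval c (res n d) ≠ 0) (z : Fin n → ℂ)
    (hz : ∀ i, aeval z (form c i) = 0) : z = 0 := by
  classical
  have h1 : (mac fun j => (c j : ℂ)).det ≠ 0 := by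
    have h2 : (Int.castRingHom ℂ) (mac c).det = (mac fun j => (c j : ℂ)).det := by
      rw [RingHom.map_det, RingHom.mapMatrix_apply, mac_map]
      rfl
    rw [← h2, ← eval_res]
    intro h3
    exact hc (Int.cast_eq_zero.1 h3)
  have h2 : ∀ i, eval z (form (fun j => (c j : ℂ)) i) = 0 := by
    intro i
    have h3 := hz i
    rw [aeval_def, eval₂_eq_eval_map, map_form] at h3
    exact h3
  have h3 : Matrix.vecMul (fun m : Mon n d => ∏ i, z i ^ m.1 i) (mac fun j => (c j : ℂ)) = 0 := by
    funext m'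
    rw [Matrix.vecMul, dotProduct]
    simp only [mac, Matrix.of_apply]
    rw [eval_of_homogeneous (col_isHomogeneous _ m'), col, map_mul, h2, mul_zero]
    rfl
  have h4 := Matrix.eq_zero_of_vecMul_eq_zero h1 h3
  funext i
  have h5 := congrFun h4 ⟨Finsupp.single i (top n d), single_mem i _⟩
  simp only [Pi.zero_apply] at h5
  rw [Finset.prod_eq_single i] at h5
  · rw [Finsupp.single_eq_same] at h5
    exact pow_eq_zero_iff (by simp [top]) |>.1 h5
  · intro j _ hj
    rw [Finsupp.single_apply, if_neg (fun h => hj h.symm), pow_zero]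
  · intro h
    exact absurd (Finset.mem_univ _) h

end

/-- one hundred percent of the integral tuples of forms have no common zero -/
theorem endo_box (n d : ℕ) (hd : 1 ≤ d) (η : ℝ) (hη : 0 < η) :
    ∃ B₀ : ℕ, ∀ B : ℕ, B₀ ≤ B →
      ({c : Idx n d → ℤ | (∀ i, |c i| ≤ (B : ℤ)) ∧
        ¬ ∀ z : Fin n → ℂ, (∀ i, aeval z (form c i) = 0) → z = 0}.ncard : ℝ)
        ≤ η * (2 * (B : ℝ) + 1) ^ Fintype.card (Idx n d) := by
  obtain ⟨D, hD⟩ := zeros_box (res_ne (n := n) (d := d))
  obtain ⟨B₀, hB₀⟩ := exists_nat_gt ((D : ℝ) / η)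
  refine ⟨B₀, fun B hB => ?_⟩
  have h1 := hD B
  have hB1 : (0 : ℝ) < 2 * (B : ℝ) + 1 := by positivity
  have h2 : {c : Idx n d → ℤ | (∀ i, |c i| ≤ (B : ℤ)) ∧
      ¬ ∀ z : Fin n → ℂ, (∀ i, aeval z (form c i) = 0) → z = 0} ⊆
        {c : Idx n d → ℤ | (∀ i, |c i| ≤ (B : ℤ)) ∧ eval c (res n d) = 0} := by
    rintro c ⟨h3, h4⟩
    refine ⟨h3, ?_⟩
    by_contra h5
    exact h4 fun z hz => no_zero c h5 z hz
  have hfin : {c : Idx n d → ℤ | (∀ i, |c i| ≤ (B : ℤ)) ∧ eval c (res n d) = 0}.Finite := by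
    refine (Set.Finite.pi' (fun _ : Idx n d => Set.finite_Icc (-(B : ℤ)) B)).subset ?_
    rintro c ⟨h3, -⟩ i
    exact abs_le.1 (h3 i)
  have h3 := Set.ncard_le_ncard h2 hfin
  have h4 : ({c : Idx n d → ℤ | (∀ i, |c i| ≤ (B : ℤ)) ∧
      ¬ ∀ z : Fin n → ℂ, (∀ i, aeval z (form c i) = 0) → z = 0}.ncard : ℝ) ≤
        ({c : Idx n d → ℤ | (∀ i, |c i| ≤ (B : ℤ)) ∧ eval c (res n d) = 0}.ncard : ℝ) := by
    exact_mod_cast h3
  refine h4.trans ?_
  have h5 : (D : ℝ) ≤ η * (2 * (B : ℝ) + 1) := by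
    have h6 : (B₀ : ℝ) ≤ B := by exact_mod_cast hB
    rw [div_lt_iff₀ hη] at hB₀
    nlinarith
  have h6 : ({c : Idx n d → ℤ | (∀ i, |c i| ≤ (B : ℤ)) ∧ eval c (res n d) = 0}.ncard : ℝ) *
      (2 * (B : ℝ) + 1) ≤ (η * (2 * (B : ℝ) + 1) ^ Fintype.card (Idx n d)) * (2 * (B : ℝ) + 1) := by
    refine h1.trans ?_
    have h7 := mul_le_mul_of_nonneg_right h5
      (by positivity : (0 : ℝ) ≤ (2 * (B : ℝ) + 1) ^ Fintype.card (Idx n d))
    linarith
  exact le_of_mul_le_mul_right h6 hB1

end Pool.Agent.Helper87.LD
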