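import Pool.Agent.Helper87.LD.Dens
import Pool.Agent.Helper87.LD.Endo

/-!
# LD: coefficients in a finitely generated group of complex numbers. Counting
-/

set_option autoImplicit false

namespace Pool.Agent.Helper87.LD

open MvPolynomial

noncomputable section

/-- the zeros of a complex polynomial in a box of integral points -/
theorem zeros_boxC {ι : Type*} [Fintype ι] {p : MvPolynomial ι ℂ} (hp : p ≠ 0) :
    ∃ D : ℕ, ∀ B : ℕ, ({c : ι → ℤ | (∀ i, |c i| ≤ (B : ℤ)) ∧
      eval (fun i => (c i : ℂ)) p = 0}.ncard : ℝ) *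
      (2 * (B : ℝ) + 1) ≤ D * (2 * (B : ℝ) + 1) ^ Fintype.card ι := by
  classical
  set e := Fintype.equivFin ι
  have hp' : rename e p ≠ 0 := by
    intro h
    exact hp (rename_injective e e.injective (by rw [h, map_zero]))
  refine ⟨(rename e p).totalDegree, fun B => ?_⟩
  have hinj : Function.Injective (fun z : ℤ => (z : ℂ)) := Int.cast_injective
  have h1 := schwartz_zippel_totalDegree hp' ((Finset.Icc (-(B : ℤ)) B).image (fun z : ℤ => (z : ℂ)))
  have h2 : ((Finset.Icc (-(B : ℤ)) B).image (fun z : ℤ => (z : ℂ))).card = 2 * B + 1 := by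
    rw [Finset.card_image_of_injective _ hinj, Int.card_Icc]
    omega
  rw [h2] at h1
  set F := Finset.filter (fun f => eval f (rename e p) = 0)
    (Fintype.piFinset fun _ : Fin (Fintype.card ι) =>
      (Finset.Icc (-(B : ℤ)) B).image (fun z : ℤ => (z : ℂ))) with hF
  have h3 : {c : ι → ℤ | (∀ i, |c i| ≤ (B : ℤ)) ∧ eval (fun i => (c i : ℂ)) p = 0}.ncard ≤
      F.card := by
    rw [← Set.ncard_coe_finset]
    refine Set.ncard_le_ncard_of_injOn (fun c => (fun i => (c i : ℂ)) ∘ e.symm) ?_ ?_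
      (Finset.finite_toSet _)
    · rintro c ⟨h4, h5⟩
      rw [Finset.mem_coe, hF, Finset.mem_filter, Fintype.mem_piFinset]
      refine ⟨fun a => ?_, ?_⟩
      · refine Finset.mem_image.2 ⟨c (e.symm a), ?_, rfl⟩
        rw [Finset.mem_Icc]
        exact abs_le.1 (h4 _)
      · rw [eval_rename]
        have : ((fun i => (c i : ℂ)) ∘ e.symm) ∘ e = fun i => (c i : ℂ) := by
          funext i
          simp
        rw [this]
        exact h5
    · intro c _ c' _ h
      funext i
      have := congrFun h (e i)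
      simpa using this
  have h4 : (F.card : ℝ) / (2 * (B : ℝ) + 1) ^ Fintype.card ι ≤
      ((rename e p).totalDegree : ℝ) / (2 * (B : ℝ) + 1) := by
    have h5 : (((F.card : ℚ≥0) / ((2 * B + 1 : ℕ) : ℚ≥0) ^ Fintype.card ι : ℚ≥0) : ℝ) ≤
        ((((rename e p).totalDegree : ℚ≥0) / ((2 * B + 1 : ℕ) : ℚ≥0) : ℚ≥0) : ℝ) := by
      exact_mod_cast h1
    push_cast at h5
    exact h5
  have hB : (0 : ℝ) < 2 * (B : ℝ) + 1 := by positivity
  rw [div_le_div_iff₀ (by positivity) hB] at h4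
  refine le_trans (mul_le_mul_of_nonneg_right ?_ hB.le) h4
  exact_mod_cast h3

theorem no_zeroC {n d : ℕ} (b : Idx n d → ℂ) (h1 : (mac b).det ≠ 0) (z : Fin n → ℂ)
    (h2 : ∀ i, eval z (form b i) = 0) : z = 0 := by
  classical
  have h3 : Matrix.vecMul (fun m : Mon n d => ∏ i, z i ^ m.1 i) (mac b) = 0 := by
    funext m'
    rw [Matrix.vecMul, dotProduct]
    simp only [mac, Matrix.of_apply]
    rw [eval_of_homogeneous (col_isHomogeneous _ m'), col, map_mul, h2, mul_zero]
    rfl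
  have h4 := Matrix.eq_zero_of_vecMul_eq_zero h1 h3
  funext i
  have h5 := congrFun h4 ⟨Finsupp.single i (top n d), single_mem i _⟩
  simp only [Pi.zero_apply] at h5
  rw [Finset.prod_eq_single i] at h5
  · rw [Finsupp.single_eq_same] at h5
    exact pow_eq_zero_iff (by simp [top]) |>.1 h5
  · intro j _ hj
    rw [Finsupp.single_apply, if_neg (fun h => hj h.symm), pow_zero]
  · intro h
    exact absurd (Finset.mem_univ _) h

/-- the linear combinations -/
def lc {m : ℕ} {ι R : Type*} [CommRing R] (e : Fin m → R) (c : Fin m × ι → R) (i : ι) : R :=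
  ∑ j, e j * c (j, i)

theorem endo_boxC (n d m : ℕ) (e : Fin m → ℂ) (he : e ≠ 0) (η : ℝ) (hη : 0 < η) :
    ∃ B₀ : ℕ, ∀ B : ℕ, B₀ ≤ B →
      ({c : Fin m × Idx n d → ℤ | (∀ i, |c i| ≤ (B : ℤ)) ∧
        ¬ ∀ z : Fin n → ℂ, (∀ i, eval z (form (lc e fun j => (c j : ℂ)) i) = 0) → z = 0}.ncard : ℝ)
        ≤ η * (2 * (B : ℝ) + 1) ^ Fintype.card (Fin m × Idx n d) := by
  classical
  obtain ⟨j₀, hj₀⟩ := Function.ne_iff.1 he
  -- the resultant of the combination
  set P : MvPolynomial (Fin m × Idx n d) ℂ :=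
    (mac (lc (fun j => C (e j)) fun j => X j : Idx n d → MvPolynomial (Fin m × Idx n d) ℂ)).det
    with hP
  have hev : ∀ c : Fin m × Idx n d → ℂ, eval c P = (mac (lc e c : Idx n d → ℂ)).det := by
    intro c
    rw [hP, RingHom.map_det, RingHom.mapMatrix_apply, mac_map]
    congr 2
    funext i
    rw [lc, lc, map_sum]
    refine Finset.sum_congr rfl fun j _ => ?_
    rw [map_mul, eval_C, eval_X]
  have hP0 : P ≠ 0 := by
    intro h
    have h1 := hev fun j => if j.1 = j₀ then ((pw (n := n) (d := d) j.2 : ℤ) : ℂ) else 0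
    have h2 : (lc e (fun j : Fin m × Idx n d => if j.1 = j₀ then
        ((pw (n := n) (d := d) j.2 : ℤ) : ℂ) else 0) : Idx n d → ℂ) =
        fun i => e j₀ * ((pw (n := n) (d := d) i : ℤ) : ℂ) := by
      funext i
      rw [lc, Finset.sum_eq_single j₀]
      · simp
      · intro j _ hj
        simp [hj]
      · intro h
        exact absurd (Finset.mem_univ _) h
    have h3 : mac (fun i => e j₀ * ((pw (n := n) (d := d) i : ℤ) : ℂ)) = e j₀ • (1 : Matrix _ _ ℂ) := by
      have h4 : (1 : Matrix (Mon n d) (Mon n d) ℂ) = mac fun i => ((pw (n := n) (d := d) i : ℤ) : ℂ) := by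
        have h5 := mac_map (Int.castRingHom ℂ) (pw (n := n) (d := d))
        rw [mac_pw] at h5
        rw [← Matrix.map_one (Int.castRingHom ℂ) (map_zero _) (map_one _), h5]
        rfl
      rw [h4]
      ext a b
      rw [Matrix.smul_apply, mac, mac, Matrix.of_apply, Matrix.of_apply, col, col]
      have h6 : form (fun i => e j₀ * ((pw (n := n) (d := d) i : ℤ) : ℂ)) (pick b) =
          C (e j₀) * form (fun i => ((pw (n := n) (d := d) i : ℤ) : ℂ)) (pick b) := by
        simp only [form, Finset.mul_sum, C_mul_monomial]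
      rw [h6, mul_left_comm, coeff_C_mul, smul_eq_mul]
    rw [h, map_zero, h2, h3, Matrix.det_smul, Matrix.det_one, mul_one] at h1
    exact pow_ne_zero _ hj₀ h1.symm
  obtain ⟨D, hD⟩ := zeros_boxC hP0
  obtain ⟨B₀, hB₀⟩ := exists_nat_gt ((D : ℝ) / η)
  refine ⟨B₀, fun B hB => ?_⟩
  have h1 := hD B
  have hB1 : (0 : ℝ) < 2 * (B : ℝ) + 1 := by positivity
  have h2 : {c : Fin m × Idx n d → ℤ | (∀ i, |c i| ≤ (B : ℤ)) ∧
      ¬ ∀ z : Fin n → ℂ, (∀ i, eval z (form (lc e fun j => (c j : ℂ)) i) = 0) → z = 0} ⊆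
        {c : Fin m × Idx n d → ℤ | (∀ i, |c i| ≤ (B : ℤ)) ∧ eval (fun i => (c i : ℂ)) P = 0} := by
    rintro c ⟨h3, h4⟩
    refine ⟨h3, ?_⟩
    by_contra h5
    rw [hev] at h5
    exact h4 fun z hz => no_zeroC _ h5 z hz
  have hfin : {c : Fin m × Idx n d → ℤ | (∀ i, |c i| ≤ (B : ℤ)) ∧
      eval (fun i => (c i : ℂ)) P = 0}.Finite := by
    refine (Set.Finite.pi' (fun _ : Fin m × Idx n d => Set.finite_Icc (-(B : ℤ)) B)).subset ?_
    rintro c ⟨h3, -⟩ i
    exact abs_le.1 (h3 i)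
  have h3 : ({c : Fin m × Idx n d → ℤ | (∀ i, |c i| ≤ (B : ℤ)) ∧
      ¬ ∀ z : Fin n → ℂ, (∀ i, eval z (form (lc e fun j => (c j : ℂ)) i) = 0) → z = 0}.ncard : ℝ) ≤
      ({c : Fin m × Idx n d → ℤ | (∀ i, |c i| ≤ (B : ℤ)) ∧
        eval (fun i => (c i : ℂ)) P = 0}.ncard : ℝ) := by
    exact_mod_cast Set.ncard_le_ncard h2 hfin
  refine h3.trans ?_
  have h5 : (D : ℝ) ≤ η * (2 * (B : ℝ) + 1) := by
    have h6 : (B₀ : ℝ) ≤ B := by exact_mod_cast hB
    rw [div_lt_iff₀ hη] at hB₀
    nlinarith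
  refine le_of_mul_le_mul_right (h1.trans ?_) hB1
  have h7 := mul_le_mul_of_nonneg_right h5
    (by positivity : (0 : ℝ) ≤ (2 * (B : ℝ) + 1) ^ Fintype.card (Fin m × Idx n d))
  linarith

/-- the bad residue classes -/
def BadE (n d m q : ℕ) (e : Fin m → ZMod q) : Set (Fin m × Idx n d → ZMod q) :=
  {c | ¬ ∃ _ : Fact q.Prime, Good (form (lc e c))}

theorem badE_ncard {n : ℕ} (hn : n = 3 ∨ n = 4) {q : ℕ} [hq : Fact q.Prime] (hq5 : 5 ≤ q)
    (d m : ℕ) (hd : 2 * Nat.card (Projectivization (ZMod q) (Fin n → ZMod q)) ≤ d)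
    (e : Fin m → ZMod q) (he : e ≠ 0) :
    ((BadE n d m q e).ncard : ℝ) ≤
      (1 - 1 / (4096 * (q : ℝ))) * (q : ℝ) ^ Fintype.card (Fin m × Idx n d) := by
  classical
  obtain ⟨j₀, hj₀⟩ := Function.ne_iff.1 he
  have h1 := good_density (n := n) (by omega) hq5 d hd
  let f : (Fin m × Idx n d → ZMod q) →+ (Idx n d → ZMod q) :=
    { toFun := fun c => lc e c
      map_zero' := by
        funext i
        simp [lc]
      map_add' := fun a b => by
        funext i
        simp [lc, mul_add, Finset.sum_add_distrib] }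
  have hsurj : ∀ b : Idx n d → ZMod q, b ∈ Set.range f := by
    intro b
    refine ⟨fun j => if j.1 = j₀ then (e j₀)⁻¹ * b j.2 else 0, ?_⟩
    funext i
    change lc e (fun j : Fin m × Idx n d => if j.1 = j₀ then (e j₀)⁻¹ * b j.2 else 0) i = b i
    rw [lc, Finset.sum_eq_single j₀]
    · simp only [if_true]
      rw [mul_inv_cancel_left₀ hj₀]
    · intro j _ hj
      simp [hj]
    · intro h
      exact absurd (Finset.mem_univ _) h
  set T : Finset (Idx n d → ZMod q) := Finset.univ.filter fun b => Good (form b) with hT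
  have h2 := fib_card f Finset.univ T (fun b _ => hsurj b) (fun _ => Finset.mem_univ _)
    (Finset.subset_univ _)
  rw [Finset.card_univ, Fintype.card_fun, Fintype.card_fun, ZMod.card] at h2
  set U : Finset (Fin m × Idx n d → ZMod q) := Finset.univ.filter (fun a => f a ∈ T) with hU
  have h3 : BadE n d m q e = (↑U : Set (Fin m × Idx n d → ZMod q))ᶜ := by
    ext c
    rw [Set.mem_compl_iff, Finset.mem_coe, hU, Finset.mem_filter, hT, Finset.mem_filter]
    constructor
    · rintro h ⟨_, _, h'⟩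
      exact h ⟨hq, h'⟩
    · rintro h ⟨_, h'⟩
      exact h ⟨Finset.mem_univ _, Finset.mem_univ _, h'⟩
  have h4 := Set.ncard_add_ncard_compl (↑U : Set (Fin m × Idx n d → ZMod q))
  rw [← h3, Set.ncard_coe_finset, Nat.card_eq_fintype_card, Fintype.card_fun, ZMod.card] at h4
  have h5 : Nat.card {c : Idx n d → ZMod q // Good (form c)} = T.card := by
    rw [Nat.card_eq_fintype_card, Fintype.card_subtype]
  rw [h5] at h1
  have hq0 : (5 : ℝ) ≤ q := by exact_mod_cast hq5
  have h6 : (q : ℝ) ^ Fintype.card (Idx n d) ≤ 4096 * q * (T.card : ℝ) := by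
    have h7 : q ^ (n - 3) ≤ q := by
      rcases hn with rfl | rfl
      · simp only [Nat.sub_self, pow_zero]
        omega
      · simp
    have h8 : q ^ Fintype.card (Idx n d) ≤ 4096 * q * T.card :=
      h1.trans (Nat.mul_le_mul_right _ (Nat.mul_le_mul_left _ h7))
    exact_mod_cast h8
  have h9 : (U.card : ℝ) + ((BadE n d m q e).ncard : ℝ) =
      (q : ℝ) ^ Fintype.card (Fin m × Idx n d) := by exact_mod_cast h4
  have h10 : (U.card : ℝ) * (q : ℝ) ^ Fintype.card (Idx n d) =
      (q : ℝ) ^ Fintype.card (Fin m × Idx n d) * T.card := by exact_mod_cast h2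
  have h11 : 1 / (4096 * (q : ℝ)) * (q : ℝ) ^ Fintype.card (Fin m × Idx n d) ≤ (U.card : ℝ) := by
    rw [one_div, inv_mul_le_iff₀ (by positivity)]
    have hpos : (0 : ℝ) < (q : ℝ) ^ Fintype.card (Idx n d) := by positivity
    refine le_of_mul_le_mul_right ?_ hpos
    have h12 := mul_le_mul_of_nonneg_left h6
      (by positivity : (0 : ℝ) ≤ (q : ℝ) ^ Fintype.card (Fin m × Idx n d))
    calc (q : ℝ) ^ Fintype.card (Fin m × Idx n d) * (q : ℝ) ^ Fintype.card (Idx n d)
        ≤ (q : ℝ) ^ Fintype.card (Fin m × Idx n d) * (4096 * q * (T.card : ℝ)) := h12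
      _ = 4096 * q * ((q : ℝ) ^ Fintype.card (Fin m × Idx n d) * T.card) := by ring
      _ = 4096 * q * (U.card : ℝ) * (q : ℝ) ^ Fintype.card (Idx n d) := by rw [← h10]; ring
  linarith

end

end Pool.Agent.Helper87.LD
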