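import Pool.Agent.Helper87.LD.RandMap
import Pool.Agent.Helper87.LD.Jet
import Pool.Agent.Helper87.LD.Mat
import Pool.Agent.Helper26.FD.Cpx

/-!
# LD, block N: the density of good reductions
-/

set_option autoImplicit false

namespace Pool.Agent.Helper87.LD

open MvPolynomial

open scoped LinearAlgebra.Projectivization

/-- the fibres of an additive map have the same number of elements -/
theorem fib_card {A B : Type*} [AddCommGroup A] [AddCommGroup B] [Fintype A]
    [DecidableEq B] (f : A →+ B) (S T : Finset B) (hS : ∀ b ∈ S, b ∈ Set.range f)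
    (hSr : ∀ a, f a ∈ S) (hT : T ⊆ S) :
    (Finset.univ.filter (fun a => f a ∈ T)).card * S.card = Fintype.card A * T.card := by
  classical
  have h0 : (0 : B) ∈ Set.range f := ⟨0, map_zero f⟩
  set m := (Finset.univ.filter (fun a => f a = 0)).card with hm
  have h1 : ∀ b ∈ S, (Finset.univ.filter (fun a => f a = b)).card = m := fun b hb =>
    AddMonoidHom.card_fiber_eq_of_mem_range f (hS b hb) h0
  have h2 : Fintype.card A = S.card * m := by
    rw [← Finset.card_univ, Finset.card_eq_sum_card_fiberwise (f := f) (t := S)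
      (fun a _ => hSr a), Finset.sum_congr rfl h1, Finset.sum_const, smul_eq_mul]
  have h3 : (Finset.univ.filter (fun a => f a ∈ T)).card = T.card * m := by
    rw [Finset.card_eq_sum_card_fiberwise (s := Finset.univ.filter (fun a => f a ∈ T))
      (f := f) (t := T) (fun a ha => (Finset.mem_filter.1 ha).2)]
    have : ∀ b ∈ T, ((Finset.univ.filter (fun a => f a ∈ T)).filter (fun a => f a = b)).card
        = m := by
      intro b hb
      rw [← h1 b (hT hb), Finset.filter_filter]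
      congr 1
      ext a
      simp only [Finset.mem_filter, Finset.mem_univ, true_and]
      exact ⟨fun h => h.2, fun h => ⟨h ▸ hb, h⟩⟩
    rw [Finset.sum_congr rfl this, Finset.sum_const, smul_eq_mul]
  rw [h2, h3]
  ring

section good_of_conf

variable {n d : ℕ} {k : Type*} [Field k] {F : Fin n → MvPolynomial (Fin n) k}

private theorem ev_smul87 (hF : ∀ i, (F i).IsHomogeneous d) (t : k) (x : Fin n → k) :
    ev F (t • x) = t ^ d • ev F x := by
  funext i
  exact Pool.Agent.Helper26.FD.eval_smul_hom' (hF i) t x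

private theorem jac_smul87 (hF : ∀ i, (F i).IsHomogeneous d) (t : k) (x : Fin n → k) :
    jac F (t • x) = t ^ (d - 1) • jac F x := by
  ext i j
  exact Pool.Agent.Helper26.FD.eval_smul_hom' ((hF i).pderiv (i := j)) t x

private theorem good_of_conf (hF : ∀ i, (F i).IsHomogeneous d)
    (f : ℙ k (Fin n → k) → ℙ k (Fin n → k))
    (h1 : ∀ x : ℙ k (Fin n → k), ∃ hv : ev F x.rep ≠ 0, Projectivization.mk k _ hv = f x)
    (h2 : ∀ x : ℙ k (Fin n → k), (∃ m : ℕ, 1 ≤ m ∧ f^[m] x = x) →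
      Etale x.rep (ev F x.rep) (jac F x.rep)) : Good F := by
  have key : ∀ (y : Fin n → k) (hy : y ≠ 0), ∃ hv : ev F y ≠ 0,
      Projectivization.mk k _ hv = f (Projectivization.mk k y hy) := by
    intro y hy
    obtain ⟨a, ha⟩ := Projectivization.exists_smul_eq_mk_rep k y hy
    obtain ⟨hv, hm⟩ := h1 (Projectivization.mk k y hy)
    rw [← hm]
    have e1 : ev F (Projectivization.mk k y hy).rep = ((a : k) ^ d) • ev F y := by
      rw [← ha]
      exact ev_smul87 hF (a : k) y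
    have hv' : ev F y ≠ 0 := by
      intro h0
      rw [e1, h0, smul_zero] at hv
      exact hv rfl
    refine ⟨hv', ?_⟩
    rw [Projectivization.mk_eq_mk_iff']
    refine ⟨((a : k) ^ d)⁻¹, ?_⟩
    rw [e1, smul_smul, inv_mul_cancel₀ (pow_ne_zero _ a.ne_zero), one_smul]
  have iter : ∀ (m : ℕ) (y : Fin n → k) (hy : y ≠ 0), ∃ hv : (ev F)^[m] y ≠ 0,
      Projectivization.mk k _ hv = f^[m] (Projectivization.mk k y hy) := by
    intro m
    induction m with
    | zero => exact fun y hy => ⟨hy, rfl⟩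
    | succ m ih =>
      intro y hy
      obtain ⟨hv, hm⟩ := key y hy
      obtain ⟨hv2, hm2⟩ := ih (ev F y) hv
      refine ⟨hv2, ?_⟩
      rw [Function.iterate_succ_apply f, ← hm]
      exact hm2
  intro x hx
  refine ⟨(key x hx).1, fun hper => ?_⟩
  obtain ⟨m, hm, t, ht, hmt⟩ := hper
  have hfix : f^[m] (Projectivization.mk k x hx) = Projectivization.mk k x hx := by
    obtain ⟨hv, hm'⟩ := iter m x hx
    rw [← hm', Projectivization.mk_eq_mk_iff']
    exact ⟨t, hmt.symm⟩
  have het := h2 _ ⟨m, hm, hfix⟩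
  obtain ⟨a, ha⟩ := Projectivization.exists_smul_eq_mk_rep k x hx
  have ha' : (Projectivization.mk k x hx).rep = (a : k) • x := by
    rw [← ha]
    rfl
  rw [ha', ev_smul87 hF, jac_smul87 hF] at het
  intro y hy
  obtain ⟨s, hs⟩ := hy
  obtain ⟨u, hu⟩ := het y ⟨(a : k) ^ (d - 1) * s * ((a : k) ^ d)⁻¹, by
    rw [Matrix.smul_mulVec, hs, smul_smul, smul_smul, mul_assoc _ _ ((a : k) ^ d),
      inv_mul_cancel₀ (pow_ne_zero _ a.ne_zero), mul_one]⟩
  exact ⟨u * a, by rw [hu, smul_smul]⟩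

end good_of_conf

theorem form_surj {n d : ℕ} {R : Type*} [CommRing R]
    (G : Fin n → MvPolynomial (Fin n) R) (hG : ∀ i, (G i).IsHomogeneous d) :
    ∃ c : Idx n d → R, form c = G := by
  classical
  refine ⟨fun i => coeff i.2.1 (G i.1), ?_⟩
  funext i
  ext t
  rw [form, coeff_sum]
  simp only [coeff_monomial]
  by_cases ht : t ∈ ex n d
  · rw [Finset.sum_eq_single ⟨t, ht⟩]
    · simp
    · intro b _ hb
      rw [if_neg]
      intro h
      exact hb (Subtype.ext h)
    · intro h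
      exact absurd (Finset.mem_univ _) h
  · rw [Finset.sum_eq_zero]
    · symm
      refine (hG i).coeff_eq_zero ?_
      intro h
      rw [Finsupp.degree_eq_sum] at h
      exact ht (mem_ex.2 h)
    · intro b _
      rw [if_neg]
      intro h
      exact ht (h ▸ b.2)

private theorem form_add87 {n d : ℕ} {R : Type*} [CommRing R] (c e : Idx n d → R) (i : Fin n) :
    form (c + e) i = form c i + form e i := by
  simp only [form, Pi.add_apply, map_add, Finset.sum_add_distrib]

/-- the values and Jacobians at the representatives of all points -/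
private noncomputable def conf {n d : ℕ} (k : Type) [Field k] :
    (Idx n d → k) →+ (ℙ k (Fin n → k) → (Fin n → k) × Matrix (Fin n) (Fin n) k) where
  toFun c := fun x => (ev (form c) x.rep, jac (form c) x.rep)
  map_zero' := by
    funext x
    refine Prod.ext ?_ ?_
    · funext i
      simp [ev, form]
    · ext i j
      simp [jac, form]
  map_add' c e := by
    funext x
    refine Prod.ext ?_ ?_
    · funext i
      simp [ev, form_add87]
    · ext i j
      simp [jac, form_add87]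

section count

variable {n p : ℕ} [Fact p.Prime]

open Classical in
/-- the configurations at a point with prescribed image -/
private noncomputable def loc (d : ℕ) (x y : ℙ (ZMod p) (Fin n → ZMod p)) (P : Prop) :
    Finset ((Fin n → ZMod p) × Matrix (Fin n) (Fin n) (ZMod p)) :=
  Finset.univ.filter fun a => a.2.mulVec x.rep = (d : ZMod p) • a.1 ∧
    (∃ hv : a.1 ≠ 0, Projectivization.mk (ZMod p) a.1 hv = y) ∧ (P → Etale x.rep a.1 a.2)

open Classical in
private theorem card_loc (hp : 2 < p) (d : ℕ) (x y : ℙ (ZMod p) (Fin n → ZMod p)) (P : Prop) :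
    ((p : ℝ) - 1) * (p : ℝ) ^ (n * (n - 1)) * (if P then ((p : ℝ) - 2) / ((p : ℝ) - 1) else 1) ≤
      ((loc d x y P).card : ℝ) := by
  have hp2 : (2 : ℝ) < p := by exact_mod_cast hp
  let W : (ZMod p)ˣ → Finset (Matrix (Fin n) (Fin n) (ZMod p)) := fun u =>
    Finset.univ.filter fun W => W.mulVec x.rep = (d : ZMod p) • ((u : ZMod p) • y.rep) ∧
      (P → Etale x.rep ((u : ZMod p) • y.rep) W)
  have hu : ∀ u : (ZMod p)ˣ, (u : ZMod p) • y.rep ≠ 0 := fun u =>
    smul_ne_zero u.ne_zero y.rep_nonzero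
  have h1 : (Finset.univ.sigma W).card ≤ (loc d x y P).card := by
    refine Finset.card_le_card_of_injOn (fun s => ((s.1 : ZMod p) • y.rep, s.2)) ?_ ?_
    · intro s hs
      have hs' := (Finset.mem_sigma.1 hs).2
      have hs2 := (Finset.mem_filter.1 hs').2
      refine Finset.mem_coe.2 (Finset.mem_filter.2 ⟨Finset.mem_univ _, hs2.1, ⟨hu s.1, ?_⟩, hs2.2⟩)
      have h3 : Projectivization.mk (ZMod p) ((s.1 : ZMod p) • y.rep) (hu s.1) =
          Projectivization.mk (ZMod p) y.rep y.rep_nonzero := by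
        rw [Projectivization.mk_eq_mk_iff']
        exact ⟨_, rfl⟩
      rw [h3, Projectivization.mk_rep]
    · intro s _ t _ hst
      have h3 := congrArg Prod.fst hst
      have h4 := congrArg Prod.snd hst
      obtain ⟨i, hi⟩ := Function.ne_iff.1 y.rep_nonzero
      have h5 : (s.1 : ZMod p) * y.rep i = (t.1 : ZMod p) * y.rep i := congrFun h3 i
      have h6 : s.1 = t.1 := Units.ext (mul_right_cancel₀ hi h5)
      obtain ⟨s1, s2⟩ := s
      obtain ⟨t1, t2⟩ := t
      simp only at h6 h4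
      subst h6
      subst h4
      rfl
  have h2 : ∀ u : (ZMod p)ˣ, (p : ℝ) ^ (n * (n - 1)) *
      (if P then ((p : ℝ) - 2) / ((p : ℝ) - 1) else 1) ≤ ((W u).card : ℝ) := by
    intro u
    have hpp : 0 < (p : ℝ) - 1 := by linarith
    by_cases hP : P
    · rw [if_pos hP]
      have h3 := card_etale x.rep ((u : ZMod p) • y.rep) x.rep_nonzero (hu u) (d : ZMod p)
      have h4 : Nat.card {W : Matrix (Fin n) (Fin n) (ZMod p) //
          W.mulVec x.rep = (d : ZMod p) • ((u : ZMod p) • y.rep) ∧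
            Etale x.rep ((u : ZMod p) • y.rep) W} = (W u).card := by
        rw [Nat.card_eq_fintype_card, Fintype.card_subtype]
        congr 1
        ext A
        simp only [W, Finset.mem_filter, Finset.mem_univ, true_and, hP, forall_true_left]
      rw [h4] at h3
      have h5 : ((p : ℝ) - 2) * (p : ℝ) ^ (n * (n - 1)) ≤ ((p : ℝ) - 1) * ((W u).card : ℝ) := by
        have e1 : ((p - 2 : ℕ) : ℝ) = (p : ℝ) - 2 := by
          rw [Nat.cast_sub (by omega)]
          norm_num
        have e2 : ((p - 1 : ℕ) : ℝ) = (p : ℝ) - 1 := by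
          rw [Nat.cast_sub (by omega)]
          norm_num
        rw [← e1, ← e2]
        exact_mod_cast h3
      rw [← mul_div_assoc, div_le_iff₀ hpp]
      linarith
    · rw [if_neg hP, mul_one]
      have h3 := card_mulVec_eq x.rep ((d : ZMod p) • ((u : ZMod p) • y.rep)) x.rep_nonzero
      have h4 : Nat.card {W : Matrix (Fin n) (Fin n) (ZMod p) //
          W.mulVec x.rep = (d : ZMod p) • ((u : ZMod p) • y.rep)} = (W u).card := by
        rw [Nat.card_eq_fintype_card, Fintype.card_subtype]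
        congr 1
        ext A
        simp only [W, Finset.mem_filter, Finset.mem_univ, true_and, hP, false_imp_iff, and_true]
      rw [← h4, h3]
      push_cast
      exact le_refl _
  have h3 : ((Finset.univ.sigma W).card : ℝ) = ∑ u : (ZMod p)ˣ, ((W u).card : ℝ) := by
    rw [Finset.card_sigma]
    push_cast
    rfl
  have h4 : ∑ u : (ZMod p)ˣ, (p : ℝ) ^ (n * (n - 1)) *
      (if P then ((p : ℝ) - 2) / ((p : ℝ) - 1) else 1) ≤ ∑ u : (ZMod p)ˣ, ((W u).card : ℝ) :=
    Finset.sum_le_sum fun u _ => h2 u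
  rw [Finset.sum_const, Finset.card_univ, ZMod.card_units p, nsmul_eq_mul,
    Nat.cast_sub (by omega), Nat.cast_one, ← mul_assoc] at h4
  refine h4.trans ?_
  rw [← h3]
  exact_mod_cast h1

open Classical in
/-- the possible configurations at a point -/
private noncomputable def glob (d : ℕ) (x : ℙ (ZMod p) (Fin n → ZMod p)) :
    Finset ((Fin n → ZMod p) × Matrix (Fin n) (Fin n) (ZMod p)) :=
  Finset.univ.filter fun a => a.2.mulVec x.rep = (d : ZMod p) • a.1

private theorem card_glob (d : ℕ) (x : ℙ (ZMod p) (Fin n → ZMod p)) :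
    (glob d x).card = p ^ n * p ^ (n * (n - 1)) := by
  classical
  rw [Finset.card_eq_sum_card_fiberwise (f := Prod.fst) (t := Finset.univ)
    (fun a _ => Finset.mem_coe.2 (Finset.mem_univ _))]
  have h1 : ∀ v ∈ (Finset.univ : Finset (Fin n → ZMod p)),
      ((glob d x).filter (fun a => a.1 = v)).card = p ^ (n * (n - 1)) := by
    intro v _
    rw [← card_mulVec_eq x.rep ((d : ZMod p) • v) x.rep_nonzero, Nat.card_eq_fintype_card,
      Fintype.card_subtype]
    refine Finset.card_nbij' (fun a => a.2) (fun W => (v, W)) ?_ ?_ ?_ ?_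
    · intro a ha
      have ha1 := Finset.mem_filter.1 (Finset.mem_coe.1 ha)
      have ha2 := (Finset.mem_filter.1 ha1.1).2
      refine Finset.mem_coe.2 (Finset.mem_filter.2 ⟨Finset.mem_univ _, ?_⟩)
      rw [ha2, ha1.2]
    · intro W hW
      have hW1 := (Finset.mem_filter.1 (Finset.mem_coe.1 hW)).2
      exact Finset.mem_coe.2 (Finset.mem_filter.2
        ⟨Finset.mem_filter.2 ⟨Finset.mem_univ _, hW1⟩, rfl⟩)
    · intro a ha
      have ha1 := Finset.mem_filter.1 (Finset.mem_coe.1 ha)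
      exact Prod.ext ha1.2.symm rfl
    · intro W _
      rfl
  rw [Finset.sum_congr rfl h1, Finset.sum_const, Finset.card_univ, smul_eq_mul]
  congr 1
  rw [Fintype.card_pi]
  simp [ZMod.card]

private theorem conf_mem (d : ℕ) [Fintype (ℙ (ZMod p) (Fin n → ZMod p))]
    [DecidableEq (ℙ (ZMod p) (Fin n → ZMod p))] (c : Idx n d → ZMod p) :
    conf (ZMod p) c ∈ Fintype.piFinset (fun x => glob d x) := by
  rw [Fintype.mem_piFinset]
  intro x
  refine Finset.mem_filter.2 ⟨Finset.mem_univ _, ?_⟩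
  funext i
  have h := congrArg (eval x.rep) (form_isHomogeneous c i).sum_X_mul_pderiv
  rw [map_sum, map_nsmul, nsmul_eq_mul] at h
  have h2 : (conf (ZMod p) c x).2.mulVec x.rep i =
      ∑ j, eval x.rep (pderiv j (form c i)) * x.rep j := rfl
  rw [h2]
  have h3 : ((d : ZMod p) • (conf (ZMod p) c x).1) i = d * eval x.rep (form c i) := rfl
  rw [h3, ← h]
  refine Finset.sum_congr rfl fun j _ => ?_
  rw [map_mul, eval_X, mul_comm]

private theorem mem_range_conf (d : ℕ) [Fintype (ℙ (ZMod p) (Fin n → ZMod p))]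
    [DecidableEq (ℙ (ZMod p) (Fin n → ZMod p))]
    (hd : 2 * Nat.card (ℙ (ZMod p) (Fin n → ZMod p)) ≤ d)
    (b : ℙ (ZMod p) (Fin n → ZMod p) → (Fin n → ZMod p) × Matrix (Fin n) (Fin n) (ZMod p))
    (hb : b ∈ Fintype.piFinset (fun x => glob d x)) :
    b ∈ Set.range (conf (n := n) (d := d) (ZMod p)) := by
  have h1 : ∀ i : Fin n, ∃ G : MvPolynomial (Fin n) (ZMod p), G.IsHomogeneous d ∧
      ∀ x : ℙ (ZMod p) (Fin n → ZMod p), eval x.rep G = (b x).1 i ∧
        ∀ j, eval x.rep (pderiv j G) = (b x).2 i j := by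
    intro i
    refine exists_form_jet d hd (fun x => (b x).1 i) (fun x j => (b x).2 i j) fun x => ?_
    have h2 := (Finset.mem_filter.1 ((Fintype.mem_piFinset.1 hb) x)).2
    exact congrFun h2 i
  choose G hG1 hG2 using h1
  obtain ⟨c, hc⟩ := form_surj G hG1
  refine ⟨c, ?_⟩
  funext x
  refine Prod.ext ?_ ?_
  · funext i
    show eval x.rep (form c i) = (b x).1 i
    rw [hc]
    exact (hG2 i x).1
  · ext i j
    show eval x.rep (pderiv j (form c i)) = (b x).2 i j
    rw [hc]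
    exact (hG2 i x).2 j

private theorem final87 (n p q K A B : ℕ) (hn : 3 ≤ n) (hp : 5 ≤ p) (hq : p ^ n = q * (p - 1) + 1)
    (hK : K = p / 4) (T : ℝ) (few : ℕ) (R : ℝ) (hR : 0 < R)
    (hfew : K ^ 2 * q ^ q ≤ 8 * q * few)
    (hT : (few : ℝ) * ((((p : ℝ) - 1) * R) ^ q * (((p : ℝ) - 2) / ((p : ℝ) - 1)) ^ K) ≤ T)
    (h : (A : ℝ) * ((p : ℝ) ^ n * R) ^ q = B * T) :
    B ≤ 4096 * p ^ (n - 3) * A := by
  have hp5 : (5 : ℝ) ≤ p := by exact_mod_cast hp
  have hp0 : (0 : ℝ) < (p : ℝ) - 1 := by linarith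
  have hq' : (p : ℝ) ^ n = q * ((p : ℝ) - 1) + 1 := by
    have h1 : ((p ^ n : ℕ) : ℝ) = ((q * (p - 1) + 1 : ℕ) : ℝ) := by rw [hq]
    rw [Nat.cast_add, Nat.cast_mul, Nat.cast_sub (by omega)] at h1
    push_cast at h1
    exact h1
  have hpn : 1 < p ^ n := Nat.one_lt_pow (by omega) (by omega)
  have hqpos : 0 < q := by
    rcases Nat.eq_zero_or_pos q with h0 | h0
    · rw [h0] at hq
      omega
    · exact h0
  have hqR : (0 : ℝ) < q := by exact_mod_cast hqpos
  have hP : (0 : ℝ) < (p : ℝ) ^ n := by positivity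
  -- the first factor
  have b1 : (3 / 4 : ℝ) * (((p : ℝ) ^ n) ^ q) ≤ ((q : ℝ) * ((p : ℝ) - 1)) ^ q := by
    have e1 : (q : ℝ) * ((p : ℝ) - 1) = (p : ℝ) ^ n * (1 + (-(1 / (p : ℝ) ^ n))) := by
      field_simp
      linarith
    rw [e1, mul_pow, mul_comm]
    refine mul_le_mul_of_nonneg_left ?_ (by positivity)
    have e2 : (1 : ℝ) + q * (-(1 / (p : ℝ) ^ n)) ≤ (1 + (-(1 / (p : ℝ) ^ n))) ^ q := by
      refine one_add_mul_le_pow ?_ q
      have : 1 / (p : ℝ) ^ n ≤ 1 := by
        rw [div_le_one hP]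
        exact_mod_cast hpn.le
      linarith
    refine le_trans ?_ e2
    have e3 : (q : ℝ) * (1 / (p : ℝ) ^ n) ≤ 1 / 4 := by
      rw [mul_one_div, div_le_iff₀ hP]
      nlinarith
    linarith
  -- the second factor
  have b2 : (1 / 2 : ℝ) ≤ (((p : ℝ) - 2) / ((p : ℝ) - 1)) ^ K := by
    have e1 : ((p : ℝ) - 2) / ((p : ℝ) - 1) = 1 + (-(1 / ((p : ℝ) - 1))) := by
      field_simp
      ring
    rw [e1]
    refine le_trans ?_ (one_add_mul_le_pow ?_ K)
    · have e3 : (K : ℝ) ≤ p / 4 := by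
        rw [hK]
        exact Nat.cast_div_le
      have e4 : (K : ℝ) * (1 / ((p : ℝ) - 1)) ≤ 1 / 2 := by
        rw [mul_one_div, div_le_iff₀ hp0]
        linarith
      linarith
    · have : 1 / ((p : ℝ) - 1) ≤ 1 := by
        rw [div_le_one hp0]
        linarith
      linarith
  -- the bound for q
  have b3 : (q : ℝ) ≤ 192 * (p : ℝ) ^ (n - 3) * (K : ℝ) ^ 2 := by
    have e1 : (p : ℝ) / 8 ≤ K := by
      have h8 : p ≤ 8 * K := by omega
      have : (p : ℝ) ≤ 8 * K := by exact_mod_cast h8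
      linarith
    have e2 : (p : ℝ) ^ 2 / 64 ≤ (K : ℝ) ^ 2 := by
      have := pow_le_pow_left₀ (by positivity) e1 2
      rw [div_pow] at this
      norm_num at this
      exact this
    have e3 : (q : ℝ) ≤ 3 * ((p : ℝ) ^ (n - 3) * (p : ℝ) ^ 2) := by
      have e4 : (p : ℝ) ^ n = (p : ℝ) ^ (n - 3) * (p : ℝ) ^ 2 * p := by
        rw [← pow_add, ← pow_succ]
        congr 1
        omega
      have e5 : (q : ℝ) * ((p : ℝ) - 1) ≤ 3 * ((p : ℝ) ^ (n - 3) * (p : ℝ) ^ 2) * ((p : ℝ) - 1) := by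
        have e6 : (0 : ℝ) ≤ (p : ℝ) ^ (n - 3) * (p : ℝ) ^ 2 := by positivity
        nlinarith
      exact le_of_mul_le_mul_right e5 hp0
    have e7 : (0 : ℝ) ≤ (p : ℝ) ^ (n - 3) := by positivity
    nlinarith [mul_le_mul_of_nonneg_left e2 e7]
  have hfew' : (K : ℝ) ^ 2 * (q : ℝ) ^ q ≤ 8 * q * few := by exact_mod_cast hfew
  have hB : (0 : ℝ) ≤ B := Nat.cast_nonneg _
  have hRq : 0 < R ^ q := by positivity
  -- the lower bound for T
  have b4 : ((p : ℝ) ^ n * R) ^ q ≤ 4096 * (p : ℝ) ^ (n - 3) * T := by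
    have e7 : (0 : ℝ) ≤ (p : ℝ) ^ (n - 3) := by positivity
    have e1 : (K : ℝ) ^ 2 * ((q : ℝ) * ((p : ℝ) - 1)) ^ q ≤ 8 * q * few * ((p : ℝ) - 1) ^ q := by
      rw [mul_pow, ← mul_assoc]
      exact mul_le_mul_of_nonneg_right hfew' (by positivity)
    have e2 : (K : ℝ) ^ 2 * ((3 / 4 : ℝ) * (((p : ℝ) ^ n) ^ q)) ≤
        8 * q * (few * ((p : ℝ) - 1) ^ q) := by
      refine le_trans (mul_le_mul_of_nonneg_left b1 (by positivity)) ?_
      linarith
    have e3 : (few : ℝ) * ((p : ℝ) - 1) ^ q * R ^ q * (1 / 2) ≤ T := by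
      refine le_trans ?_ hT
      rw [mul_pow, mul_assoc, mul_assoc, ← mul_assoc (((p : ℝ) - 1) ^ q)]
      refine mul_le_mul_of_nonneg_left ?_ (Nat.cast_nonneg _)
      exact mul_le_mul_of_nonneg_left b2 (by positivity)
    have e4 : (K : ℝ) ^ 2 * (3 / 4 * (((p : ℝ) ^ n) ^ q)) * R ^ q ≤ 16 * q * T := by
      have := mul_le_mul_of_nonneg_right e2 hRq.le
      nlinarith
    have hT0 : 0 ≤ T := by
      refine le_trans ?_ e3
      positivity
    have e5 : (q : ℝ) * (((p : ℝ) ^ n) ^ q * R ^ q) ≤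
        192 * (p : ℝ) ^ (n - 3) * ((K : ℝ) ^ 2 * (((p : ℝ) ^ n) ^ q * R ^ q)) := by
      have := mul_le_mul_of_nonneg_right b3 (by positivity : 0 ≤ ((p : ℝ) ^ n) ^ q * R ^ q)
      linarith
    have e6 : (K : ℝ) ^ 2 * (((p : ℝ) ^ n) ^ q * R ^ q) ≤ 64 / 3 * q * T := by
      nlinarith
    have e8 : (q : ℝ) * (((p : ℝ) ^ n) ^ q * R ^ q) ≤ q * (4096 * (p : ℝ) ^ (n - 3) * T) := by
      have e9 := mul_le_mul_of_nonneg_left e6 (by positivity : 0 ≤ 192 * (p : ℝ) ^ (n - 3))
      linarith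
    rw [mul_pow]
    exact le_of_mul_le_mul_left e8 hqR
  have b5 : (B : ℝ) * ((p : ℝ) ^ n * R) ^ q ≤
      4096 * (p : ℝ) ^ (n - 3) * A * ((p : ℝ) ^ n * R) ^ q := by
    have := mul_le_mul_of_nonneg_left b4 hB
    calc (B : ℝ) * ((p : ℝ) ^ n * R) ^ q ≤ B * (4096 * (p : ℝ) ^ (n - 3) * T) := this
      _ = 4096 * (p : ℝ) ^ (n - 3) * (B * T) := by ring
      _ = 4096 * (p : ℝ) ^ (n - 3) * (A * ((p : ℝ) ^ n * R) ^ q) := by rw [h]
      _ = _ := by ring
  have b6 : (B : ℝ) ≤ 4096 * (p : ℝ) ^ (n - 3) * A :=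
    le_of_mul_le_mul_right b5 (by positivity)
  exact_mod_cast b6

end count

/-- the proportion of the tuples of forms over `ZMod p` which are good is at least
`1 / (4096 p ^ (n - 3))` -/
theorem good_density {n : ℕ} (hn : 3 ≤ n) {p : ℕ} [Fact p.Prime] (hp : 5 ≤ p) (d : ℕ)
    (hd : 2 * Nat.card (ℙ (ZMod p) (Fin n → ZMod p)) ≤ d) :
    p ^ Fintype.card (Idx n d) ≤ 4096 * p ^ (n - 3) *
      Nat.card {c : Idx n d → ZMod p // Good (form c)} := by
  classical
  haveI hfin : Finite (ℙ (ZMod p) (Fin n → ZMod p)) := by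
    refine Finite.of_surjective
      (fun a : {a : Fin n → ZMod p // a ≠ 0} => Projectivization.mk (ZMod p) a.1 a.2) fun x => ?_
    exact ⟨⟨x.rep, x.rep_nonzero⟩, x.mk_rep⟩
  haveI := Fintype.ofFinite (ℙ (ZMod p) (Fin n → ZMod p))
  set q := Fintype.card (ℙ (ZMod p) (Fin n → ZMod p)) with hqdef
  have hcard : p ^ n = q * (p - 1) + 1 := by
    have h := Projectivization.card' (k := ZMod p) (V := Fin n → ZMod p)
    rw [Nat.card_eq_fintype_card, Nat.card_eq_fintype_card (α := ZMod p), ZMod.card,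
      Nat.card_eq_fintype_card, Fintype.card_pi] at h
    simpa [ZMod.card] using h
  have hp1 : 1 < p := by omega
  have hK : 4 * (p / 4) ^ 2 ≤ q := by
    have h1 : 4 * (p / 4) ≤ p := Nat.mul_div_le p 4
    have h2 : p ^ 3 ≤ p ^ n := Nat.pow_le_pow_right (by omega) hn
    have h3 : p ^ 2 * (p - 1) ≤ q * (p - 1) := by
      have h4 : p ^ 2 * (p - 1) + 1 ≤ p ^ 3 := by
        obtain ⟨r, rfl⟩ : ∃ r, p = r + 1 := ⟨p - 1, by omega⟩
        rw [Nat.add_sub_cancel]
        nlinarith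
      omega
    have h5 : p ^ 2 ≤ q := Nat.le_of_mul_le_mul_right h3 (by omega)
    have h6 : (4 * (p / 4)) ^ 2 ≤ p ^ 2 := Nat.pow_le_pow_left h1 2
    rw [mul_pow] at h6
    omega
  set Few : Finset (ℙ (ZMod p) (Fin n → ZMod p) → ℙ (ZMod p) (Fin n → ZMod p)) :=
    Finset.univ.filter fun f => {x | ∃ m : ℕ, 1 ≤ m ∧ f^[m] x = x}.ncard ≤ p / 4 with hFew
  have hfew : (p / 4) ^ 2 * q ^ q ≤ 8 * q * Few.card := by
    have h := card_few_periodic (X := ℙ (ZMod p) (Fin n → ZMod p)) (p / 4) hK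
    rw [Nat.card_eq_fintype_card, Fintype.card_subtype] at h
    exact h
  set Tf : (ℙ (ZMod p) (Fin n → ZMod p) → ℙ (ZMod p) (Fin n → ZMod p)) →
      Finset (ℙ (ZMod p) (Fin n → ZMod p) → (Fin n → ZMod p) × Matrix (Fin n) (Fin n) (ZMod p)) :=
    fun f => Fintype.piFinset (fun x => loc d x (f x) (∃ m : ℕ, 1 ≤ m ∧ f^[m] x = x)) with hTf
  set S : Finset (ℙ (ZMod p) (Fin n → ZMod p) →
      (Fin n → ZMod p) × Matrix (Fin n) (Fin n) (ZMod p)) :=
    Fintype.piFinset (fun x => glob d x) with hS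
  set T := Few.biUnion Tf with hT
  have hTS : T ⊆ S := by
    intro b hb
    obtain ⟨f, _, hf⟩ := Finset.mem_biUnion.1 hb
    refine Fintype.mem_piFinset.2 fun x => ?_
    have h1 := (Finset.mem_filter.1 ((Fintype.mem_piFinset.1 hf) x)).2
    exact Finset.mem_filter.2 ⟨Finset.mem_univ _, h1.1⟩
  have hcardT : T.card = ∑ f ∈ Few, (Tf f).card := by
    rw [hT]
    refine Finset.card_biUnion ?_
    intro f _ g _ hfg
    refine Finset.disjoint_left.2 ?_
    intro b hb hb'
    apply hfg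
    funext x
    obtain ⟨hv, h1⟩ := ((Finset.mem_filter.1 ((Fintype.mem_piFinset.1 hb) x)).2).2.1
    obtain ⟨hv', h2⟩ := ((Finset.mem_filter.1 ((Fintype.mem_piFinset.1 hb') x)).2).2.1
    rw [← h1, ← h2]
  have hp5 : (5 : ℝ) ≤ p := by exact_mod_cast hp
  have hp0 : (0 : ℝ) < (p : ℝ) - 1 := by linarith
  have hTfcard : ∀ f ∈ Few, (((p : ℝ) - 1) * (p : ℝ) ^ (n * (n - 1))) ^ q *
      (((p : ℝ) - 2) / ((p : ℝ) - 1)) ^ (p / 4) ≤ ((Tf f).card : ℝ) := by
    intro f hf
    have h1 : {x | ∃ m : ℕ, 1 ≤ m ∧ f^[m] x = x}.ncard ≤ p / 4 := (Finset.mem_filter.1 hf).2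
    rw [hTf]
    simp only
    rw [Fintype.card_piFinset]
    push_cast
    have h2 : ∏ x : ℙ (ZMod p) (Fin n → ZMod p), (((p : ℝ) - 1) * (p : ℝ) ^ (n * (n - 1)) *
        (if (∃ m : ℕ, 1 ≤ m ∧ f^[m] x = x) then ((p : ℝ) - 2) / ((p : ℝ) - 1) else 1)) ≤
        ∏ x, ((loc d x (f x) (∃ m : ℕ, 1 ≤ m ∧ f^[m] x = x)).card : ℝ) := by
      refine Finset.prod_le_prod (fun x _ => ?_) fun x _ => card_loc (by omega) d x (f x) _
      refine mul_nonneg (by positivity) ?_
      split_ifs
      · exact div_nonneg (by linarith) hp0.le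
      · exact zero_le_one
    refine le_trans ?_ h2
    rw [Finset.prod_mul_distrib, Finset.prod_const, Finset.card_univ, ← hqdef]
    refine mul_le_mul_of_nonneg_left ?_ (by positivity)
    rw [Finset.prod_ite, Finset.prod_const, Finset.prod_const_one, mul_one]
    refine pow_le_pow_of_le_one (div_nonneg (by linarith) hp0.le) ?_ ?_
    · rw [div_le_one hp0]
      linarith
    · rw [Set.ncard_eq_toFinset_card'] at h1
      refine le_trans (le_of_eq ?_) h1
      congr 1
      ext x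
      simp
  have hTcard : (Few.card : ℝ) * ((((p : ℝ) - 1) * (p : ℝ) ^ (n * (n - 1))) ^ q *
      (((p : ℝ) - 2) / ((p : ℝ) - 1)) ^ (p / 4)) ≤ (T.card : ℝ) := by
    rw [hcardT]
    push_cast
    rw [← nsmul_eq_mul, ← Finset.sum_const]
    exact Finset.sum_le_sum hTfcard
  have hScard : S.card = (p ^ n * p ^ (n * (n - 1))) ^ q := by
    rw [hS, Fintype.card_piFinset]
    simp only [card_glob]
    rw [Finset.prod_const, Finset.card_univ]
  have hfib := fib_card (conf (n := n) (d := d) (ZMod p)) S T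
    (fun b hb => mem_range_conf d hd b hb) (fun c => conf_mem d c) hTS
  have hgood : (Finset.univ.filter (fun c => conf (n := n) (d := d) (ZMod p) c ∈ T)).card ≤
      Nat.card {c : Idx n d → ZMod p // Good (form c)} := by
    rw [Nat.card_eq_fintype_card, Fintype.card_subtype]
    refine Finset.card_le_card fun c hc => ?_
    refine Finset.mem_filter.2 ⟨Finset.mem_univ _, ?_⟩
    obtain ⟨f, _, hf⟩ := Finset.mem_biUnion.1 (Finset.mem_filter.1 hc).2
    refine good_of_conf (form_isHomogeneous c) f (fun x => ?_) (fun x hx => ?_)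
    · exact ((Finset.mem_filter.1 ((Fintype.mem_piFinset.1 hf) x)).2).2.1
    · exact ((Finset.mem_filter.1 ((Fintype.mem_piFinset.1 hf) x)).2).2.2 hx
  have hAcard : Fintype.card (Idx n d → ZMod p) = p ^ Fintype.card (Idx n d) := by
    rw [Fintype.card_fun, ZMod.card]
  rw [hScard, hAcard] at hfib
  have hmain := final87 n p q (p / 4) _ (p ^ Fintype.card (Idx n d)) hn hp hcard rfl (T.card : ℝ)
    Few.card ((p : ℝ) ^ (n * (n - 1))) (by positivity) hfew hTcard
    (by exact_mod_cast hfib)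
  exact hmain.trans (Nat.mul_le_mul_left _ hgood)

end Pool.Agent.Helper87.LD
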