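import Mathlib

/-!
# LD, block Q: the sieve in a box
-/

set_option autoImplicit false

namespace Pool.Agent.Helper87.LD

/-- The integers of an interval in one residue class modulo the product of the primes of `T`. -/
theorem sieve_card_class (T : Finset ℕ) (hT : ∀ p ∈ T, p.Prime) (B : ℕ) (z : (p : T) → ZMod p) :
    ((Finset.filter (fun k : ℤ => ∀ p : T, ((k : ℤ) : ZMod p) = z p) (Finset.Icc (-(B : ℤ)) B)).card : ℝ) ≤
      (2 * (B : ℝ) + 1) / ((∏ p ∈ T, p : ℕ) : ℝ) + 1 := by
  set M : ℕ := ∏ p ∈ T, p with hM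
  have hM0 : 0 < M := Finset.prod_pos (fun p hp => (hT p hp).pos)
  have hMr : (0 : ℝ) < M := by exact_mod_cast hM0
  by_cases hemp : (Finset.filter (fun k : ℤ => ∀ p : T, ((k : ℤ) : ZMod p) = z p)
      (Finset.Icc (-(B : ℤ)) B)).Nonempty
  · obtain ⟨v, hv⟩ := hemp
    rw [Finset.mem_filter] at hv
    have hsub : Finset.filter (fun k : ℤ => ∀ p : T, ((k : ℤ) : ZMod p) = z p) (Finset.Icc (-(B : ℤ)) B) ⊆
        Finset.filter (fun k : ℤ => k ≡ v [ZMOD (M : ℤ)]) (Finset.Ioc (-(B : ℤ) - 1) B) := by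
      intro k hk
      rw [Finset.mem_filter, Finset.mem_Icc] at hk
      rw [Finset.mem_filter, Finset.mem_Ioc]
      refine ⟨⟨by omega, hk.1.2⟩, ?_⟩
      have h1 : (M : ℤ) ∣ v - k := by
        rw [hM]
        push_cast
        apply Finset.prod_dvd_of_coprime
        · intro a ha b hb hab
          have h2 : Nat.Coprime a b := (Nat.coprime_primes (hT a ha) (hT b hb)).2 hab
          exact Nat.isCoprime_iff_coprime.2 h2
        · intro p hp
          have h2 := hk.2 ⟨p, hp⟩
          have h3 := hv.2 ⟨p, hp⟩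
          have h4 : ((k : ℤ) : ZMod p) = ((v : ℤ) : ZMod p) := by
            rw [show ((k : ℤ) : ZMod p) = z ⟨p, hp⟩ from h2, show ((v : ℤ) : ZMod p) = z ⟨p, hp⟩ from h3]
          exact (ZMod.intCast_eq_intCast_iff_dvd_sub k v p).1 h4
      exact Int.modEq_iff_dvd.2 h1
    have h1 := Finset.card_le_card hsub
    have h2 := Int.Ioc_filter_modEq_card (-(B : ℤ) - 1) B (r := (M : ℤ)) (by exact_mod_cast hM0) v
    have h3 : ((Finset.filter (fun k : ℤ => k ≡ v [ZMOD (M : ℤ)]) (Finset.Ioc (-(B : ℤ) - 1) B)).card : ℝ) ≤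
        (2 * (B : ℝ) + 1) / M + 1 := by
      set W := (Finset.filter (fun k : ℤ => k ≡ v [ZMOD (M : ℤ)]) (Finset.Ioc (-(B : ℤ) - 1) B)).card with hW
      have h4 : (W : ℚ) ≤ (2 * (B : ℚ) + 1) / M + 1 := by
        have h5 : ((W : ℤ) : ℚ) ≤ (2 * (B : ℚ) + 1) / M + 1 := by
          rw [h2]
          push_cast
          apply max_le
          · have h6 := Int.floor_le (((B : ℚ) - v) / M)
            have h7 := Int.sub_one_lt_floor ((-(B : ℚ) - 1 - v) / M)
            have h8 : ((B : ℚ) - v) / M - (-(B : ℚ) - 1 - v) / M = (2 * (B : ℚ) + 1) / M := by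
              rw [← sub_div]
              congr 1
              ring
            linarith
          · positivity
        exact_mod_cast h5
      have h9 : ((W : ℚ) : ℝ) ≤ (((2 * (B : ℚ) + 1) / M + 1 : ℚ) : ℝ) := by exact_mod_cast h4
      push_cast at h9
      exact h9
    exact le_trans (by exact_mod_cast h1) h3
  · rw [Finset.not_nonempty_iff_eq_empty] at hemp
    rw [hemp]
    simp only [Finset.card_empty, Nat.cast_zero]
    positivity

/-- integral vectors in a box whose reductions modulo the primes of `T` are all bad -/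
theorem sieve_box {ι : Type*} [Fintype ι] [DecidableEq ι] (T : Finset ℕ)
    (hT : ∀ p ∈ T, p.Prime) (Bad : (p : ℕ) → Set (ι → ZMod p)) (δ : ℕ → ℝ)
    (h : ∀ p ∈ T, ((Bad p).ncard : ℝ) ≤ (1 - δ p) * (p : ℝ) ^ Fintype.card ι) (η : ℝ)
    (hη : 0 < η) :
    ∃ B₀ : ℕ, ∀ B : ℕ, B₀ ≤ B →
      ({c : ι → ℤ | (∀ i, |c i| ≤ (B : ℤ)) ∧ ∀ p ∈ T, (fun i => (c i : ZMod p)) ∈ Bad p}.ncard : ℝ)
        ≤ (∏ p ∈ T, (1 - δ p) + η) * (2 * (B : ℝ) + 1) ^ Fintype.card ι := by
  classical
  set n := Fintype.card ι with hn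
  set M : ℕ := ∏ p ∈ T, p with hM
  have hM0 : 0 < M := Finset.prod_pos (fun p hp => (hT p hp).pos)
  have hMr : (0 : ℝ) < M := by exact_mod_cast hM0
  have : ∀ p : T, NeZero (p : ℕ) := fun p => ⟨(hT p p.2).ne_zero⟩
  have hδ : ∀ p ∈ T, 0 ≤ 1 - δ p := by
    intro p hp
    have h1 := h p hp
    have h2 : (0 : ℝ) < (p : ℝ) ^ n := by
      have : (0 : ℝ) < p := by exact_mod_cast (hT p hp).pos
      positivity
    have h3 : (0 : ℝ) ≤ (1 - δ p) * (p : ℝ) ^ n := le_trans (Nat.cast_nonneg _) h1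
    exact nonneg_of_mul_nonneg_left h3 h2
  set P : ℝ := ∏ p ∈ T, (1 - δ p) with hP
  have hP0 : 0 ≤ P := Finset.prod_nonneg hδ
  -- the bad classes
  let F : (p : T) → Finset (ι → ZMod (p : ℕ)) := fun p => (Set.toFinite (Bad (p : ℕ))).toFinset
  have hFcard : ((Fintype.piFinset F).card : ℝ) ≤ P * (M : ℝ) ^ n := by
    rw [Fintype.card_piFinset]
    push_cast
    have e1 : ∀ p : T, ((F p).card : ℝ) ≤ (1 - δ p) * ((p : ℕ) : ℝ) ^ n := by
      intro p
      have e2 : (F p).card = (Bad (p : ℕ)).ncard := by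
        rw [Set.ncard_eq_toFinset_card _ (Set.toFinite _)]
      rw [e2]
      exact h p p.2
    calc ∏ p : T, ((F p).card : ℝ) ≤ ∏ p : T, ((1 - δ p) * ((p : ℕ) : ℝ) ^ n) :=
          Finset.prod_le_prod (fun p _ => Nat.cast_nonneg _) (fun p _ => e1 p)
      _ = ∏ p ∈ T, ((1 - δ p) * (p : ℝ) ^ n) := Finset.prod_coe_sort T (fun p => (1 - δ p) * (p : ℝ) ^ n)
      _ = P * (M : ℝ) ^ n := by
          rw [Finset.prod_mul_distrib, Finset.prod_pow, hM]
          push_cast
          rfl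
  -- the count
  have key : ∀ B : ℕ,
      ({c : ι → ℤ | (∀ i, |c i| ≤ (B : ℤ)) ∧ ∀ p ∈ T, (fun i => (c i : ZMod p)) ∈ Bad p}.ncard : ℝ)
        ≤ P * (2 * (B : ℝ) + 1 + M) ^ n := by
    intro B
    set S : Finset (ι → ℤ) := (Fintype.piFinset (fun _ : ι => Finset.Icc (-(B : ℤ)) B)).filter
      (fun c => ∀ p ∈ T, (fun i => (c i : ZMod p)) ∈ Bad p) with hS
    have hset : {c : ι → ℤ | (∀ i, |c i| ≤ (B : ℤ)) ∧ ∀ p ∈ T, (fun i => (c i : ZMod p)) ∈ Bad p} = ↑S := by
      ext c
      rw [hS]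
      simp only [Set.mem_ofPred_eq, Finset.coe_filter, Fintype.mem_piFinset, Finset.mem_Icc, abs_le]
    rw [hset, Set.ncard_coe_finset]
    let g : (ι → ℤ) → ((p : T) → (ι → ZMod (p : ℕ))) := fun c p i => ((c i : ℤ) : ZMod (p : ℕ))
    have hmap : ∀ c ∈ S, g c ∈ Fintype.piFinset F := by
      intro c hc
      rw [hS, Finset.mem_filter] at hc
      rw [Fintype.mem_piFinset]
      intro p
      have := hc.2 p p.2
      exact (Set.Finite.mem_toFinset _).2 this
    have hfib : ∀ z ∈ Fintype.piFinset F, ((S.filter (fun c => g c = z)).card : ℝ) ≤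
        ((2 * (B : ℝ) + 1) / M + 1) ^ n := by
      intro z _
      have hsub : S.filter (fun c => g c = z) ⊆ Fintype.piFinset (fun i : ι =>
          Finset.filter (fun k : ℤ => ∀ p : T, ((k : ℤ) : ZMod p) = z p i) (Finset.Icc (-(B : ℤ)) B)) := by
        intro c hc
        rw [Finset.mem_filter, hS, Finset.mem_filter, Fintype.mem_piFinset] at hc
        rw [Fintype.mem_piFinset]
        intro i
        rw [Finset.mem_filter]
        refine ⟨hc.1.1 i, ?_⟩
        intro p
        have := congrFun (congrFun hc.2 p) i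
        exact this
      calc ((S.filter (fun c => g c = z)).card : ℝ) ≤ ((Fintype.piFinset (fun i : ι =>
          Finset.filter (fun k : ℤ => ∀ p : T, ((k : ℤ) : ZMod p) = z p i)
            (Finset.Icc (-(B : ℤ)) B))).card : ℝ) := by exact_mod_cast Finset.card_le_card hsub
        _ = ∏ i : ι, ((Finset.filter (fun k : ℤ => ∀ p : T, ((k : ℤ) : ZMod p) = z p i)
            (Finset.Icc (-(B : ℤ)) B)).card : ℝ) := by
            rw [Fintype.card_piFinset]
            push_cast
            rfl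
        _ ≤ ∏ _i : ι, ((2 * (B : ℝ) + 1) / M + 1) := by
            apply Finset.prod_le_prod (fun i _ => Nat.cast_nonneg _)
            intro i _
            exact sieve_card_class T hT B (fun p => z p i)
        _ = ((2 * (B : ℝ) + 1) / M + 1) ^ n := by
            rw [Finset.prod_const, Finset.card_univ]
    have hsum : (S.card : ℝ) = ∑ z ∈ Fintype.piFinset F, ((S.filter (fun c => g c = z)).card : ℝ) := by
      rw [Finset.card_eq_sum_card_fiberwise hmap]
      push_cast
      rfl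
    calc (S.card : ℝ) = ∑ z ∈ Fintype.piFinset F, ((S.filter (fun c => g c = z)).card : ℝ) := hsum
      _ ≤ ∑ _z ∈ Fintype.piFinset F, ((2 * (B : ℝ) + 1) / M + 1) ^ n := Finset.sum_le_sum hfib
      _ = ((Fintype.piFinset F).card : ℝ) * ((2 * (B : ℝ) + 1) / M + 1) ^ n := by
          rw [Finset.sum_const, nsmul_eq_mul]
      _ ≤ (P * (M : ℝ) ^ n) * ((2 * (B : ℝ) + 1) / M + 1) ^ n :=
          mul_le_mul_of_nonneg_right hFcard (by positivity)
      _ = P * (2 * (B : ℝ) + 1 + M) ^ n := by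
          rw [mul_assoc, ← mul_pow]
          congr 2
          field_simp
  -- the limit
  have hlim : Filter.Tendsto (fun B : ℕ => P * (1 + (M : ℝ) / (2 * (B : ℝ) + 1)) ^ n) Filter.atTop
      (nhds (P * (1 + 0) ^ n)) := by
    apply Filter.Tendsto.const_mul
    apply Filter.Tendsto.pow
    apply Filter.Tendsto.const_add
    apply Filter.Tendsto.div_atTop tendsto_const_nhds
    apply Filter.tendsto_atTop_add_const_right
    exact Filter.Tendsto.const_mul_atTop (by norm_num) tendsto_natCast_atTop_atTop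
  rw [add_zero, one_pow, mul_one] at hlim
  have hev := hlim.eventually (gt_mem_nhds (show P < P + η by linarith))
  obtain ⟨B₀, hB₀⟩ := Filter.eventually_atTop.1 hev
  refine ⟨B₀, fun B hB => (key B).trans ?_⟩
  have h1 := hB₀ B hB
  have h2 : (0 : ℝ) < 2 * (B : ℝ) + 1 := by positivity
  have h3 : P * (2 * (B : ℝ) + 1 + M) ^ n = (P * (1 + (M : ℝ) / (2 * (B : ℝ) + 1)) ^ n) *
      (2 * (B : ℝ) + 1) ^ n := by
    rw [mul_assoc, ← mul_pow]
    congr 2
    field_simp
  rw [h3]
  exact mul_le_mul_of_nonneg_right h1.le (by positivity)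

end Pool.Agent.Helper87.LD
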