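import Pool.Agent.Helper87.LD.Local
import Pool.Agent.Helper87.LD.Ext
import Pool.Agent.Helper87.LD.Sieve
import Pool.Agent.Helper87.MQ.Fixed

/-!
# LD: almost all endomorphisms of the plane and of 3-space. Assembly
-/

set_option autoImplicit false

namespace Pool.Agent.Helper87.LD

open MvPolynomial
open Pool.Agent.Helper86.DML (pmap)
open Pool.Agent.Helper87.DMLP (primesFor not_summable_primesFor prime_of_mem_primesFor)
open Pool.Agent.Helper87.MQ (exists_field_emb_compat)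

noncomputable section

/-! ### Descent of the equations -/

section low

variable {n : ℕ} {L K : Type*} [Field L] [Field K] [Algebra L K]

/-- the polynomial obtained by applying a linear functional to the coefficients -/
def low (u : K →ₗ[L] L) (G : MvPolynomial (Fin n) K) : MvPolynomial (Fin n) L :=
  ∑ s ∈ G.support, monomial s (u (coeff s G))

theorem eval_low (u : K →ₗ[L] L) (G : MvPolynomial (Fin n) K) (β : Fin n → L) :
    eval β (low u G) = u (eval (fun i => algebraMap L K (β i)) G) := by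
  rw [low, map_sum, eval_eq (fun i => algebraMap L K (β i)) G, map_sum]
  refine Finset.sum_congr rfl fun s _ => ?_
  have h1 : coeff s G * ∏ i ∈ s.support, algebraMap L K (β i) ^ s i =
      (∏ i ∈ s.support, β i ^ s i) • coeff s G := by
    rw [Algebra.smul_def, map_prod, mul_comm]
    simp only [map_pow]
  rw [h1, map_smul, smul_eq_mul, eval_monomial, mul_comm]
  rfl

theorem low_isHomogeneous {e : ℕ} (u : K →ₗ[L] L) {G : MvPolynomial (Fin n) K}
    (hG : G.IsHomogeneous e) : (low u G).IsHomogeneous e := by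
  refine IsHomogeneous.sum _ _ _ fun s hs => ?_
  refine isHomogeneous_monomial _ ?_
  by_contra hne
  exact (mem_support_iff.1 hs) (hG.coeff_eq_zero hne)

theorem eval_eq_zero_iff_low (G : MvPolynomial (Fin n) K) (β : Fin n → L) :
    eval (fun i => algebraMap L K (β i)) G = 0 ↔ ∀ u : K →ₗ[L] L, eval β (low u G) = 0 := by
  constructor
  · intro h u
    rw [eval_low, h, map_zero]
  · intro h
    rw [← Module.forall_dual_apply_eq_zero_iff L]
    intro u
    rw [← eval_low]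
    exact h u

end low

/-! ### Arithmetic progressions -/

/-- a finite set together with arithmetic progressions with difference `Q`, which start before
`n₀ + Q` -/
def IsAP (n₀ Q : ℕ) (R : Set ℕ) : Prop :=
  ∃ E T : Finset ℕ, (∀ a ∈ T, a < n₀ + Q) ∧ R = {n | n ∈ E ∨ ∃ a ∈ T, ∃ k, n = a + Q * k}

theorem isAP_of_dich (R : Set ℕ) {n₀ Q : ℕ} (hQ : 1 ≤ Q)
    (h : ∀ r, {k | n₀ + r + Q * k ∈ R}.Finite ∨ ∀ k, n₀ + r + Q * k ∈ R) : IsAP n₀ Q R := by
  classical
  let T : Finset ℕ := (Finset.range Q).filter fun r => ∀ k, n₀ + r + Q * k ∈ R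
  let E : Set ℕ := {n ∈ R | n < n₀} ∪ ⋃ r ∈ (Finset.range Q).filter fun r =>
    {k | n₀ + r + Q * k ∈ R}.Finite, (fun k => n₀ + r + Q * k) '' {k | n₀ + r + Q * k ∈ R}
  have hE : E.Finite := by
    refine ((Set.finite_lt_nat n₀).subset fun n hn => hn.2).union ?_
    refine Set.Finite.biUnion (Finset.finite_toSet _) fun r hr => ?_
    exact Set.Finite.image _ (Finset.mem_filter.1 (Finset.mem_coe.1 hr)).2
  refine ⟨hE.toFinset, T.image (fun r => n₀ + r), ?_, ?_⟩
  · intro a ha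
    obtain ⟨r, hr, rfl⟩ := Finset.mem_image.1 ha
    have := Finset.mem_range.1 (Finset.mem_filter.1 hr).1
    omega
  ext n
  constructor
  · intro hn
    by_cases hlt : n < n₀
    · exact Or.inl (hE.mem_toFinset.2 (Or.inl ⟨hn, hlt⟩))
    · have hr : (n - n₀) % Q < Q := Nat.mod_lt _ hQ
      have hn' : n = n₀ + (n - n₀) % Q + Q * ((n - n₀) / Q) := by
        have := Nat.mod_add_div (n - n₀) Q
        omega
      rcases h ((n - n₀) % Q) with h1 | h1
      · refine Or.inl (hE.mem_toFinset.2 (Or.inr ?_))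
        refine Set.mem_biUnion (x := (n - n₀) % Q) ?_ ?_
        · exact Finset.mem_coe.2 (Finset.mem_filter.2 ⟨Finset.mem_range.2 hr, h1⟩)
        · refine ⟨(n - n₀) / Q, ?_, hn'.symm⟩
          show n₀ + (n - n₀) % Q + Q * ((n - n₀) / Q) ∈ R
          rw [← hn']
          exact hn
      · refine Or.inr ⟨n₀ + (n - n₀) % Q, ?_, (n - n₀) / Q, hn'⟩
        exact Finset.mem_image.2 ⟨_, Finset.mem_filter.2 ⟨Finset.mem_range.2 hr, h1⟩, rfl⟩
  · rintro (hn | ⟨a, ha, k, rfl⟩)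
    · rcases hE.mem_toFinset.1 hn with hn | hn
      · exact hn.1
      · simp only [Set.mem_iUnion] at hn
        obtain ⟨r, hr, k', hk', rfl⟩ := hn
        exact hk'
    · obtain ⟨r, hr, rfl⟩ := Finset.mem_image.1 ha
      exact (Finset.mem_filter.1 hr).2 k

theorem dich_mono {R : Set ℕ} {n₀ Q n₁ Q₁ : ℕ} (hn : n₁ ≤ n₀) (hQ : 1 ≤ Q) (hd : Q₁ ∣ Q)
    (h : ∀ r, {k | n₁ + r + Q₁ * k ∈ R}.Finite ∨ ∀ k, n₁ + r + Q₁ * k ∈ R) (r : ℕ) :
    {k | n₀ + r + Q * k ∈ R}.Finite ∨ ∀ k, n₀ + r + Q * k ∈ R := by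
  obtain ⟨m, rfl⟩ := hd
  have hm : 1 ≤ m := by
    by_contra hcon
    have h0 : m = 0 := by omega
    rw [h0, mul_zero] at hQ
    omega
  have h1 : ∀ k, n₀ + r + Q₁ * m * k = n₁ + (n₀ - n₁ + r) + Q₁ * (m * k) := by
    intro k
    rw [mul_assoc]
    omega
  simp only [h1]
  rcases h (n₀ - n₁ + r) with h2 | h2
  · left
    refine (h2.preimage (f := fun k => m * k) ?_).subset fun k hk => hk
    intro a _ b _ hab
    exact Nat.eq_of_mul_eq_mul_left hm hab
  · right
    exact fun k => h2 _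

/-! ### One good prime -/

/-- one good prime suffices: the dynamical Mordell-Lang conjecture for all points over a field which
embeds in the `p`-adic numbers, and all closed subsets over any larger field -/
theorem dich_of_good {n d p : ℕ} [Fact p.Prime] (hp : 3 ≤ p) (c : Idx n d → ℤ_[p])
    (hG : Good (form fun i => PadicInt.toZMod (c i))) {L : Type*} [Field L] {K : Type*} [Field K]
    [Algebra L K] (φ : L →+* ℚ_[p]) (b : Idx n d → L) (hb : ∀ i, φ (b i) = c i)
    (α : Fin n → L) (hα : α ≠ 0)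
    (V : Set (MvPolynomial (Fin n) K)) (hV : ∀ G ∈ V, ∃ e : ℕ, G.IsHomogeneous e) (r : ℕ) :
    {k | nres n p ℤ_[p] + r + per n p ℤ_[p] * k ∈
      {k : ℕ | ∀ G ∈ V, eval ((pmap (form fun i => algebraMap L K (b i)))^[k]
        fun i => algebraMap L K (α i)) G = 0}}.Finite ∨
    ∀ k, nres n p ℤ_[p] + r + per n p ℤ_[p] * k ∈
      {k : ℕ | ∀ G ∈ V, eval ((pmap (form fun i => algebraMap L K (b i)))^[k]
        fun i => algebraMap L K (α i)) G = 0} := by
  have h := good_dml hp c hG φ b hb α hα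
  have key : ∀ (k : ℕ) (G : MvPolynomial (Fin n) K),
      eval ((pmap (form fun i => algebraMap L K (b i)))^[k] fun i => algebraMap L K (α i)) G = 0 ↔
      ∀ u : K →ₗ[L] L, eval ((pmap (form b))^[k] α) (low u G) = 0 := by
    intro k G
    have h1 := pmap_map_iterate (algebraMap L K) (form b) k α
    rw [form_map] at h1
    rw [h1]
    exact eval_eq_zero_iff_low G _
  by_cases hall : ∀ G ∈ V, ∀ k, eval ((pmap (form fun i => algebraMap L K (b i)))^[nres n p ℤ_[p] +
      r + per n p ℤ_[p] * k] fun i => algebraMap L K (α i)) G = 0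
  · right
    intro k G hGV
    exact hall G hGV k
  · left
    push Not at hall
    obtain ⟨G, hGV, k, hk⟩ := hall
    obtain ⟨e, he⟩ := hV G hGV
    have hk' : ∃ u : K →ₗ[L] L, eval ((pmap (form b))^[nres n p ℤ_[p] + r +
        per n p ℤ_[p] * k] α) (low u G) ≠ 0 := by
      by_contra hcon
      push Not at hcon
      exact hk ((key _ G).2 hcon)
    obtain ⟨u, hu⟩ := hk'
    rcases h e (low u G) (low_isHomogeneous u he) r with h1 | h1
    · exact h1.subset fun k' hk' => (key _ G).1 (hk' G hGV) u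
    · exact absurd (h1 k) hu

/-- the residue classes of the generators at a prime for which the field embeds -/
theorem exists_residues (m : ℕ) (e : Fin m → ℂ) (he : e ≠ 0) (A : Finset ℂ) :
    ∃ A' : Finset ℂ, ∀ q ∈ primesFor A', 3 ≤ q → ∃ E : Fin m → ZMod q, E ≠ 0 ∧
      ∃ _ : Fact q.Prime, ∀ (n d : ℕ) (c : Fin m × Idx n d → ℤ),
        Good (form (lc E fun j => (c j : ZMod q))) →
        ∀ α : Fin n → ℂ, α ≠ 0 → (∀ i, α i ∈ Subfield.closure (A : Set ℂ)) →
        ∀ V : Set (MvPolynomial (Fin n) ℂ), (∀ G ∈ V, ∃ e : ℕ, G.IsHomogeneous e) → ∀ r : ℕ,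
        {k | nres n q ℤ_[q] + r + per n q ℤ_[q] * k ∈
          {k : ℕ | ∀ G ∈ V, eval ((pmap (form (lc e fun j => (c j : ℂ))))^[k] α) G = 0}}.Finite ∨
        ∀ k, nres n q ℤ_[q] + r + per n q ℤ_[q] * k ∈
          {k : ℕ | ∀ G ∈ V, eval ((pmap (form (lc e fun j => (c j : ℂ))))^[k] α) G = 0} := by
  classical
  obtain ⟨j₀, hj₀⟩ := Function.ne_iff.1 he
  set A' : Finset ℂ := A ∪ (Finset.univ.image e ∪ {(e j₀)⁻¹}) with hA'
  refine ⟨A', fun q hq hq3 => ?_⟩
  obtain ⟨hF, ι, φ, hφ⟩ := exists_field_emb_compat A' q hq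
  have hej : ∀ j, e j ∈ Subring.closure (A' : Set ℂ) := fun j =>
    Subring.subset_closure (Finset.mem_coe.2 (Finset.mem_union_right _
      (Finset.mem_union_left _ (Finset.mem_image_of_mem _ (Finset.mem_univ j)))))
  have hinv : (e j₀)⁻¹ ∈ Subring.closure (A' : Set ℂ) :=
    Subring.subset_closure (Finset.mem_coe.2 (Finset.mem_union_right _
      (Finset.mem_union_right _ (Finset.mem_singleton_self _))))
  have hle : Subring.closure (A' : Set ℂ) ≤ (Subfield.closure (A' : Set ℂ)).toSubring :=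
    Subfield.subring_closure_le _
  have hAA' : Subfield.closure (A : Set ℂ) ≤ Subfield.closure (A' : Set ℂ) := by
    refine Subfield.closure_mono ?_
    rw [hA', Finset.coe_union]
    exact Set.subset_union_left
  refine ⟨fun j => PadicInt.toZMod (ι ⟨e j, hej j⟩), ?_, hF, ?_⟩
  · intro h0
    have h1 : (⟨e j₀, hej j₀⟩ : Subring.closure (A' : Set ℂ)) * ⟨(e j₀)⁻¹, hinv⟩ = 1 :=
      Subtype.ext (mul_inv_cancel₀ hj₀)
    have h2 := congrArg (fun z => PadicInt.toZMod (ι z)) h1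
    simp only [map_mul, map_one] at h2
    have h3 := congrFun h0 j₀
    simp only [Pi.zero_apply] at h3
    rw [h3, zero_mul] at h2
    exact zero_ne_one h2
  intro n d c hG α hα hαL V hV r
  have hcL : ∀ j, e j ∈ Subfield.closure (A' : Set ℂ) := fun j => hle (hej j)
  set cp : Idx n d → ℤ_[q] := lc (fun j => ι ⟨e j, hej j⟩) fun j => (c j : ℤ_[q]) with hcp
  set b : Idx n d → Subfield.closure (A' : Set ℂ) :=
    lc (fun j => (⟨e j, hcL j⟩ : Subfield.closure (A' : Set ℂ)))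
      fun j => (c j : Subfield.closure (A' : Set ℂ)) with hb
  have h1 : (form fun i => PadicInt.toZMod (cp i)) =
      form (lc (fun j => PadicInt.toZMod (ι ⟨e j, hej j⟩)) fun j => (c j : ZMod q)) := by
    congr 1
    funext i
    rw [hcp, lc, lc, map_sum]
    refine Finset.sum_congr rfl fun j _ => ?_
    rw [map_mul, map_intCast]
  have h2 : ∀ i, φ (b i) = cp i := by
    intro i
    have h3 : ((cp i : ℤ_[q]) : ℚ_[q]) = (PadicInt.Coe.ringHom : ℤ_[q] →+* ℚ_[q]) (cp i) := rfl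
    rw [h3, hb, hcp, lc, lc, map_sum, map_sum]
    refine Finset.sum_congr rfl fun j _ => ?_
    rw [map_mul, map_mul, map_intCast, map_intCast, hφ (e j) (hej j) (hcL j)]
    rfl
  have h3 : (form fun i => algebraMap (Subfield.closure (A' : Set ℂ)) ℂ (b i)) =
      form (lc e fun j => (c j : ℂ)) := by
    congr 1
    funext i
    rw [hb, lc, lc, map_sum]
    refine Finset.sum_congr rfl fun j _ => ?_
    rw [map_mul, map_intCast]
    rfl
  have h4 := dich_of_good (K := ℂ) hq3 cp (by rw [h1]; exact hG) φ b h2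
    (fun i => ⟨α i, hAA' (hαL i)⟩) (fun h0 => hα (funext fun i =>
      congrArg Subtype.val (congrFun h0 i))) V hV r
  rw [h3] at h4
  exact h4

/-! ### Many primes -/

/-- a finite set of primes with small product -/
theorem exists_primes_prod (Pri : Set ℕ) (hdiv : ¬ Summable (fun q : Pri => (1 : ℝ) / (q : ℕ)))
    (hPri : ∀ q ∈ Pri, q.Prime) (η : ℝ) (hη : 0 < η) :
    ∃ P : Finset ℕ, (∀ q ∈ P, q ∈ Pri ∧ 5 ≤ q) ∧
      ∏ q ∈ P, (1 - 1 / (4096 * (q : ℝ))) ≤ η := by
  classical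
  obtain ⟨u, hu⟩ : ∃ u : Finset Pri, 4096 * (-Real.log η) + 5 < ∑ q ∈ u, (1 : ℝ) / (q : ℕ) := by
    by_contra h
    push Not at h
    exact hdiv (summable_of_sum_le (fun q => by positivity) h)
  set U : Finset ℕ := u.image (fun q : Pri => (q : ℕ)) with hU
  have h2 : ∑ q ∈ u, (1 : ℝ) / (q : ℕ) = ∑ q ∈ U, (1 : ℝ) / q := by
    rw [hU, Finset.sum_image]
    intro a _ b _ hab
    exact Subtype.ext hab
  rw [h2] at hu
  set P : Finset ℕ := U.filter (fun q => 5 ≤ q) with hP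
  have h3 : ∑ q ∈ U.filter (fun q => ¬ 5 ≤ q), (1 : ℝ) / q ≤ 5 := by
    have h4 : U.filter (fun q => ¬ 5 ≤ q) ⊆ Finset.range 5 := by
      intro q hq
      rw [Finset.mem_range]
      have := (Finset.mem_filter.1 hq).2
      omega
    calc ∑ q ∈ U.filter (fun q => ¬ 5 ≤ q), (1 : ℝ) / q ≤
        ∑ q ∈ U.filter (fun q => ¬ 5 ≤ q), (1 : ℝ) := by
          refine Finset.sum_le_sum fun q _ => ?_
          rcases Nat.eq_zero_or_pos q with h0 | h0
          · simp [h0]
          · rw [div_le_one (by exact_mod_cast h0)]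
            exact_mod_cast h0
      _ ≤ ∑ q ∈ Finset.range 5, (1 : ℝ) :=
          Finset.sum_le_sum_of_subset_of_nonneg h4 fun _ _ _ => zero_le_one
      _ = 5 := by simp
  have h5 : 4096 * (-Real.log η) < ∑ q ∈ P, (1 : ℝ) / q := by
    have := Finset.sum_filter_add_sum_filter_not U (fun q => 5 ≤ q) (fun q => (1 : ℝ) / q)
    rw [← this] at hu
    linarith
  refine ⟨P, ?_, ?_⟩
  · intro q hq
    have h6 := Finset.mem_filter.1 hq
    obtain ⟨r, _, hr⟩ := Finset.mem_image.1 h6.1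
    exact ⟨hr ▸ r.2, h6.2⟩
  · calc ∏ q ∈ P, (1 - 1 / (4096 * (q : ℝ))) ≤
        ∏ q ∈ P, Real.exp (-(1 / (4096 * (q : ℝ)))) := by
          refine Finset.prod_le_prod (fun q hq => ?_) fun q _ => ?_
          · have h6 : (5 : ℝ) ≤ q := by exact_mod_cast (Finset.mem_filter.1 hq).2
            rw [sub_nonneg, div_le_one (by positivity)]
            linarith
          · have := Real.add_one_le_exp (-(1 / (4096 * (q : ℝ))))
            linarith
      _ = Real.exp (-((1 / 4096) * ∑ q ∈ P, (1 : ℝ) / q)) := by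
          rw [← Real.exp_sum]
          congr 1
          rw [Finset.mul_sum, ← Finset.sum_neg_distrib]
          refine Finset.sum_congr rfl fun q _ => ?_
          rw [one_div_mul_one_div]
      _ ≤ Real.exp (Real.log η) := by
          refine Real.exp_le_exp.2 ?_
          linarith
      _ = η := Real.exp_log hη

/-- the set of the integral vectors in a box is finite -/
theorem box_finite {ι : Type*} [Finite ι] (B : ℕ) : {c : ι → ℤ | ∀ i, |c i| ≤ (B : ℤ)}.Finite := by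
  have := Set.Finite.pi (ι := ι) (t := fun _ => Set.Icc (-(B : ℤ)) B) (fun _ => Set.finite_Icc _ _)
  refine this.subset fun c hc i _ => ?_
  exact Set.mem_Icc.2 (abs_le.1 (hc i))

/-- the number of the integral vectors in a box -/
theorem box_ncard {ι : Type*} [Fintype ι] (B : ℕ) :
    ({c : ι → ℤ | ∀ i, |c i| ≤ (B : ℤ)}.ncard : ℝ) = (2 * (B : ℝ) + 1) ^ Fintype.card ι := by
  classical
  have h1 : {c : ι → ℤ | ∀ i, |c i| ≤ (B : ℤ)} =
      ↑(Fintype.piFinset fun _ : ι => Finset.Icc (-(B : ℤ)) B) := by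
    ext c
    rw [Finset.mem_coe, Fintype.mem_piFinset]
    simp only [Finset.mem_Icc, ← abs_le]
    rfl
  rw [h1, Set.ncard_coe_finset, Fintype.card_piFinset, Finset.prod_const, Finset.card_univ,
    Int.card_Icc]
  push_cast
  congr 1
  have h2 : (((B : ℤ) + 1 - (-(B : ℤ))).toNat : ℤ) = 2 * B + 1 := by
    rw [Int.toNat_of_nonneg (by omega)]
    ring
  have h3 : ((((B : ℤ) + 1 - (-(B : ℤ))).toNat : ℤ) : ℝ) = ((2 * B + 1 : ℤ) : ℝ) := by rw [h2]
  push_cast at h3
  exact h3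

/-- **Main theorem.** -/
theorem ld_main (n : ℕ) (hn : n = 3 ∨ n = 4) (m : ℕ) (e : Fin m → ℂ) (he : e ≠ 0) (A : Finset ℂ)
    (ε : ℝ) (hε : 0 < ε) :
    ∃ d₀ n₀ Q : ℕ, 1 ≤ Q ∧ ∀ d : ℕ, d₀ ≤ d → ∃ B₀ : ℕ, ∀ B : ℕ, B₀ ≤ B →
      (1 - ε) * (2 * (B : ℝ) + 1) ^ Fintype.card (Fin m × Idx n d) ≤
        ({c : Fin m × Idx n d → ℤ | (∀ i, |c i| ≤ (B : ℤ)) ∧
          (∀ z : Fin n → ℂ, (∀ i, eval z (form (lc e fun j => (c j : ℂ)) i) = 0) → z = 0) ∧
          ∀ α : Fin n → ℂ, α ≠ 0 → (∀ i, α i ∈ Subfield.closure (A : Set ℂ)) →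
            ∀ V : Set (MvPolynomial (Fin n) ℂ), (∀ G ∈ V, ∃ e : ℕ, G.IsHomogeneous e) →
              IsAP n₀ Q {k : ℕ | ∀ G ∈ V,
                eval ((pmap (form (lc e fun j => (c j : ℂ))))^[k] α) G = 0}}.ncard : ℝ) := by
  classical
  obtain ⟨A', hA'⟩ := exists_residues m e he A
  obtain ⟨P, hP, hprod⟩ := exists_primes_prod (primesFor A') (not_summable_primesFor A')
    (prime_of_mem_primesFor A') (ε / 3) (by linarith)
  have hPprime : ∀ q ∈ P, q.Prime := fun q hq => prime_of_mem_primesFor A' q (hP q hq).1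
  have hbd : ∀ q : ℕ, ∃ m n₁ Q₁ : ℕ, 1 ≤ Q₁ ∧ ∀ _ : Fact q.Prime,
      2 * Nat.card (Projectivization (ZMod q) (Fin n → ZMod q)) ≤ m ∧
        n₁ = nres n q ℤ_[q] ∧ Q₁ = per n q ℤ_[q] := by
    intro q
    by_cases hq : q.Prime
    · haveI := Fact.mk hq
      exact ⟨2 * Nat.card (Projectivization (ZMod q) (Fin n → ZMod q)), nres n q ℤ_[q],
        per n q ℤ_[q], per_pos n q ℤ_[q], fun _ => ⟨le_refl _, rfl, rfl⟩⟩
    · exact ⟨0, 0, 1, le_refl _, fun h => absurd h.out hq⟩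
  choose mq nq Tq hTq hmq using hbd
  have hEex : ∀ q : ℕ, ∃ E : Fin m → ZMod q, q ∈ P → (E ≠ 0 ∧
      ∃ _ : Fact q.Prime, ∀ (n d : ℕ) (c : Fin m × Idx n d → ℤ),
        Good (form (lc E fun j => (c j : ZMod q))) →
        ∀ α : Fin n → ℂ, α ≠ 0 → (∀ i, α i ∈ Subfield.closure (A : Set ℂ)) →
        ∀ V : Set (MvPolynomial (Fin n) ℂ), (∀ G ∈ V, ∃ e : ℕ, G.IsHomogeneous e) → ∀ r : ℕ,
        {k | nres n q ℤ_[q] + r + per n q ℤ_[q] * k ∈
          {k : ℕ | ∀ G ∈ V, eval ((pmap (form (lc e fun j => (c j : ℂ))))^[k] α) G = 0}}.Finite ∨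
        ∀ k, nres n q ℤ_[q] + r + per n q ℤ_[q] * k ∈
          {k : ℕ | ∀ G ∈ V, eval ((pmap (form (lc e fun j => (c j : ℂ))))^[k] α) G = 0}) := by
    intro q
    by_cases hq : q ∈ P
    · obtain ⟨E, hE⟩ := hA' q (hP q hq).1 (by have := (hP q hq).2; omega)
      exact ⟨E, fun _ => hE⟩
    · exact ⟨0, fun h => absurd h hq⟩
  choose E hE using hEex
  have hQpos : 1 ≤ ∏ q ∈ P, Tq q := Nat.succ_le_of_lt (Finset.prod_pos fun q _ => hTq q)
  refine ⟨(∑ q ∈ P, mq q) + 1, ∑ q ∈ P, nq q, ∏ q ∈ P, Tq q, hQpos, fun d hd => ?_⟩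
  have hdq : ∀ q ∈ P, mq q ≤ d := fun q hq =>
    (Finset.single_le_sum (fun _ _ => Nat.zero_le _) hq).trans (by omega)
  obtain ⟨B₁, hB₁⟩ := sieve_box (ι := Fin m × Idx n d) P hPprime
    (fun q => BadE n d m q (E q)) (fun q => 1 / (4096 * (q : ℝ)))
    (fun q hq => by
      haveI := Fact.mk (hPprime q hq)
      exact badE_ncard hn (hP q hq).2 d m ((hmq q inferInstance).1.trans (hdq q hq)) (E q)
        (hE q hq).1)
    (ε / 3) (by linarith)
  obtain ⟨B₂, hB₂⟩ := endo_boxC n d m e he (ε / 3) (by linarith)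
  refine ⟨max B₁ B₂, fun B hB => ?_⟩
  have h1 := hB₁ B ((le_max_left _ _).trans hB)
  have h2 := hB₂ B ((le_max_right _ _).trans hB)
  set X : Set (Fin m × Idx n d → ℤ) := {c | (∀ i, |c i| ≤ (B : ℤ)) ∧
    ∀ p ∈ P, (fun i => (c i : ZMod p)) ∈ BadE n d m p (E p)} with hX
  set Y : Set (Fin m × Idx n d → ℤ) := {c | (∀ i, |c i| ≤ (B : ℤ)) ∧
    ¬ ∀ z : Fin n → ℂ, (∀ i, eval z (form (lc e fun j => (c j : ℂ)) i) = 0) → z = 0} with hY
  set Z : Set (Fin m × Idx n d → ℤ) := {c : Fin m × Idx n d → ℤ | (∀ i, |c i| ≤ (B : ℤ)) ∧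
    (∀ z : Fin n → ℂ, (∀ i, eval z (form (lc e fun j => (c j : ℂ)) i) = 0) → z = 0) ∧
      ∀ α : Fin n → ℂ, α ≠ 0 → (∀ i, α i ∈ Subfield.closure (A : Set ℂ)) →
        ∀ V : Set (MvPolynomial (Fin n) ℂ), (∀ G ∈ V, ∃ e : ℕ, G.IsHomogeneous e) →
          IsAP (∑ q ∈ P, nq q) (∏ q ∈ P, Tq q) {k : ℕ | ∀ G ∈ V,
            eval ((pmap (form (lc e fun j => (c j : ℂ))))^[k] α) G = 0}} with hZ
  have hfin := box_finite (ι := Fin m × Idx n d) B
  have hsub : {c : Fin m × Idx n d → ℤ | ∀ i, |c i| ≤ (B : ℤ)} ⊆ Z ∪ (X ∪ Y) := by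
    intro c hc
    by_cases hcY : c ∈ Y
    · exact Or.inr (Or.inr hcY)
    by_cases hcX : c ∈ X
    · exact Or.inr (Or.inl hcX)
    left
    refine ⟨hc, ?_, ?_⟩
    · by_contra hcon
      exact hcY ⟨hc, hcon⟩
    · have h3 : ∃ q ∈ P, ∃ _ : Fact q.Prime,
          Good (form (lc (E q) fun j => (c j : ZMod q))) := by
        by_contra hcon
        refine hcX ⟨hc, fun q hq h => ?_⟩
        exact hcon ⟨q, hq, h⟩
      obtain ⟨q, hq, _, hgood⟩ := h3
      intro α hα hαL V hV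
      obtain ⟨-, hnq, hTq2⟩ := hmq q inferInstance
      refine isAP_of_dich _ hQpos fun r => ?_
      refine dich_mono (n₁ := nq q) (Q₁ := Tq q)
        (Finset.single_le_sum (fun _ _ => Nat.zero_le _) hq)
        hQpos (Finset.dvd_prod_of_mem _ hq) (fun r => ?_) r
      rw [hnq, hTq2]
      obtain ⟨_, hfinal⟩ := (hE q hq).2
      exact hfinal n d c hgood α hα hαL V hV r
  have h3 : ({c : Fin m × Idx n d → ℤ | ∀ i, |c i| ≤ (B : ℤ)}.ncard : ℝ) ≤
      (Z.ncard : ℝ) + ((X.ncard : ℝ) + (Y.ncard : ℝ)) := by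
    have hfin' : (Z ∪ (X ∪ Y)).Finite := by
      refine hfin.subset ?_
      rintro c (hc | hc | hc)
      · exact hc.1
      · exact hc.1
      · exact hc.1
    have h4 := (Set.ncard_le_ncard hsub hfin').trans ((Set.ncard_union_le _ _).trans
      (Nat.add_le_add_left (Set.ncard_union_le _ _) _))
    exact_mod_cast h4
  rw [box_ncard] at h3
  have h5 : 0 ≤ (2 * (B : ℝ) + 1) ^ Fintype.card (Fin m × Idx n d) := by positivity
  have h6 := mul_le_mul_of_nonneg_right hprod h5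
  rw [add_mul] at h1
  linarith

end

end Pool.Agent.Helper87.LD
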