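import Pool.Agent.Helper87.LD.Main

/-!
# LD: periodic points, and coefficient vectors of forms
-/

set_option autoImplicit false

namespace Pool.Agent.Helper87.LD

open MvPolynomial
open Pool.Agent.Helper86.DML (pmap)

section per

variable {n d : ℕ}

theorem iterate_smul {k : Type*} [Field k] {P : Fin n → MvPolynomial (Fin n) k}
    (hP : ∀ i, (P i).IsHomogeneous d) (m : ℕ) (t : k) (x : Fin n → k) :
    (pmap P)^[m] (t • x) = t ^ d ^ m • (pmap P)^[m] x :=
  pmap_smul_iterate hP m t x

/-- the lines through a vector -/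
def lineForms {k : Type*} [Field k] (α : Fin n → k) : Set (MvPolynomial (Fin n) k) :=
  {G | ∃ i j, G = C (α i) * X j - C (α j) * X i}

theorem lineForms_homogeneous {k : Type*} [Field k] (α : Fin n → k) :
    ∀ G ∈ lineForms α, ∃ e : ℕ, G.IsHomogeneous e := by
  rintro G ⟨i, j, rfl⟩
  refine ⟨1, IsHomogeneous.sub ?_ ?_⟩
  · exact isHomogeneous_C_mul_X _ _
  · exact isHomogeneous_C_mul_X _ _

theorem mem_line_iff {k : Type*} [Field k] {α : Fin n → k} (hα : α ≠ 0) (y : Fin n → k) :
    (∀ G ∈ lineForms α, eval y G = 0) ↔ ∃ t : k, y = t • α := by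
  constructor
  · intro h
    obtain ⟨i, hi⟩ := Function.ne_iff.1 hα
    have hi' : α i ≠ 0 := hi
    refine ⟨y i / α i, funext fun j => ?_⟩
    have h1 := h _ ⟨i, j, rfl⟩
    simp only [map_sub, map_mul, eval_C, eval_X] at h1
    rw [Pi.smul_apply, smul_eq_mul, div_mul_eq_mul_div, eq_div_iff hi']
    linear_combination h1
  · rintro ⟨t, rfl⟩ G ⟨i, j, rfl⟩
    simp only [map_sub, map_mul, eval_C, eval_X, Pi.smul_apply, smul_eq_mul]
    ring

/-- the period `Q` of the return sets is a multiple of the periods of the periodic points -/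
theorem per_of_isAP {k : Type*} [Field k] {P : Fin n → MvPolynomial (Fin n) k}
    (hP : ∀ i, (P i).IsHomogeneous d) (hE : ∀ z : Fin n → k, (∀ i, eval z (P i) = 0) → z = 0)
    {α : Fin n → k} (hα : α ≠ 0) {n₀ Q : ℕ}
    (h : IsAP n₀ Q {m | ∀ G ∈ lineForms α, eval ((pmap P)^[m] α) G = 0})
    (hper : ∃ j : ℕ, 1 ≤ j ∧ ∃ t : k, (pmap P)^[j] α = t • α) :
    ∃ t : k, (pmap P)^[Q] α = t • α := by
  obtain ⟨j, hj, t, ht⟩ := hper
  obtain ⟨E, T, -, hR⟩ := h
  have hmem : ∀ m, (m ∈ E ∨ ∃ a ∈ T, ∃ k, m = a + Q * k) ↔ ∃ t : k, (pmap P)^[m] α = t • α := by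
    intro m
    rw [← mem_line_iff hα]
    have h1 : m ∈ {m | ∀ G ∈ lineForms α, eval ((pmap P)^[m] α) G = 0} ↔
        m ∈ {n | n ∈ E ∨ ∃ a ∈ T, ∃ k, n = a + Q * k} := by rw [hR]
    exact h1.symm
  have hne : ∀ m, (pmap P)^[m] α ≠ 0 := by
    intro m
    induction m with
    | zero => exact hα
    | succ m ih =>
      rw [Function.iterate_succ_apply']
      intro h0
      exact ih (hE _ fun i => congrFun h0 i)
  have hmul : ∀ i, ∃ s : k, (pmap P)^[j * i] α = s • α := by
    intro i
    induction i with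
    | zero => exact ⟨1, by simp⟩
    | succ i ih =>
      obtain ⟨s, hs⟩ := ih
      refine ⟨s ^ d ^ j * t, ?_⟩
      have h1 : j * (i + 1) = j + j * i := by ring
      rw [h1, Function.iterate_add_apply, hs, iterate_smul hP, ht, smul_smul]
  obtain ⟨a, ha⟩ : T.Nonempty := by
    by_contra hcon
    rw [Finset.not_nonempty_iff_eq_empty] at hcon
    have h1 : ∀ i, j * i ∈ E := by
      intro i
      rcases (hmem (j * i)).2 (hmul i) with h2 | ⟨a, ha, -⟩
      · exact h2
      · rw [hcon] at ha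
        exact absurd ha (Finset.notMem_empty a)
    have h2 : Set.Infinite (Set.range fun i : ℕ => j * i) :=
      Set.infinite_range_of_injective fun x y hxy => Nat.eq_of_mul_eq_mul_left hj hxy
    exact h2 ((Finset.finite_toSet E).subset (by
      rintro _ ⟨i, rfl⟩
      exact h1 i))
  obtain ⟨s, hs⟩ := (hmem a).1 (Or.inr ⟨a, ha, 0, by simp⟩)
  obtain ⟨s', hs'⟩ := (hmem (a + Q)).1 (Or.inr ⟨a, ha, 1, by simp⟩)
  have hs0 : s ≠ 0 := by
    rintro rfl
    exact hne a (by rw [hs, zero_smul])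
  rw [add_comm, Function.iterate_add_apply, hs, iterate_smul hP] at hs'
  refine ⟨(s ^ d ^ Q)⁻¹ * s', ?_⟩
  rw [← smul_smul, ← hs', smul_smul, inv_mul_cancel₀ (pow_ne_zero _ hs0), one_smul]

end per

section coeffs

variable {n d m : ℕ}

theorem coeff_form {R : Type*} [CommRing R] (c : Idx n d → R) (i : Fin n)
    (s : {s : Fin n →₀ ℕ // s ∈ ex n d}) : coeff s.1 (form c i) = c (i, s) := by
  classical
  rw [form, coeff_sum]
  simp only [coeff_monomial]
  rw [Finset.sum_eq_single s]
  · simp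
  · intro b _ hb
    rw [if_neg]
    intro h
    exact hb (Subtype.ext h)
  · intro h
    exact absurd (Finset.mem_univ _) h

theorem coeff_form_of_notMem {R : Type*} [CommRing R] (c : Idx n d → R) (i : Fin n)
    {s : Fin n →₀ ℕ} (hs : s ∉ ex n d) : coeff s (form c i) = 0 := by
  refine (form_isHomogeneous c i).coeff_eq_zero ?_
  intro h
  rw [Finsupp.degree_eq_sum] at h
  exact hs (mem_ex.2 h)

/-- the family of forms with the coefficients `c` -/
noncomputable def fam (c : Fin m × Idx n d → ℤ) (j : Fin m) : Fin n → MvPolynomial (Fin n) ℤ :=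
  form fun i => c (j, i)

theorem fam_injective : Function.Injective (fam (n := n) (d := d) (m := m)) := by
  intro c c' h
  funext ⟨j, i, s⟩
  have h1 := congrArg (coeff s.1) (congrFun (congrFun h j) i)
  rw [fam, fam, coeff_form, coeff_form] at h1
  exact h1

theorem fam_surj (F : Fin m → Fin n → MvPolynomial (Fin n) ℤ)
    (hF : ∀ j i, (F j i).IsHomogeneous d) : ∃ c : Fin m × Idx n d → ℤ, fam c = F := by
  choose c hc using fun j => form_surj (F j) (hF j)
  exact ⟨fun j => c j.1 j.2, funext fun j => hc j⟩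

theorem comb_fam (e : Fin m → ℂ) (c : Fin m × Idx n d → ℤ) (i : Fin n) :
    ∑ j, C (e j) * map (Int.castRingHom ℂ) (fam c j i) = form (lc e fun j => (c j : ℂ)) i := by
  have h1 : ∀ j, C (e j) * map (Int.castRingHom ℂ) (fam c j i) =
      ∑ s : {s : Fin n →₀ ℕ // s ∈ ex n d}, monomial s.1 (e j * (c (j, i, s) : ℂ)) := by
    intro j
    rw [fam, map_form, form, Finset.mul_sum]
    refine Finset.sum_congr rfl fun s _ => ?_
    rw [C_mul_monomial]
    rfl
  rw [Finset.sum_congr rfl fun j _ => h1 j, Finset.sum_comm, form]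
  refine Finset.sum_congr rfl fun s _ => ?_
  rw [lc, map_sum]

end coeffs

end Pool.Agent.Helper87.LD
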