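import Pool.Agent.Helper87.LD.Main
import Pool.Agent.Helper87.LD.Core
import Pool.Agent.Helper87.LD.Per
import Pool.Agent.Helper26.LT.Ext

/-!
# LD: almost all endomorphisms of the plane and of 3-space, with a uniform number of sporadic
returns. Assembly
-/

set_option autoImplicit false

namespace Pool.Agent.Helper87.LD

open MvPolynomial
open Pool.Agent.Helper86.DML (pmap)
open Pool.Agent.Helper87.DMLP (primesFor not_summable_primesFor prime_of_mem_primesFor)
open Pool.Agent.Helper87.MQ (exists_field_emb_compat)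
open Pool.Agent.Helper26.LT (exists_ext_complex countable_closure)

noncomputable section

/-! ### Arithmetic progressions -/

/-- at most `K` elements together with arithmetic progressions with difference `Q`, which start
before `n₀ + Q` -/
def IsAPU (n₀ Q K : ℕ) (R : Set ℕ) : Prop :=
  ∃ E T : Finset ℕ, E.card ≤ K ∧ (∀ a ∈ T, a < n₀ + Q) ∧
    R = {n | n ∈ E ∨ ∃ a ∈ T, ∃ k, n = a + Q * k}

theorem isAPU_of_dich (R : Set ℕ) {n₀ Q K : ℕ} (hQ : 1 ≤ Q)
    (h : ∀ r, {k | n₀ + r + Q * k ∈ R}.encard ≤ K ∨ ∀ k, n₀ + r + Q * k ∈ R) :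
    IsAPU n₀ Q (n₀ + Q * K) R := by
  classical
  let T : Finset ℕ := (Finset.range Q).filter fun r => ∀ k, n₀ + r + Q * k ∈ R
  have hfin : ∀ r, ¬ (∀ k, n₀ + r + Q * k ∈ R) → {k | n₀ + r + Q * k ∈ R}.Finite ∧
      {k | n₀ + r + Q * k ∈ R}.ncard ≤ K := by
    intro r hr
    have h1 := (h r).resolve_right hr
    have h2 : {k | n₀ + r + Q * k ∈ R}.Finite := Set.finite_of_encard_le_coe h1
    refine ⟨h2, ?_⟩
    rw [← h2.cast_ncard_eq] at h1
    exact_mod_cast h1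
  -- the sporadic elements
  let S : ℕ → Finset ℕ := fun r => if hr : {k | n₀ + r + Q * k ∈ R}.Finite then
    hr.toFinset.image (fun k => n₀ + r + Q * k) else ∅
  let E : Finset ℕ := ((Finset.range n₀).filter fun n => n ∈ R) ∪
    ((Finset.range Q).filter fun r => ¬ ∀ k, n₀ + r + Q * k ∈ R).biUnion S
  have hScard : ∀ r ∈ (Finset.range Q).filter (fun r => ¬ ∀ k, n₀ + r + Q * k ∈ R),
      (S r).card ≤ K := by
    intro r hr
    obtain ⟨h1, h2⟩ := hfin r (Finset.mem_filter.1 hr).2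
    simp only [S]
    rw [dif_pos h1]
    refine Finset.card_image_le.trans ?_
    rwa [Set.ncard_eq_toFinset_card _ h1] at h2
  refine ⟨E, T.image (fun r => n₀ + r), ?_, ?_, ?_⟩
  · refine (Finset.card_union_le _ _).trans (Nat.add_le_add ?_ ?_)
    · exact (Finset.card_filter_le _ _).trans (Finset.card_range n₀).le
    · refine (Finset.card_biUnion_le_card_mul _ _ _ hScard).trans (Nat.mul_le_mul_right _ ?_)
      exact (Finset.card_filter_le _ _).trans (Finset.card_range Q).le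
  · intro a ha
    obtain ⟨r, hr, rfl⟩ := Finset.mem_image.1 ha
    have := Finset.mem_range.1 (Finset.mem_filter.1 hr).1
    omega
  ext n
  constructor
  · intro hn
    by_cases hlt : n < n₀
    · left
      exact Finset.mem_union_left _ (Finset.mem_filter.2 ⟨Finset.mem_range.2 hlt, hn⟩)
    · have hr : (n - n₀) % Q < Q := Nat.mod_lt _ hQ
      have hn' : n = n₀ + (n - n₀) % Q + Q * ((n - n₀) / Q) := by
        have := Nat.mod_add_div (n - n₀) Q
        omega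
      by_cases hall : ∀ k, n₀ + (n - n₀) % Q + Q * k ∈ R
      · refine Or.inr ⟨n₀ + (n - n₀) % Q, ?_, (n - n₀) / Q, hn'⟩
        exact Finset.mem_image.2 ⟨_, Finset.mem_filter.2 ⟨Finset.mem_range.2 hr, hall⟩, rfl⟩
      · left
        refine Finset.mem_union_right _ (Finset.mem_biUnion.2 ⟨(n - n₀) % Q,
          Finset.mem_filter.2 ⟨Finset.mem_range.2 hr, hall⟩, ?_⟩)
        obtain ⟨h1, -⟩ := hfin _ hall
        simp only [S]
        rw [dif_pos h1]
        refine Finset.mem_image.2 ⟨(n - n₀) / Q, h1.mem_toFinset.2 ?_, hn'.symm⟩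
        show n₀ + (n - n₀) % Q + Q * ((n - n₀) / Q) ∈ R
        rw [← hn']
        exact hn
  · rintro (hn | ⟨a, ha, k, rfl⟩)
    · rcases Finset.mem_union.1 hn with hn | hn
      · exact (Finset.mem_filter.1 hn).2
      · obtain ⟨r, hr, hn⟩ := Finset.mem_biUnion.1 hn
        obtain ⟨h1, -⟩ := hfin r (Finset.mem_filter.1 hr).2
        simp only [S] at hn
        rw [dif_pos h1] at hn
        obtain ⟨k, hk, rfl⟩ := Finset.mem_image.1 hn
        exact h1.mem_toFinset.1 hk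
    · obtain ⟨r, hr, rfl⟩ := Finset.mem_image.1 ha
      exact (Finset.mem_filter.1 hr).2 k

theorem dich_monoU {R : Set ℕ} {n₀ Q n₁ Q₁ K : ℕ} (hn : n₁ ≤ n₀) (hQ : 1 ≤ Q) (hd : Q₁ ∣ Q)
    (h : ∀ r, {k | n₁ + r + Q₁ * k ∈ R}.encard ≤ K ∨ ∀ k, n₁ + r + Q₁ * k ∈ R) (r : ℕ) :
    {k | n₀ + r + Q * k ∈ R}.encard ≤ K ∨ ∀ k, n₀ + r + Q * k ∈ R := by
  obtain ⟨m, rfl⟩ := hd
  have hm : 1 ≤ m := by
    by_contra hcon
    have h0 : m = 0 := by omega
    rw [h0, mul_zero] at hQ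
    omega
  have h1 : ∀ k, n₀ + r + Q₁ * m * k = n₁ + (n₀ - n₁ + r) + Q₁ * (m * k) := by
    intro k
    rw [mul_assoc]
    omega
  simp only [h1]
  rcases h (n₀ - n₁ + r) with h2 | h2
  · left
    exact encard_mul_le (Z := {k | n₁ + (n₀ - n₁ + r) + Q₁ * k ∈ R}) hm h2
  · right
    exact fun k => h2 _

/-! ### One good prime -/

theorem dich_of_goodU {n d p : ℕ} [Fact p.Prime] (hp : 3 ≤ p) (c : Idx n d → ℤ_[p])
    (hG : Good (form fun i => PadicInt.toZMod (c i))) (δ : ℕ) :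
    ∃ K₁ : ℕ, ∀ {L : Type} [Field L] {K : Type} [Field K] [Algebra L K] (φ : L →+* ℚ_[p])
      (b : Idx n d → L), (∀ i, φ (b i) = c i) → ∀ α : Fin n → L, α ≠ 0 →
      ∀ V : Set (MvPolynomial (Fin n) K), (∀ G ∈ V, ∃ e ≤ δ, G.IsHomogeneous e) → ∀ r : ℕ,
      {k | nres n p ℤ_[p] + r + per n p ℤ_[p] * k ∈
        {k : ℕ | ∀ G ∈ V, eval ((pmap (form fun i => algebraMap L K (b i)))^[k]
          fun i => algebraMap L K (α i)) G = 0}}.encard ≤ K₁ ∨
      ∀ k, nres n p ℤ_[p] + r + per n p ℤ_[p] * k ∈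
        {k : ℕ | ∀ G ∈ V, eval ((pmap (form fun i => algebraMap L K (b i)))^[k]
          fun i => algebraMap L K (α i)) G = 0} := by
  obtain ⟨K₁, hK⟩ := good_dml_unif hp c hG δ
  refine ⟨K₁, ?_⟩
  intro L _ K _ _ φ b hb α hα V hV r
  have h := hK φ b hb α hα
  have key : ∀ (k : ℕ) (G : MvPolynomial (Fin n) K),
      eval ((pmap (form fun i => algebraMap L K (b i)))^[k] fun i => algebraMap L K (α i)) G = 0 ↔
      ∀ u : K →ₗ[L] L, eval ((pmap (form b))^[k] α) (low u G) = 0 := by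
    intro k G
    have h1 := pmap_map_iterate (algebraMap L K) (form b) k α
    rw [form_map] at h1
    rw [h1]
    exact eval_eq_zero_iff_low G _
  by_cases hall : ∀ G ∈ V, ∀ k, eval ((pmap (form fun i => algebraMap L K (b i)))^[nres n p ℤ_[p] +
      r + per n p ℤ_[p] * k] fun i => algebraMap L K (α i)) G = 0
  · right
    intro k G hGV
    exact hall G hGV k
  · push Not at hall
    obtain ⟨G, hGV, k, hk⟩ := hall
    obtain ⟨e, heδ, he⟩ := hV G hGV
    have hk' : ∃ u : K →ₗ[L] L, eval ((pmap (form b))^[nres n p ℤ_[p] + r +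
        per n p ℤ_[p] * k] α) (low u G) ≠ 0 := by
      by_contra hcon
      push Not at hcon
      exact hk ((key _ G).2 hcon)
    obtain ⟨u, hu⟩ := hk'
    rcases h e (low u G) (low_isHomogeneous u he) heδ r with h1 | h1
    · left
      refine le_trans (Set.encard_le_encard ?_) h1
      intro k' hk'
      exact (key _ G).1 (hk' G hGV) u
    · exact absurd (h1 k) hu

/-- the residue classes of the generators at a prime for which the field embeds -/
theorem exists_residuesU (m : ℕ) (e : Fin m → ℂ) (he : e ≠ 0) (A : Finset ℂ)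
    (heA : ∀ j, e j ∈ Subfield.closure (A : Set ℂ)) :
    ∃ A' : Finset ℂ, ∀ q ∈ primesFor A', 3 ≤ q → ∃ E : Fin m → ZMod q, E ≠ 0 ∧
      ∃ _ : Fact q.Prime, ∀ (n d : ℕ) (c : Fin m × Idx n d → ℤ),
        Good (form (lc E fun j => (c j : ZMod q))) → ∀ δ : ℕ, ∃ K : ℕ,
        ∀ (s : ℕ) (t : Fin s → ℂ), AlgebraicIndependent (Subfield.closure (A : Set ℂ)) t →
        ∀ α : Fin n → ℂ, α ≠ 0 →
        (∀ i, α i ∈ Subfield.closure ((A : Set ℂ) ∪ Set.range t)) →
        ∀ V : Set (MvPolynomial (Fin n) ℂ), (∀ G ∈ V, ∃ e ≤ δ, G.IsHomogeneous e) → ∀ r : ℕ,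
        {k | nres n q ℤ_[q] + r + per n q ℤ_[q] * k ∈
          {k : ℕ | ∀ G ∈ V, eval ((pmap (form (lc e fun j => (c j : ℂ))))^[k] α) G = 0}}.encard
            ≤ K ∨
        ∀ k, nres n q ℤ_[q] + r + per n q ℤ_[q] * k ∈
          {k : ℕ | ∀ G ∈ V, eval ((pmap (form (lc e fun j => (c j : ℂ))))^[k] α) G = 0} := by
  classical
  obtain ⟨j₀, hj₀⟩ := Function.ne_iff.1 he
  set A' : Finset ℂ := A ∪ (Finset.univ.image e ∪ {(e j₀)⁻¹}) with hA'
  refine ⟨A', fun q hq hq3 => ?_⟩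
  obtain ⟨hF, ι, φ, hφ⟩ := exists_field_emb_compat A' q hq
  have hej : ∀ j, e j ∈ Subring.closure (A' : Set ℂ) := fun j =>
    Subring.subset_closure (Finset.mem_coe.2 (Finset.mem_union_right _
      (Finset.mem_union_left _ (Finset.mem_image_of_mem _ (Finset.mem_univ j)))))
  have hinv : (e j₀)⁻¹ ∈ Subring.closure (A' : Set ℂ) :=
    Subring.subset_closure (Finset.mem_coe.2 (Finset.mem_union_right _
      (Finset.mem_union_right _ (Finset.mem_singleton_self _))))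
  have hle : Subring.closure (A' : Set ℂ) ≤ (Subfield.closure (A' : Set ℂ)).toSubring :=
    Subfield.subring_closure_le _
  have hAsub : (A : Set ℂ) ⊆ (A' : Set ℂ) := by
    rw [hA', Finset.coe_union]
    exact Set.subset_union_left
  have hAA' : Subfield.closure (A' : Set ℂ) = Subfield.closure (A : Set ℂ) := by
    refine le_antisymm ?_ (Subfield.closure_mono hAsub)
    rw [Subfield.closure_le]
    intro z hz
    rw [Finset.mem_coe, hA', Finset.mem_union, Finset.mem_union, Finset.mem_image,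
      Finset.mem_singleton] at hz
    rcases hz with hz | ⟨j, -, rfl⟩ | rfl
    · exact Subfield.subset_closure hz
    · exact heA j
    · exact inv_mem (heA j₀)
  refine ⟨fun j => PadicInt.toZMod (ι ⟨e j, hej j⟩), ?_, hF, ?_⟩
  · intro h0
    have h1 : (⟨e j₀, hej j₀⟩ : Subring.closure (A' : Set ℂ)) * ⟨(e j₀)⁻¹, hinv⟩ = 1 :=
      Subtype.ext (mul_inv_cancel₀ hj₀)
    have h2 := congrArg (fun z => PadicInt.toZMod (ι z)) h1
    simp only [map_mul, map_one] at h2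
    have h3 := congrFun h0 j₀
    simp only [Pi.zero_apply] at h3
    rw [h3, zero_mul] at h2
    exact zero_ne_one h2
  intro n d c hG δ
  have hcL : ∀ j, e j ∈ Subfield.closure (A' : Set ℂ) := fun j => hle (hej j)
  set cp : Idx n d → ℤ_[q] := lc (fun j => ι ⟨e j, hej j⟩) fun j => (c j : ℤ_[q]) with hcp
  have h1 : (form fun i => PadicInt.toZMod (cp i)) =
      form (lc (fun j => PadicInt.toZMod (ι ⟨e j, hej j⟩)) fun j => (c j : ZMod q)) := by
    congr 1
    funext i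
    rw [hcp, lc, lc, map_sum]
    refine Finset.sum_congr rfl fun j _ => ?_
    rw [map_mul, map_intCast]
  obtain ⟨K₁, hK⟩ := dich_of_goodU hq3 cp (by rw [h1]; exact hG) δ
  refine ⟨K₁, fun s t ht α hα hαL V hV r => ?_⟩
  -- the transcendental extension
  obtain ⟨ψ, hψ⟩ := exists_ext_complex (Subfield.closure (A' : Set ℂ)) (countable_closure A') φ
    (t := t) (by rw [hAA']; exact ht)
  have hle' : Subfield.closure ((A : Set ℂ) ∪ Set.range t) ≤
      Subfield.closure ((Subfield.closure (A' : Set ℂ) : Set ℂ) ∪ Set.range t) :=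
    Subfield.closure_mono (Set.union_subset_union_left _
      (hAsub.trans Subfield.subset_closure))
  have hcM : ∀ j, e j ∈ Subfield.closure ((Subfield.closure (A' : Set ℂ) : Set ℂ) ∪ Set.range t) :=
    fun j => Subfield.subset_closure (Or.inl (hcL j))
  set b : Idx n d → Subfield.closure ((Subfield.closure (A' : Set ℂ) : Set ℂ) ∪ Set.range t) :=
    lc (fun j => (⟨e j, hcM j⟩ : Subfield.closure ((Subfield.closure (A' : Set ℂ) : Set ℂ) ∪
      Set.range t))) fun j => (c j : Subfield.closure ((Subfield.closure (A' : Set ℂ) : Set ℂ) ∪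
        Set.range t)) with hb
  have h2 : ∀ i, ψ (b i) = cp i := by
    intro i
    have h3 : ((cp i : ℤ_[q]) : ℚ_[q]) = (PadicInt.Coe.ringHom : ℤ_[q] →+* ℚ_[q]) (cp i) := rfl
    rw [h3, hb, hcp, lc, lc, map_sum, map_sum]
    refine Finset.sum_congr rfl fun j _ => ?_
    rw [map_mul, map_mul, map_intCast, map_intCast, hψ (e j) (hcL j) (hcM j),
      hφ (e j) (hej j) (hcL j)]
    rfl
  have h3 : (form fun i => algebraMap (Subfield.closure ((Subfield.closure (A' : Set ℂ) : Set ℂ) ∪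
      Set.range t)) ℂ (b i)) = form (lc e fun j => (c j : ℂ)) := by
    congr 1
    funext i
    rw [hb, lc, lc, map_sum]
    refine Finset.sum_congr rfl fun j _ => ?_
    rw [map_mul, map_intCast]
    rfl
  have h4 := hK (K := ℂ) ψ b h2
    (fun i => ⟨α i, hle' (hαL i)⟩) (fun h0 => hα (funext fun i =>
      congrArg Subtype.val (congrFun h0 i))) V hV r
  rw [h3] at h4
  exact h4

/-- **Main theorem.** -/
theorem ldu_main (n : ℕ) (hn : n = 3 ∨ n = 4) (m : ℕ) (e : Fin m → ℂ) (he : e ≠ 0) (A : Finset ℂ)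
    (heA : ∀ j, e j ∈ Subfield.closure (A : Set ℂ)) (ε : ℝ) (hε : 0 < ε) :
    ∃ d₀ n₀ Q : ℕ, 1 ≤ Q ∧ ∀ d : ℕ, d₀ ≤ d → ∃ B₀ : ℕ, ∀ B : ℕ, B₀ ≤ B →
      (1 - ε) * (2 * (B : ℝ) + 1) ^ Fintype.card (Fin m × Idx n d) ≤
        ({c : Fin m × Idx n d → ℤ | (∀ i, |c i| ≤ (B : ℤ)) ∧
          (∀ z : Fin n → ℂ, (∀ i, eval z (form (lc e fun j => (c j : ℂ)) i) = 0) → z = 0) ∧
          ∀ δ : ℕ, ∃ K : ℕ, ∀ (s : ℕ) (t : Fin s → ℂ),
            AlgebraicIndependent (Subfield.closure (A : Set ℂ)) t →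
            ∀ α : Fin n → ℂ, α ≠ 0 →
            (∀ i, α i ∈ Subfield.closure ((A : Set ℂ) ∪ Set.range t)) →
            ∀ V : Set (MvPolynomial (Fin n) ℂ), (∀ G ∈ V, ∃ e ≤ δ, G.IsHomogeneous e) →
              IsAPU n₀ Q K {k : ℕ | ∀ G ∈ V,
                eval ((pmap (form (lc e fun j => (c j : ℂ))))^[k] α) G = 0}}.ncard : ℝ) := by
  classical
  obtain ⟨A', hA'⟩ := exists_residuesU m e he A heA
  obtain ⟨P, hP, hprod⟩ := exists_primes_prod (primesFor A') (not_summable_primesFor A')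
    (prime_of_mem_primesFor A') (ε / 3) (by linarith)
  have hPprime : ∀ q ∈ P, q.Prime := fun q hq => prime_of_mem_primesFor A' q (hP q hq).1
  have hbd : ∀ q : ℕ, ∃ m n₁ Q₁ : ℕ, 1 ≤ Q₁ ∧ ∀ _ : Fact q.Prime,
      2 * Nat.card (Projectivization (ZMod q) (Fin n → ZMod q)) ≤ m ∧
        n₁ = nres n q ℤ_[q] ∧ Q₁ = per n q ℤ_[q] := by
    intro q
    by_cases hq : q.Prime
    · haveI := Fact.mk hq
      exact ⟨2 * Nat.card (Projectivization (ZMod q) (Fin n → ZMod q)), nres n q ℤ_[q],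
        per n q ℤ_[q], per_pos n q ℤ_[q], fun _ => ⟨le_refl _, rfl, rfl⟩⟩
    · exact ⟨0, 0, 1, le_refl _, fun h => absurd h.out hq⟩
  choose mq nq Tq hTq hmq using hbd
  have hEex : ∀ q : ℕ, ∃ E : Fin m → ZMod q, q ∈ P → (E ≠ 0 ∧
      ∃ _ : Fact q.Prime, ∀ (n d : ℕ) (c : Fin m × Idx n d → ℤ),
        Good (form (lc E fun j => (c j : ZMod q))) → ∀ δ : ℕ, ∃ K : ℕ,
        ∀ (s : ℕ) (t : Fin s → ℂ), AlgebraicIndependent (Subfield.closure (A : Set ℂ)) t →
        ∀ α : Fin n → ℂ, α ≠ 0 →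
        (∀ i, α i ∈ Subfield.closure ((A : Set ℂ) ∪ Set.range t)) →
        ∀ V : Set (MvPolynomial (Fin n) ℂ), (∀ G ∈ V, ∃ e ≤ δ, G.IsHomogeneous e) → ∀ r : ℕ,
        {k | nres n q ℤ_[q] + r + per n q ℤ_[q] * k ∈
          {k : ℕ | ∀ G ∈ V, eval ((pmap (form (lc e fun j => (c j : ℂ))))^[k] α) G = 0}}.encard
            ≤ K ∨
        ∀ k, nres n q ℤ_[q] + r + per n q ℤ_[q] * k ∈
          {k : ℕ | ∀ G ∈ V, eval ((pmap (form (lc e fun j => (c j : ℂ))))^[k] α) G = 0}) := by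
    intro q
    by_cases hq : q ∈ P
    · obtain ⟨E, hE⟩ := hA' q (hP q hq).1 (by have := (hP q hq).2; omega)
      exact ⟨E, fun _ => hE⟩
    · exact ⟨0, fun h => absurd h hq⟩
  choose E hE using hEex
  have hQpos : 1 ≤ ∏ q ∈ P, Tq q := Nat.succ_le_of_lt (Finset.prod_pos fun q _ => hTq q)
  refine ⟨(∑ q ∈ P, mq q) + 1, ∑ q ∈ P, nq q, ∏ q ∈ P, Tq q, hQpos, fun d hd => ?_⟩
  have hdq : ∀ q ∈ P, mq q ≤ d := fun q hq =>
    (Finset.single_le_sum (fun _ _ => Nat.zero_le _) hq).trans (by omega)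
  obtain ⟨B₁, hB₁⟩ := sieve_box (ι := Fin m × Idx n d) P hPprime
    (fun q => BadE n d m q (E q)) (fun q => 1 / (4096 * (q : ℝ)))
    (fun q hq => by
      haveI := Fact.mk (hPprime q hq)
      exact badE_ncard hn (hP q hq).2 d m ((hmq q inferInstance).1.trans (hdq q hq)) (E q)
        (hE q hq).1)
    (ε / 3) (by linarith)
  obtain ⟨B₂, hB₂⟩ := endo_boxC n d m e he (ε / 3) (by linarith)
  refine ⟨max B₁ B₂, fun B hB => ?_⟩
  have h1 := hB₁ B ((le_max_left _ _).trans hB)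
  have h2 := hB₂ B ((le_max_right _ _).trans hB)
  set X : Set (Fin m × Idx n d → ℤ) := {c | (∀ i, |c i| ≤ (B : ℤ)) ∧
    ∀ p ∈ P, (fun i => (c i : ZMod p)) ∈ BadE n d m p (E p)} with hX
  set Y : Set (Fin m × Idx n d → ℤ) := {c | (∀ i, |c i| ≤ (B : ℤ)) ∧
    ¬ ∀ z : Fin n → ℂ, (∀ i, eval z (form (lc e fun j => (c j : ℂ)) i) = 0) → z = 0} with hY
  set Z : Set (Fin m × Idx n d → ℤ) := {c : Fin m × Idx n d → ℤ | (∀ i, |c i| ≤ (B : ℤ)) ∧
    (∀ z : Fin n → ℂ, (∀ i, eval z (form (lc e fun j => (c j : ℂ)) i) = 0) → z = 0) ∧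
      ∀ δ : ℕ, ∃ K : ℕ, ∀ (s : ℕ) (t : Fin s → ℂ),
        AlgebraicIndependent (Subfield.closure (A : Set ℂ)) t →
        ∀ α : Fin n → ℂ, α ≠ 0 →
        (∀ i, α i ∈ Subfield.closure ((A : Set ℂ) ∪ Set.range t)) →
        ∀ V : Set (MvPolynomial (Fin n) ℂ), (∀ G ∈ V, ∃ e ≤ δ, G.IsHomogeneous e) →
          IsAPU (∑ q ∈ P, nq q) (∏ q ∈ P, Tq q) K {k : ℕ | ∀ G ∈ V,
            eval ((pmap (form (lc e fun j => (c j : ℂ))))^[k] α) G = 0}} with hZ
  have hfin := box_finite (ι := Fin m × Idx n d) B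
  have hsub : {c : Fin m × Idx n d → ℤ | ∀ i, |c i| ≤ (B : ℤ)} ⊆ Z ∪ (X ∪ Y) := by
    intro c hc
    by_cases hcY : c ∈ Y
    · exact Or.inr (Or.inr hcY)
    by_cases hcX : c ∈ X
    · exact Or.inr (Or.inl hcX)
    left
    refine ⟨hc, ?_, ?_⟩
    · by_contra hcon
      exact hcY ⟨hc, hcon⟩
    · have h3 : ∃ q ∈ P, ∃ _ : Fact q.Prime,
          Good (form (lc (E q) fun j => (c j : ZMod q))) := by
        by_contra hcon
        refine hcX ⟨hc, fun q hq h => ?_⟩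
        exact hcon ⟨q, hq, h⟩
      obtain ⟨q, hq, _, hgood⟩ := h3
      intro δ
      obtain ⟨-, hnq, hTq2⟩ := hmq q inferInstance
      obtain ⟨_, hfinal⟩ := (hE q hq).2
      obtain ⟨K, hK⟩ := hfinal n d c hgood δ
      refine ⟨_, fun s t ht α hα hαL V hV => isAPU_of_dich (K := K) _ hQpos fun r => ?_⟩
      refine dich_monoU (n₁ := nq q) (Q₁ := Tq q)
        (Finset.single_le_sum (fun _ _ => Nat.zero_le _) hq)
        hQpos (Finset.dvd_prod_of_mem _ hq) (fun r => ?_) r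
      rw [hnq, hTq2]
      exact hK s t ht α hα hαL V hV r
  have h3 : ({c : Fin m × Idx n d → ℤ | ∀ i, |c i| ≤ (B : ℤ)}.ncard : ℝ) ≤
      (Z.ncard : ℝ) + ((X.ncard : ℝ) + (Y.ncard : ℝ)) := by
    have hfin' : (Z ∪ (X ∪ Y)).Finite := by
      refine hfin.subset ?_
      rintro c (hc | hc | hc)
      · exact hc.1
      · exact hc.1
      · exact hc.1
    have h4 := (Set.ncard_le_ncard hsub hfin').trans ((Set.ncard_union_le _ _).trans
      (Nat.add_le_add_left (Set.ncard_union_le _ _) _))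
    exact_mod_cast h4
  rw [box_ncard] at h3
  have h5 : 0 ≤ (2 * (B : ℝ) + 1) ^ Fintype.card (Fin m × Idx n d) := by positivity
  have h6 := mul_le_mul_of_nonneg_right hprod h5
  rw [add_mul] at h1
  linarith

theorem isAP_of_isAPU {n₀ Q K : ℕ} {R : Set ℕ} (h : IsAPU n₀ Q K R) : IsAP n₀ Q R := by
  obtain ⟨E, T, -, h1, h2⟩ := h
  exact ⟨E, T, h1, h2⟩

end

end Pool.Agent.Helper87.LD
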