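import Mathlib

/-!
# LD, block R: random maps with few periodic points
-/

set_option autoImplicit false

namespace Pool.Agent.Helper87.LD

open Finset

section Acyclic

variable {X : Type*} [Fintype X] [DecidableEq X]

/-- `f` is the identity off `M` and has no cycle inside `M` -/
private def Acyc (M : Finset X) (f : X → X) : Prop :=
  (∀ x, x ∉ M → f x = x) ∧ ∃ r : X → ℕ, ∀ x ∈ M, r (f x) < r x

open Classical in
/-- the finset of the maps that are acyclic on `M` -/
private noncomputable def AF (M : Finset X) : Finset (X → X) :=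
  univ.filter (Acyc M)

private theorem mem_AF {M : Finset X} {f : X → X} : f ∈ AF M ↔ Acyc M f := by
  classical
  simp [AF]

/-- redirect the arrows into `v` -/
private def red (v : X) (f : X → X) : X → X :=
  fun x => if x = v then v else if f x = v then f v else f x

omit [Fintype X] in
private theorem acyc_red {M : Finset X} {v : X} (hv : v ∉ M) {f : X → X}
    (h : Acyc (insert v M) f) : Acyc M (red v f) ∧ (∀ x ∈ M, red v f x ≠ v) ∧ f v ≠ v := by
  obtain ⟨h1, r, hr⟩ := h
  have hfv : f v ≠ v := by
    intro e
    have := hr v (mem_insert_self _ _)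
    rw [e] at this
    exact lt_irrefl _ this
  refine ⟨⟨?_, r, ?_⟩, ?_, hfv⟩
  · intro x hx
    unfold red
    by_cases hxv : x = v
    · simp [hxv]
    · have hf : f x = x := h1 x (by simp [hxv, hx])
      simp [hxv, hf]
  · intro x hx
    have hxv : x ≠ v := by rintro rfl; exact hv hx
    unfold red
    rw [if_neg hxv]
    by_cases hf : f x = v
    · rw [if_pos hf]
      have h3 := hr v (mem_insert_self _ _)
      have h4 := hr x (mem_insert_of_mem hx)
      rw [hf] at h4
      exact h3.trans h4
    · rw [if_neg hf]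
      exact hr x (mem_insert_of_mem hx)
  · intro x hx
    have hxv : x ≠ v := by rintro rfl; exact hv hx
    unfold red
    rw [if_neg hxv]
    by_cases hf : f x = v
    · rw [if_pos hf]; exact hfv
    · rw [if_neg hf]; exact hf

/-- the possible values of a map with given value at `v` and given redirected map -/
private def T (M : Finset X) (v u : X) (g : X → X) : X → Finset X :=
  fun x => if x = v then {u} else if x ∈ M ∧ g x = u then {u, v} else {g x}

omit [Fintype X] in
private theorem fiber_eq {M : Finset X} {v u : X} (hv : v ∉ M) (huv : u ≠ v) {g : X → X}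
    (hg : Acyc M g) (hgv : ∀ x ∈ M, g x ≠ v) (f : X → X) :
    (Acyc (insert v M) f ∧ f v = u ∧ red v f = g) ↔ ∀ x, f x ∈ T M v u g x := by
  constructor
  · rintro ⟨⟨h1, r, hr⟩, h2, h3⟩ x
    unfold T
    by_cases hxv : x = v
    · subst hxv
      simp [h2]
    rw [if_neg hxv]
    have h4 : g x = if f x = v then f v else f x := by
      rw [← h3]
      simp [red, hxv]
    by_cases hc : x ∈ M ∧ g x = u
    · rw [if_pos hc]
      by_cases hf : f x = v
      · simp [hf]
      · rw [if_neg hf] at h4
        rw [← h4, hc.2]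
        simp
    · rw [if_neg hc]
      by_cases hf : f x = v
      · exfalso
        apply hc
        refine ⟨?_, by rw [h4, if_pos hf, h2]⟩
        by_contra hxM
        have := h1 x (by simp [hxv, hxM])
        rw [hf] at this
        exact hxv this.symm
      · rw [if_neg hf] at h4
        simp [h4]
  · intro h
    have hfv : f v = u := by
      have := h v
      simpa [T] using this
    have hx1 : ∀ x, x ≠ v → x ∈ M → g x = u → (f x = u ∨ f x = v) := by
      intro x hxv hxM hgx
      have := h x
      simpa [T, hxv, hxM, hgx] using this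
    have hx2 : ∀ x, x ≠ v → ¬ (x ∈ M ∧ g x = u) → f x = g x := by
      intro x hxv hc
      have := h x
      unfold T at this
      rw [if_neg hxv, if_neg hc] at this
      simpa using this
    refine ⟨⟨?_, ?_⟩, hfv, ?_⟩
    · intro x hx
      have hxv : x ≠ v := by rintro rfl; exact hx (mem_insert_self _ _)
      have hxM : x ∉ M := fun h' => hx (mem_insert_of_mem h')
      rw [hx2 x hxv (fun h' => hxM h'.1)]
      exact hg.1 x hxM
    · obtain ⟨r, hr⟩ := hg.2
      refine ⟨fun x => if x = v then 2 * r u + 1 else 2 * r x, ?_⟩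
      intro x hx
      rcases mem_insert.1 hx with rfl | hxM
      · simp only [hfv, if_neg huv, if_true]
        omega
      · have hxv : x ≠ v := by rintro rfl; exact hv hxM
        have h5 := hr x hxM
        by_cases hgx : g x = u
        · rw [hgx] at h5
          rcases hx1 x hxv hxM hgx with hf | hf
          · simp only [hf, if_neg huv, if_neg hxv]
            omega
          · simp only [hf, if_true, if_neg hxv]
            omega
        · have hf := hx2 x hxv (fun h' => hgx h'.2)
          have := hgv x hxM
          simp only [hf, if_neg this, if_neg hxv]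
          omega
    · funext x
      unfold red
      by_cases hxv : x = v
      · subst hxv
        simp [hg.1 x hv]
      · rw [if_neg hxv]
        by_cases hc : x ∈ M ∧ g x = u
        · rcases hx1 x hxv hc.1 hc.2 with hf | hf
          · rw [if_neg (by rw [hf]; exact huv), hf, hc.2]
          · rw [if_pos hf, hfv, hc.2]
        · have hf := hx2 x hxv hc
          have : g x ≠ v := by
            by_cases hxM : x ∈ M
            · exact hgv x hxM
            · rw [hg.1 x hxM]; exact hxv
          rw [hf, if_neg this]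

/-- the modified weights -/
private def wt (w : X → ℤ) (v u : X) : X → ℤ :=
  fun y => if y = u then w u + w v else if y = v then 0 else w y

private theorem sum_step (w : X → ℤ) {M : Finset X} {v : X} (hv : v ∉ M) :
    ∑ f ∈ AF (insert v M), ∏ x ∈ insert v M, w (f x) =
      ∑ u ∈ univ.erase v, w u * ∑ g ∈ AF M, ∏ x ∈ M, wt w v u (g x) := by
  classical
  set A' : Finset (X → X) := (AF M).filter (fun g => ∀ x ∈ M, g x ≠ v) with hA'
  have hmaps : ∀ f ∈ AF (insert v M), (f v, red v f) ∈ (univ.erase v) ×ˢ A' := by
    intro f hf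
    obtain ⟨h1, h2, h3⟩ := acyc_red hv (mem_AF.1 hf)
    rw [mem_product, mem_erase, hA', mem_filter, mem_AF]
    exact ⟨⟨h3, mem_univ _⟩, h1, h2⟩
  rw [← sum_fiberwise_of_maps_to hmaps, sum_product]
  apply sum_congr rfl
  intro u hu
  have huv : u ≠ v := (mem_erase.1 hu).1
  have h0 : ∑ g ∈ AF M, ∏ x ∈ M, wt w v u (g x) = ∑ g ∈ A', ∏ x ∈ M, wt w v u (g x) := by
    rw [hA', sum_filter_of_ne]
    intro g hg hne x hx hgx
    apply hne
    apply prod_eq_zero hx
    unfold wt
    rw [hgx, if_neg huv.symm, if_pos rfl]
  rw [h0, mul_sum]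
  apply sum_congr rfl
  intro g hg
  rw [hA', mem_filter, mem_AF] at hg
  have hfib : (AF (insert v M)).filter (fun f => (f v, red v f) = (u, g)) =
      Fintype.piFinset (T M v u g) := by
    ext f
    rw [mem_filter, mem_AF, Fintype.mem_piFinset, ← fiber_eq hv huv hg.1 hg.2, Prod.mk.injEq]
  rw [hfib]
  have hprod : ∀ f : X → X, ∏ x ∈ insert v M, w (f x) =
      ∏ x, (fun x y => if x ∈ insert v M then w y else 1) x (f x) := by
    intro f
    simp only
    rw [prod_ite_mem, univ_inter]
  simp only [hprod]
  rw [← prod_univ_sum (t := T M v u g)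
    (f := fun x y => if x ∈ insert v M then w y else (1 : ℤ))]
  have h1 : ∀ x, ∑ y ∈ T M v u g x, (if x ∈ insert v M then w y else (1 : ℤ)) =
      if x ∈ insert v M then (if x = v then w u else wt w v u (g x)) else 1 := by
    intro x
    unfold T
    by_cases hxv : x = v
    · subst hxv
      simp
    · by_cases hxM : x ∈ M
      · have hxi : x ∈ insert v M := mem_insert_of_mem hxM
        by_cases hgx : g x = u
        · simp only [if_neg hxv, if_pos hxi, hxM, hgx, and_self, if_true]
          rw [sum_pair huv]
          simp [wt]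
        · have hgxv := hg.2 x hxM
          simp only [if_neg hxv, if_pos hxi, hgx, and_false, if_false, sum_singleton]
          simp [wt, hgx, hgxv]
      · have hxi : x ∉ insert v M := by simp [hxv, hxM]
        simp [hxv, hxM]
  simp only [h1]
  rw [prod_ite_mem, univ_inter, prod_insert hv, if_pos rfl]
  congr 1
  apply prod_congr rfl
  intro x hx
  have hxv : x ≠ v := by rintro rfl; exact hv hx
  rw [if_neg hxv]

/-- the weighted forest formula -/
private theorem forest (M : Finset X) : ∀ w : X → ℤ,
    (∑ x, w x) * ∑ f ∈ AF M, ∏ x ∈ M, w (f x) =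
      (∑ x, w x - ∑ x ∈ M, w x) * (∑ x, w x) ^ #M := by
  classical
  induction M using Finset.induction_on with
  | empty =>
    intro w
    have h : AF (∅ : Finset X) = {id} := by
      ext f
      rw [mem_AF, mem_singleton]
      constructor
      · intro h
        funext x
        exact h.1 x (by simp)
      · rintro rfl
        exact ⟨fun _ _ => rfl, fun _ => 0, by simp⟩
    rw [h]
    simp
  | insert v M hv ih =>
    intro w
    rw [sum_step w hv, mul_sum]
    have hW : ∀ u ∈ univ.erase v, ∑ x, wt w v u x = ∑ x, w x := by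
      intro u hu
      have huv : u ≠ v := (mem_erase.1 hu).1
      rw [← add_sum_erase _ _ (mem_univ v), ← add_sum_erase (univ.erase v) _ hu,
        ← add_sum_erase _ w (mem_univ v), ← add_sum_erase (univ.erase v) w hu]
      have : ∑ x ∈ (univ.erase v).erase u, wt w v u x = ∑ x ∈ (univ.erase v).erase u, w x := by
        apply sum_congr rfl
        intro x hx
        rw [mem_erase, mem_erase] at hx
        simp [wt, hx.1, hx.2.1]
      rw [this]
      simp only [wt, if_neg huv.symm, if_true]
      ring
    have hM : ∀ u ∈ univ.erase v, ∑ x ∈ M, wt w v u x =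
        ∑ x ∈ M, w x + if u ∈ M then w v else 0 := by
      intro u hu
      have huv : u ≠ v := (mem_erase.1 hu).1
      by_cases huM : u ∈ M
      · rw [← add_sum_erase _ _ huM, ← add_sum_erase _ w huM, if_pos huM]
        have : ∑ x ∈ M.erase u, wt w v u x = ∑ x ∈ M.erase u, w x := by
          apply sum_congr rfl
          intro x hx
          rw [mem_erase] at hx
          have hxv : x ≠ v := by rintro rfl; exact hv hx.2
          simp [wt, hx.1, hxv]
        rw [this]
        simp only [wt, if_true]
        ring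
      · rw [if_neg huM, add_zero]
        apply sum_congr rfl
        intro x hx
        have hxv : x ≠ v := by rintro rfl; exact hv hx
        have hxu : x ≠ u := by rintro rfl; exact huM hx
        simp [wt, hxu, hxv]
    have hstep : ∀ u ∈ univ.erase v, (∑ x, w x) * (w u * ∑ g ∈ AF M, ∏ x ∈ M, wt w v u (g x)) =
        (w u * (∑ x, w x - ∑ x ∈ M, w x) - w v * (if u ∈ M then w u else 0)) *
          (∑ x, w x) ^ #M := by
      intro u hu
      have h1 := ih (wt w v u)
      rw [hW u hu, hM u hu] at h1
      rw [mul_left_comm, h1]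
      split_ifs <;> ring
    rw [sum_congr rfl hstep, ← sum_mul, sum_sub_distrib, ← sum_mul, ← mul_sum, sum_ite_mem,
      card_insert_of_notMem hv, sum_insert hv]
    have h2 : ∑ x ∈ univ.erase v, w x = ∑ x, w x - w v := by
      rw [← add_sum_erase _ w (mem_univ v)]
      ring
    have h3 : univ.erase v ∩ M = M := by
      rw [inter_eq_right]
      intro x hx
      rw [mem_erase]
      exact ⟨by rintro rfl; exact hv hx, mem_univ _⟩
    rw [h2, h3, pow_succ]
    ring

private theorem card_AF (M : Finset X) :
    (Fintype.card X : ℤ) * #(AF M) = (Fintype.card X - #M : ℤ) * (Fintype.card X : ℤ) ^ #M := by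
  have h := forest M (fun _ => (1 : ℤ))
  simpa using h

/-- the set of periodic points -/
private def Per (f : X → X) : Set X := {x | ∃ m : ℕ, 1 ≤ m ∧ f^[m] x = x}

/-- a permutation of `C` glued with a map acyclic off `C` -/
private def glue (C : Finset X) (σ : Equiv.Perm C) (h : X → X) : X → X :=
  fun x => if hx : x ∈ C then (σ ⟨x, hx⟩ : X) else h x

omit [Fintype X] in
private theorem glue_iter (C : Finset X) (σ : Equiv.Perm C) (h : X → X) (m : ℕ) :
    ∀ (x : X) (hx : x ∈ C), (glue C σ h)^[m] x = ((σ ^ m) ⟨x, hx⟩ : C) := by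
  induction m with
  | zero => intro x hx; simp
  | succ m ih =>
    intro x hx
    rw [Function.iterate_succ_apply]
    have h1 : glue C σ h x = (σ ⟨x, hx⟩ : C) := by simp [glue, hx]
    rw [h1, ih _ (σ ⟨x, hx⟩).2, pow_succ, Equiv.Perm.mul_apply]

omit [Fintype X] in
private theorem per_glue (C : Finset X) (σ : Equiv.Perm C) (h : X → X) {M : Finset X}
    (hM : ∀ x, x ∈ M ↔ x ∉ C) (hh : Acyc M h) : Per (glue C σ h) = (C : Set X) := by
  classical
  ext x
  constructor
  · rintro ⟨m, hm, hx⟩
    by_contra hxC
    rw [mem_coe] at hxC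
    obtain ⟨r, hr⟩ := hh.2
    have key : ∀ j, (glue C σ h)^[j] x ∈ C ∨ r ((glue C σ h)^[j] x) + j ≤ r x := by
      intro j
      induction j with
      | zero => right; simp
      | succ j ih =>
        rw [Function.iterate_succ_apply']
        by_cases hy : (glue C σ h)^[j] x ∈ C
        · left
          have : glue C σ h ((glue C σ h)^[j] x) = (σ ⟨_, hy⟩ : C) := by simp [glue, hy]
          rw [this]
          exact (σ ⟨_, hy⟩).2
        · right
          have h1 : glue C σ h ((glue C σ h)^[j] x) = h ((glue C σ h)^[j] x) := by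
            simp [glue, hy]
          rw [h1]
          have h2 := hr _ ((hM _).2 hy)
          rcases ih with h3 | h3
          · exact absurd h3 hy
          · omega
    rcases key m with h1 | h1
    · rw [hx] at h1; exact hxC h1
    · rw [hx] at h1; omega
  · intro hx
    rw [mem_coe] at hx
    refine ⟨orderOf σ, ?_, ?_⟩
    · exact orderOf_pos σ
    · rw [glue_iter C σ h _ x hx, pow_orderOf_eq_one]
      rfl

open Classical in
private theorem card_per_ge (C : Finset X) :
    (#C).factorial * #(AF Cᶜ) ≤ #(univ.filter fun f : X → X => Per f = (C : Set X)) := by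
  have h1 : (#C).factorial * #(AF Cᶜ) =
      #((univ : Finset (Equiv.Perm C)) ×ˢ AF Cᶜ) := by
    rw [card_product, card_univ, Fintype.card_perm, Fintype.card_coe]
  rw [h1]
  apply card_le_card_of_injOn (fun p => glue C p.1 p.2)
  · intro p hp
    rw [mem_coe, mem_product] at hp
    rw [mem_coe, mem_filter]
    exact ⟨mem_univ _, per_glue C p.1 p.2 (M := Cᶜ) (fun x => mem_compl) (mem_AF.1 hp.2)⟩
  · intro p hp p' hp' he
    rw [mem_coe, mem_product] at hp hp'
    have h2 : ∀ x, glue C p.1 p.2 x = glue C p'.1 p'.2 x := fun x => congrFun he x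
    have e1 : p.1 = p'.1 := by
      ext ⟨x, hx⟩
      have := h2 x
      simpa [glue, hx] using this
    have e2 : p.2 = p'.2 := by
      funext x
      by_cases hx : x ∈ C
      · rw [(mem_AF.1 hp.2).1 x (by simpa using hx), (mem_AF.1 hp'.2).1 x (by simpa using hx)]
      · have := h2 x
        simpa [glue, hx] using this
    exact Prod.ext e1 e2

open Classical in
private theorem card_per_ge' (C : Finset X) :
    (#C).factorial * (#C * Fintype.card X ^ (Fintype.card X - #C)) ≤
      Fintype.card X * #(univ.filter fun f : X → X => Per f = (C : Set X)) := by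
  have h1 := card_AF (Cᶜ)
  have h2 : #Cᶜ = Fintype.card X - #C := card_compl C
  have h3 : #C ≤ Fintype.card X := card_le_univ C
  have h4 : Fintype.card X * #(AF Cᶜ) = #C * Fintype.card X ^ (Fintype.card X - #C) := by
    rw [h2] at h1
    push_cast [Nat.cast_sub h3] at h1
    have h5 : ((Fintype.card X : ℤ) - ((Fintype.card X : ℤ) - #C)) = #C := by ring
    rw [h5] at h1
    exact_mod_cast h1
  calc (#C).factorial * (#C * Fintype.card X ^ (Fintype.card X - #C))
      = Fintype.card X * ((#C).factorial * #(AF Cᶜ)) := by rw [← h4]; ring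
    _ ≤ _ := Nat.mul_le_mul_left _ (card_per_ge C)

end Acyclic

private theorem desc_ge (q : ℕ) : ∀ k : ℕ, k ≤ q →
    ((q : ℤ) - (k : ℤ) ^ 2) * (q : ℤ) ^ k ≤ q * (q.descFactorial k : ℤ) := by
  intro k
  induction k with
  | zero => intro _; simp
  | succ k ih =>
    intro hk
    have h1 := ih (by omega)
    rw [Nat.descFactorial_succ]
    push_cast [Nat.cast_sub (show k ≤ q by omega)]
    have hk' : (k : ℤ) + 1 ≤ q := by exact_mod_cast hk
    have h0 : (0 : ℤ) ≤ (q : ℤ) - k := by linarith
    have h2 := mul_le_mul_of_nonneg_left h1 h0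
    have hq : (0 : ℤ) ≤ (q : ℤ) ^ k := by positivity
    have hkk : (0 : ℤ) ≤ (k : ℤ) := by positivity
    have h3 : ((q : ℤ) - ((k : ℤ) + 1) ^ 2) * (q : ℤ) ≤ ((q : ℤ) - k) * ((q : ℤ) - (k : ℤ) ^ 2) := by
      nlinarith [mul_nonneg hkk (mul_nonneg hkk hkk)]
    calc ((q : ℤ) - ((k : ℤ) + 1) ^ 2) * (q : ℤ) ^ (k + 1)
        = (((q : ℤ) - ((k : ℤ) + 1) ^ 2) * (q : ℤ)) * (q : ℤ) ^ k := by rw [pow_succ]; ring
      _ ≤ (((q : ℤ) - k) * ((q : ℤ) - (k : ℤ) ^ 2)) * (q : ℤ) ^ k :=
        mul_le_mul_of_nonneg_right h3 hq
      _ = ((q : ℤ) - k) * (((q : ℤ) - (k : ℤ) ^ 2) * (q : ℤ) ^ k) := by ring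
      _ ≤ ((q : ℤ) - k) * (q * (q.descFactorial k : ℤ)) := h2
      _ = _ := by ring

private theorem pow_le_desc {q k K : ℕ} (hk : k ≤ K) (hK : 4 * K ^ 2 ≤ q) :
    q ^ k ≤ 2 * q.descFactorial k := by
  rcases Nat.eq_zero_or_pos q with rfl | hq
  · have : K = 0 := by nlinarith
    subst this
    have : k = 0 := by omega
    subst this
    simp
  have hkq : k ≤ q := by nlinarith
  have h1 := desc_ge q k hkq
  have h2 : 4 * (k : ℤ) ^ 2 ≤ q := by
    have : 4 * k ^ 2 ≤ 4 * K ^ 2 := Nat.mul_le_mul_left _ (Nat.pow_le_pow_left hk 2)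
    exact_mod_cast this.trans hK
  have h3 : (0 : ℤ) ≤ (q : ℤ) ^ k := by positivity
  have hq' : (0 : ℤ) < q := by exact_mod_cast hq
  have h4 : (q : ℤ) * (q : ℤ) ^ k ≤ q * (2 * (q.descFactorial k : ℤ)) := by
    calc (q : ℤ) * (q : ℤ) ^ k ≤ (2 * ((q : ℤ) - (k : ℤ) ^ 2)) * (q : ℤ) ^ k :=
          mul_le_mul_of_nonneg_right (by linarith) h3
      _ = 2 * (((q : ℤ) - (k : ℤ) ^ 2) * (q : ℤ) ^ k) := by ring
      _ ≤ 2 * (q * (q.descFactorial k : ℤ)) := by linarith
      _ = _ := by ring
  have h5 := le_of_mul_le_mul_left h4 hq'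
  exact_mod_cast h5


/-- the number of self-maps of `X` with at most `K` periodic points -/
theorem card_few_periodic {X : Type*} [Fintype X] [DecidableEq X] (K : ℕ)
    (hK : 4 * K ^ 2 ≤ Fintype.card X) :
    K ^ 2 * Fintype.card X ^ Fintype.card X ≤ 8 * Fintype.card X *
      Nat.card {f : X → X // {x | ∃ m : ℕ, 1 ≤ m ∧ f^[m] x = x}.ncard ≤ K} := by
  classical
  set q := Fintype.card X with hq
  have hcard : Nat.card {f : X → X // {x | ∃ m : ℕ, 1 ≤ m ∧ f^[m] x = x}.ncard ≤ K} =
      #(univ.filter fun f : X → X => (Per f).ncard ≤ K) := by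
    rw [Nat.card_eq_fintype_card, Fintype.card_subtype]
    rfl
  rw [hcard]
  have hsub : ((univ : Finset (Finset X)).filter fun C => #C ≤ K).biUnion
      (fun C => univ.filter fun f : X → X => Per f = (C : Set X)) ⊆
      univ.filter fun f : X → X => (Per f).ncard ≤ K := by
    intro f hf
    rw [mem_biUnion] at hf
    obtain ⟨C, hC, hf⟩ := hf
    rw [mem_filter] at hC hf ⊢
    refine ⟨mem_univ _, ?_⟩
    rw [hf.2, Set.ncard_coe_finset]
    exact hC.2
  have hbi : #(((univ : Finset (Finset X)).filter fun C => #C ≤ K).biUnion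
      (fun C => univ.filter fun f : X → X => Per f = (C : Set X))) =
      ∑ C ∈ (univ : Finset (Finset X)).filter fun C => #C ≤ K,
        #(univ.filter fun f : X → X => Per f = (C : Set X)) := by
    apply card_biUnion
    intro C _ D _ hCD
    rw [Function.onFun, disjoint_left]
    intro f hf hf'
    rw [mem_filter] at hf hf'
    apply hCD
    exact_mod_cast hf.2.symm.trans hf'.2
  have hle := card_le_card hsub
  rw [hbi] at hle
  have hfib : ∑ k ∈ range (K + 1), ∑ C ∈ (univ : Finset (Finset X)).filter fun C => #C ≤ K with #C = k,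
      #(univ.filter fun f : X → X => Per f = (C : Set X)) =
      ∑ C ∈ (univ : Finset (Finset X)).filter fun C => #C ≤ K,
        #(univ.filter fun f : X → X => Per f = (C : Set X)) := by
    apply sum_fiberwise_of_maps_to
    intro C hC
    rw [mem_filter] at hC
    rw [mem_range]
    omega
  rw [← hfib] at hle
  have hk : ∀ k ∈ range (K + 1), k * q ^ q ≤ 2 * (q *
      ∑ C ∈ (univ : Finset (Finset X)).filter fun C => #C ≤ K with #C = k,
        #(univ.filter fun f : X → X => Per f = (C : Set X))) := by
    intro k hk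
    rw [mem_range] at hk
    have hkK : k ≤ K := by omega
    have hkq : k ≤ q := by nlinarith
    have h1 : ((univ : Finset (Finset X)).filter fun C => #C ≤ K).filter (fun C => #C = k) =
        powersetCard k univ := by
      ext C
      rw [mem_filter, mem_filter, mem_powersetCard]
      constructor
      · rintro ⟨_, h⟩; exact ⟨subset_univ _, h⟩
      · rintro ⟨_, h⟩; exact ⟨⟨mem_univ _, by omega⟩, h⟩
    rw [h1, mul_sum]
    have h2 : ∑ C ∈ powersetCard k (univ : Finset X), k.factorial * (k * q ^ (q - k)) ≤
        ∑ C ∈ powersetCard k (univ : Finset X),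
          q * #(univ.filter fun f : X → X => Per f = (C : Set X)) := by
      apply sum_le_sum
      intro C hC
      rw [mem_powersetCard] at hC
      have := card_per_ge' C
      rw [hC.2] at this
      exact this
    rw [sum_const, card_powersetCard, card_univ, ← hq, smul_eq_mul] at h2
    have h3 : q.choose k * (k.factorial * (k * q ^ (q - k))) =
        q.descFactorial k * (k * q ^ (q - k)) := by
      rw [Nat.descFactorial_eq_factorial_mul_choose]
      ring
    rw [h3] at h2
    have h4 := pow_le_desc hkK hK
    calc k * q ^ q = q ^ k * (k * q ^ (q - k)) := by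
          rw [mul_left_comm, ← pow_add, Nat.add_sub_cancel' hkq]
      _ ≤ (2 * q.descFactorial k) * (k * q ^ (q - k)) := Nat.mul_le_mul_right _ h4
      _ = 2 * (q.descFactorial k * (k * q ^ (q - k))) := by ring
      _ ≤ _ := Nat.mul_le_mul_left _ h2
  have hsum := sum_le_sum hk
  rw [← sum_mul, ← mul_sum, ← mul_sum] at hsum
  have hgauss : 2 * ∑ k ∈ range (K + 1), k = K * (K + 1) := by
    have := Finset.sum_range_id_mul_two (K + 1)
    rw [Nat.add_sub_cancel] at this
    rw [mul_comm, this, mul_comm]
  have h5 : q * _ ≤ q * _ := Nat.mul_le_mul_left q hle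
  calc K ^ 2 * q ^ q ≤ (K * (K + 1)) * q ^ q := Nat.mul_le_mul_right _ (by nlinarith)
    _ = 2 * ((∑ k ∈ range (K + 1), k) * q ^ q) := by rw [← hgauss]; ring
    _ ≤ 2 * (2 * (q * ∑ k ∈ range (K + 1),
        ∑ C ∈ (univ : Finset (Finset X)).filter fun C => #C ≤ K with #C = k,
        #(univ.filter fun f : X → X => Per f = (C : Set X)))) := Nat.mul_le_mul_left _ hsum
    _ ≤ 2 * (2 * (q * #(univ.filter fun f : X → X => (Per f).ncard ≤ K))) := by
      apply Nat.mul_le_mul_left
      apply Nat.mul_le_mul_left
      exact h5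
    _ ≤ 8 * q * #(univ.filter fun f : X → X => (Per f).ncard ≤ K) := by nlinarith

end Pool.Agent.Helper87.LD
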