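import Pool.Agent.Helper87.LD.Cnt

/-!
# LD: interpolation in families
-/

set_option autoImplicit false

namespace Pool.Agent.Helper87.LD

open MvPolynomial Pool.Agent.Helper86.DML Pool.Agent.Helper26.FD

section affine

variable {n p : ℕ} {R : Type*} [CommRing R]

/-- affine substitutions whose linear part is an invertible matrix over the prime field -/
def GLAff (p : ℕ) (ι₀ : ZMod p →+* R) (ψ : Fin n → MvPolynomial (Fin n) R) : Prop :=
  ∃ (A : Matrix (Fin n) (Fin n) (ZMod p)) (b : Fin n → R), IsUnit A.det ∧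
    ∀ i, ψ i = ∑ j, C (ι₀ (A i j)) * X j + C (b i)

theorem aff_apply (ι₀ : ZMod p →+* R) (A A' : Matrix (Fin n) (Fin n) (ZMod p)) (b : Fin n → R)
    (a : R) (i : Fin n) :
    (∑ j, C (ι₀ (A' i j)) * (∑ k, C (ι₀ (A j k)) * X k + C (b j)) + C a :
      MvPolynomial (Fin n) R) =
      ∑ k, C (ι₀ ((A' * A) i k)) * X k + C (∑ j, ι₀ (A' i j) * b j + a) := by
  simp only [mul_add, Finset.sum_add_distrib, Finset.mul_sum]
  rw [Finset.sum_comm]
  have h1 : ∀ k, (∑ j, C (ι₀ (A' i j)) * (C (ι₀ (A j k)) * X k) : MvPolynomial (Fin n) R) =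
      C (ι₀ ((A' * A) i k)) * X k := by
    intro k
    rw [Matrix.mul_apply, map_sum, map_sum, Finset.sum_mul]
    exact Finset.sum_congr rfl fun j _ => by rw [map_mul, C_mul, mul_assoc]
  rw [Finset.sum_congr rfl fun k _ => h1 k, C_add, map_sum]
  simp only [C_mul]
  ring

theorem bind_aff (ι₀ : ZMod p →+* R) {ψ : Fin n → MvPolynomial (Fin n) R}
    {A : Matrix (Fin n) (Fin n) (ZMod p)} {b : Fin n → R}
    (hψ : ∀ i, ψ i = ∑ j, C (ι₀ (A i j)) * X j + C (b i))
    (A' : Matrix (Fin n) (Fin n) (ZMod p)) (a : R) (i : Fin n) :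
    bind₁ ψ (∑ j, C (ι₀ (A' i j)) * X j + C a) =
      ∑ k, C (ι₀ ((A' * A) i k)) * X k + C (∑ j, ι₀ (A' i j) * b j + a) := by
  rw [map_add, map_sum, bind₁_C_right]
  simp only [map_mul, bind₁_C_right, bind₁_X_right, hψ]
  exact aff_apply ι₀ A A' b a i

theorem GLAff.comp {ι₀ : ZMod p →+* R} {ψ χ : Fin n → MvPolynomial (Fin n) R}
    (hψ : GLAff p ι₀ ψ) (hχ : GLAff p ι₀ χ) : GLAff p ι₀ fun i => bind₁ ψ (χ i) := by
  obtain ⟨A, b, hA, hψ⟩ := hψ
  obtain ⟨A', b', hA', hχ⟩ := hχ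
  refine ⟨A' * A, fun i => ∑ j, ι₀ (A' i j) * b j + b' i, ?_, fun i => ?_⟩
  · rw [Matrix.det_mul]
    exact hA'.mul hA
  · beta_reduce
    rw [hχ i]
    exact bind_aff ι₀ hψ A' (b' i) i

theorem GLAff.comps {ι₀ : ZMod p →+* R} {ψ : ℕ → Fin n → MvPolynomial (Fin n) R}
    (hψ : ∀ k, GLAff p ι₀ (ψ k)) (k : ℕ) {χ : Fin n → MvPolynomial (Fin n) R}
    (hχ : GLAff p ι₀ χ) : GLAff p ι₀ fun i => Pool.Agent.Helper26.FD.comps ψ k (χ i) := by
  induction k generalizing χ with
  | zero => exact hχ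
  | succ k ih => exact ih ((hψ k).comp hχ)

theorem aff_iterate (ι₀ : ZMod p →+* R) {ψ : Fin n → MvPolynomial (Fin n) R}
    {A : Matrix (Fin n) (Fin n) (ZMod p)} {b : Fin n → R}
    (hψ : ∀ i, ψ i = ∑ j, C (ι₀ (A i j)) * X j + C (b i)) (m : ℕ) (i : Fin n) :
    ((bind₁ ψ) ^ m) (X i) = ∑ j, C (ι₀ ((A ^ m) i j)) * X j +
      C (∑ j, ι₀ ((∑ t ∈ Finset.range m, A ^ t) i j) * b j) := by
  induction m generalizing i with
  | zero =>
    simp only [pow_zero, Finset.range_zero, Finset.sum_empty, Matrix.zero_apply, map_zero,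
      zero_mul, Finset.sum_const_zero, add_zero, AlgHom.one_apply]
    rw [Finset.sum_eq_single i]
    · simp
    · intro j _ hj
      rw [Matrix.one_apply_ne (Ne.symm hj), map_zero, C_0, zero_mul]
    · intro h
      exact absurd (Finset.mem_univ _) h
  | succ m ih =>
    rw [pow_succ', AlgHom.mul_apply, ih]
    rw [bind_aff ι₀ hψ (A ^ m) _ i, ← pow_succ, Finset.sum_range_succ]
    congr 2
    rw [← Finset.sum_add_distrib]
    refine Finset.sum_congr rfl fun j _ => ?_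
    rw [Matrix.add_apply, map_add]
    ring

/-- the exponent for the affine groups -/
noncomputable def expoF (n p : ℕ) : ℕ :=
  (Nat.card (Matrix (Fin n) (Fin n) (ZMod p))).factorial * p

theorem expoF_pos (n : ℕ) {p : ℕ} (hp : 0 < p) : 1 ≤ expoF n p :=
  Nat.mul_pos (Nat.factorial_pos _) hp

theorem pow_expo [Fact p.Prime] {A : Matrix (Fin n) (Fin n) (ZMod p)} (hA : IsUnit A.det) :
    A ^ (Nat.card (Matrix (Fin n) (Fin n) (ZMod p))).factorial = 1 := by
  obtain ⟨i, j, hij, hj, h⟩ := exists_coincidence (fun k : ℕ => A ^ k)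
  have h1 := idem_factorial A hij hj h
  have h2 : IsUnit (A ^ (Nat.card (Matrix (Fin n) (Fin n) (ZMod p))).factorial) :=
    ((Matrix.isUnit_iff_isUnit_det A).2 hA).pow _
  exact h2.mul_left_cancel (by rw [h1, mul_one])

theorem sum_pow_expo [Fact p.Prime] {A : Matrix (Fin n) (Fin n) (ZMod p)} (hA : IsUnit A.det) :
    ∑ t ∈ Finset.range (expoF n p), A ^ t = 0 := by
  set M := (Nat.card (Matrix (Fin n) (Fin n) (ZMod p))).factorial with hM
  have h1 : ∀ k, ∑ t ∈ Finset.range (M * k), A ^ t = k • ∑ t ∈ Finset.range M, A ^ t := by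
    intro k
    induction k with
    | zero => simp
    | succ k ih =>
      rw [mul_add, mul_one, Finset.sum_range_add, ih, succ_nsmul]
      congr 1
      refine Finset.sum_congr rfl fun t _ => ?_
      rw [pow_add, pow_mul, pow_expo hA, one_pow, one_mul]
  rw [expoF, ← hM, h1]
  ext a b
  rw [Matrix.smul_apply, Matrix.zero_apply, nsmul_eq_mul, CharP.cast_eq_zero, zero_mul]

theorem GLAff.pow_one [Fact p.Prime] {ι₀ : ZMod p →+* R} {ψ : Fin n → MvPolynomial (Fin n) R}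
    (hψ : GLAff p ι₀ ψ) (i : Fin n) : ((bind₁ ψ) ^ expoF n p) (X i) = X i := by
  obtain ⟨A, b, hA, hψ⟩ := hψ
  rw [aff_iterate ι₀ hψ, sum_pow_expo hA, expoF, pow_mul, pow_expo hA, one_pow]
  simp only [Matrix.zero_apply, map_zero, zero_mul, Finset.sum_const_zero, add_zero]
  rw [Finset.sum_eq_single i]
  · simp
  · intro j _ hj
    rw [Matrix.one_apply_ne (Ne.symm hj), map_zero, C_0, zero_mul]
  · intro h
    exact absurd (Finset.mem_univ _) h

end affine

section interp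

variable {n p : ℕ} [Fact p.Prime] {O R : Type*} [CommRing O] [CommRing R]

theorem interp_univ (π : O →+* R) (hπ : ∀ z, π z = 0 ↔ (p : O) ∣ z) (ι₀ : ZMod p →+* R)
    (Φ : Fin n → MvPolynomial (Fin n) O) (Φb : Fin n → MvPolynomial (Fin n) (ZMod p))
    (hΦ : ∀ i, map π (Φ i) = map ι₀ (Φb i)) (x : ℕ → Fin n → O)
    (hx : ∀ k, x (k + 1) = pmap Φ (x k)) (γ : Fin n → ZMod p) (hγ : ∀ i, π (x 0 i) = ι₀ (γ i))
    {ℓ : ℕ} (hℓ : (pmap Φb)^[ℓ] γ = γ)
    (hdet : ∀ k, (Matrix.of fun a b => eval ((pmap Φb)^[k] γ) (pderiv b (Φb a))).det ≠ 0) :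
    ∃ u : Fin n → MvPolynomial (Fin n) O, ∀ i,
      zoom (x 0) (p : O) (((bind₁ Φ) ^ (ℓ * expoF n p)) (X i)) =
        C (x 0 i) + C (p : O) * (X i + C (p : O) * u i) := by
  have hπp : π (p : O) = 0 := (hπ _).2 dvd_rfl
  have hit : ∀ k, (fun i => π (x k i)) = fun i => ι₀ ((pmap Φb)^[k] γ i) := by
    intro k
    have h0 : x k = (pmap Φ)^[k] (x 0) := by
      have := seq_iter hx 0 k
      rw [zero_add] at this
      exact this.symm
    have h1 := pmap_map_iterate π Φ k (x 0)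
    have h2 := pmap_map_iterate ι₀ Φb k γ
    rw [h0, ← h1, ← h2]
    have h3 : (fun i => π (x 0 i)) = fun i => ι₀ (γ i) := funext hγ
    have h4 : (fun i => map π (Φ i)) = fun i => map ι₀ (Φb i) := funext hΦ
    rw [h3, h4]
  have hJ : ∀ k i j, π (eval (x k) (pderiv j (Φ i))) =
      ι₀ (eval ((pmap Φb)^[k] γ) (pderiv j (Φb i))) := by
    intro k i j
    rw [eval_hom, eval_hom, ← pderiv_map, ← pderiv_map, hΦ]
    rw [hit k]
  have hper : ∀ i, (p : O) ∣ x ℓ i - x 0 i := by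
    intro i
    rw [← hπ, map_sub, sub_eq_zero]
    have h1 := congrFun (hit ℓ) i
    rw [hℓ] at h1
    exact h1.trans (hγ i).symm
  choose c hc using hper
  obtain ⟨r, hr⟩ := exists_r (p := p) Φ x
  obtain ⟨S, hSdef⟩ := exists_S (locψ p Φ x r) ℓ c
  have hS : ∀ F, zoom (x 0) (p : O) (((bind₁ Φ) ^ ℓ) F) = S (zoom (x 0) (p : O) F) := fun F => by
    rw [loc_comp Φ x hx r hr, loc_trans hc, hSdef]
  have hmapS : ∀ i, map π (S (X i)) = comps (fun k i => map π (locψ p Φ x r k i)) ℓ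
      (X i + C (π (c i))) := by
    intro i
    rw [hSdef, map_comps, bind₁_X_right, map_add, map_X, map_C]
  have hloc : ∀ k, GLAff p ι₀ fun i => map π (locψ p Φ x r k i) := by
    intro k
    refine ⟨Matrix.of fun a b => eval ((pmap Φb)^[k] γ) (pderiv b (Φb a)), fun _ => 0,
      isUnit_iff_ne_zero.2 (hdet k), fun i => ?_⟩
    beta_reduce
    rw [map_locψ π hπp, C_0, add_zero]
    refine Finset.sum_congr rfl fun j _ => ?_
    rw [hJ]
    rfl
  have hX : GLAff p ι₀ fun i : Fin n => (X i + C (π (c i)) : MvPolynomial (Fin n) R) := by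
    refine ⟨1, fun i => π (c i), by simp, fun i => ?_⟩
    rw [Finset.sum_eq_single i]
    · simp
    · intro j _ hj
      rw [Matrix.one_apply_ne (Ne.symm hj), map_zero, C_0, zero_mul]
    · intro h
      exact absurd (Finset.mem_univ _) h
  have hSaff : GLAff p ι₀ fun i => map π (S (X i)) := by
    have h1 := GLAff.comps hloc ℓ hX
    have h2 : (fun i => map π (S (X i))) = fun i => comps (fun k i => map π (locψ p Φ x r k i)) ℓ
      (X i + C (π (c i))) := funext hmapS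
    rw [h2]
    exact h1
  set M := expoF n p with hM
  have hSb : S = bind₁ (fun i => S (X i)) := by
    apply algHom_ext
    intro i
    rw [bind₁_X_right]
  have hu : ∀ i, ∃ u, (S ^ M) (X i) = X i + C (p : O) * u := by
    intro i
    have h13 := map_bind₁_pow π (fun i => S (X i)) M (X i)
    rw [← hSb, map_X, hM, hSaff.pow_one] at h13
    have h14 : C (p : O) ∣ (S ^ M) (X i) - X i := by
      rw [C_dvd_iff_map_hom_eq_zero π (p : O) hπ, map_sub, hM, h13, map_X, sub_self]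
    obtain ⟨u, hu⟩ := h14
    exact ⟨u, by rw [← hu]; ring⟩
  refine ⟨fun i => (hu i).choose, fun i => ?_⟩
  have h16 : zoom (x 0) (p : O) (X i) = C (x 0 i) + C (p : O) * X i := bind₁_X_right _ _
  rw [loc_pow Φ (x 0) ℓ S hS, h16, map_add, map_mul, algHom_C, algHom_C, (hu i).choose_spec,
    algebraMap_eq]

end interp

end Pool.Agent.Helper87.LD
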